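import Pool.Agent.helper14.NR.E4a.PN1

/-!
Generated: certificates.
-/

namespace Pool.Agent.helper14.NR.E4a

open Pool.Agent.helper31.IA (Z)
open Pool.Agent.helper31.IX (Op XOps runX Cov CovD cov_split covD_split)
open Pool.Agent.helper31.IC (TD)
open Pool.Agent.helper63.RG (reloc)
open Pool.Agent.helper63.NF hiding TD
open Pool.Agent.helper14.CF (xE covD_E)
open Pool.Agent.helper14.NR (share)

mutual
theorem A1_c0_t8 : CovD 1 gA1 [(233646325760, 13744209920), (41232105472, 41232105472), (85899345920, 85899345920)] :=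
  covD_E kA1_eq (.n 2 (.l 2) (.n 2 (.l 2) (.n 2 (.n 1 (.n 1 (.n 1 (.n 0 (.l 0) (.l 0)) (.l 0)) (.n 1 (.l 0) (.l 0))) (.n 1 (.l 0) (.l 0))) (.n 1 (.n 1 (.n 1 (.l 0) (.l 0)) (.n 1 (.l 0) (.l 0))) (.n 1 (.l 0) (.l 0))))))
    [(233646325760, 13744209920), (41232105472, 41232105472), (85899345920, 85899345920)] rfl (by decide +kernel)
theorem A1_c0_t10 : CovD 1 gA1 [(233646325760, 13744209920), (20616052736, 20616052736), (257698037760, 85899345920)] :=
  covD_E kA1_eq (.n 1 (.n 1 (.n 2 (.n 2 (.n 0 (.l 0) (.l 0)) (.l 0)) (.n 2 (.l 0) (.l 0))) (.n 2 (.n 2 (.n 0 (.l 0) (.l 0)) (.l 0)) (.n 2 (.l 0) (.l 0)))) (.n 2 (.n 1 (.n 2 (.l 0) (.l 0)) (.n 2 (.l 0) (.l 0))) (.n 2 (.l 0) (.l 0))))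
    [(233646325760, 13744209920), (20616052736, 20616052736), (257698037760, 85899345920)] rfl (by decide +kernel)
end

mutual
theorem A1_c0_t11 : CovD 1 gA1 [(233646325760, 13744209920), (61848158208, 20616052736), (257698037760, 85899345920)] :=
  covD_E kA1_eq (.n 1 (.n 2 (.n 2 (.n 0 (.l 0) (.l 0)) (.l 0)) (.n 2 (.l 0) (.l 0))) (.n 2 (.n 2 (.l 0) (.l 0)) (.n 2 (.l 0) (.l 0))))
    [(233646325760, 13744209920), (61848158208, 20616052736), (257698037760, 85899345920)] rfl (by decide +kernel)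
theorem A1_c0_t14 : CovD 1 gA1 [(233646325760, 13744209920), (41232105472, 41232105472), (386547056640, 42949672960)] :=
  covD_E kA1_eq (.n 1 (.n 1 (.n 0 (.n 2 (.l 0) (.l 0)) (.n 2 (.l 0) (.l 0))) (.n 2 (.l 0) (.l 0))) (.n 0 (.n 2 (.l 0) (.l 0)) (.n 2 (.l 0) (.l 0))))
    [(233646325760, 13744209920), (41232105472, 41232105472), (386547056640, 42949672960)] rfl (by decide +kernel)
end

mutual
theorem A1_c0_t15 : CovD 1 gA1 [(233646325760, 13744209920), (41232105472, 41232105472), (472446402560, 42949672960)] :=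
  covD_E kA1_eq (.n 0 (.n 1 (.n 2 (.l 0) (.l 0)) (.n 2 (.l 0) (.l 0))) (.n 1 (.n 2 (.n 0 (.l 0) (.l 0)) (.l 0)) (.n 2 (.l 0) (.l 0))))
    [(233646325760, 13744209920), (41232105472, 41232105472), (472446402560, 42949672960)] rfl (by decide +kernel)
theorem A1_c0_t16 : CovD 1 gA1 [(233646325760, 13744209920), (41232105472, 41232105472), (601295421440, 85899345920)] :=
  covD_E kA1_eq (.n 0 (.n 1 (.n 2 (.n 2 (.l 0) (.l 0)) (.n 2 (.l 0) (.l 0))) (.n 1 (.n 2 (.l 0) (.l 0)) (.n 2 (.l 0) (.l 0)))) (.n 1 (.n 2 (.n 2 (.l 0) (.l 0)) (.n 2 (.l 0) (.l 0))) (.n 2 (.n 2 (.l 0) (.l 0)) (.n 1 (.l 0) (.l 0)))))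
    [(233646325760, 13744209920), (41232105472, 41232105472), (601295421440, 85899345920)] rfl (by decide +kernel)
end

mutual
theorem A1_c0_t18 : CovD 1 gA1 [(233646325760, 13744209920), (20616052736, 20616052736), (1030792151040, 343597383680)] :=
  covD_E kA1_eq (.n 2 (.n 0 (.n 2 (.n 2 (.n 0 (.l 0) (.l 0)) (.l 0)) (.n 2 (.l 0) (.l 0))) (.n 2 (.n 1 (.n 2 (.l 0) (.l 0)) (.n 2 (.l 0) (.l 0))) (.n 2 (.l 0) (.l 0)))) (.n 2 (.n 2 (.n 0 (.l 0) (.l 0)) (.l 0)) (.n 0 (.l 0) (.l 0))))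
    [(233646325760, 13744209920), (20616052736, 20616052736), (1030792151040, 343597383680)] rfl (by decide +kernel)
theorem A1_c0_t19 : CovD 1 gA1 [(233646325760, 13744209920), (61848158208, 20616052736), (1030792151040, 343597383680)] :=
  covD_E kA1_eq (.n 2 (.n 2 (.n 2 (.n 2 (.l 0) (.l 0)) (.n 0 (.l 0) (.l 0))) (.n 0 (.n 2 (.l 0) (.l 0)) (.n 2 (.l 0) (.l 0)))) (.n 2 (.n 2 (.l 0) (.l 0)) (.n 0 (.l 0) (.l 0))))
    [(233646325760, 13744209920), (61848158208, 20616052736), (1030792151040, 343597383680)] rfl (by decide +kernel)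
end

mutual
theorem A1_c0_t20 : CovD 1 gA1 [(233646325760, 13744209920), (41232105472, 41232105472), (2061584302080, 687194767360)] :=
  covD_E kA1_eq (.n 2 (.n 0 (.n 2 (.n 2 (.n 0 (.l 0) (.l 0)) (.l 0)) (.n 1 (.l 0) (.l 0))) (.n 2 (.n 2 (.n 0 (.l 0) (.l 0)) (.l 0)) (.n 1 (.l 0) (.l 0)))) (.n 2 (.n 2 (.n 0 (.l 0) (.l 0)) (.l 0)) (.n 0 (.l 0) (.l 0))))
    [(233646325760, 13744209920), (41232105472, 41232105472), (2061584302080, 687194767360)] rfl (by decide +kernel)
theorem A1_c0_t21 : CovD 1 gA1 [(233646325760, 13744209920), (41232105472, 41232105472), (4123168604160, 1374389534720)] :=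
  covD_E kA1_eq (.n 1 (.n 2 (.n 2 (.n 2 (.l 0) (.l 0)) (.n 0 (.l 0) (.l 0))) (.n 2 (.n 0 (.l 0) (.l 0)) (.l 0))) (.n 2 (.n 2 (.n 2 (.l 0) (.l 0)) (.n 0 (.l 0) (.l 0))) (.n 2 (.n 0 (.l 0) (.l 0)) (.l 0))))
    [(233646325760, 13744209920), (41232105472, 41232105472), (4123168604160, 1374389534720)] rfl (by decide +kernel)
end

mutual
theorem A1_c0_t28 : CovD 1 gA1 [(261134745600, 13744209920), (41232105472, 41232105472), (42949672960, 42949672960)] :=
  covD_E kA1_eq (.l 2)
    [(261134745600, 13744209920), (41232105472, 41232105472), (42949672960, 42949672960)] rfl (by decide +kernel)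
theorem A1_c0_t30 : CovD 1 gA1 [(261134745600, 13744209920), (20616052736, 20616052736), (128849018880, 42949672960)] :=
  covD_E kA1_eq (.n 2 (.l 2) (.n 2 (.n 1 (.n 1 (.n 1 (.l 0) (.l 0)) (.n 0 (.l 0) (.l 0))) (.n 1 (.n 0 (.l 0) (.l 0)) (.l 0))) (.n 1 (.n 1 (.n 1 (.l 0) (.l 0)) (.l 0)) (.n 1 (.l 0) (.l 0)))))
    [(261134745600, 13744209920), (20616052736, 20616052736), (128849018880, 42949672960)] rfl (by decide +kernel)
end

mutual
theorem A1_c0_t31 : CovD 1 gA1 [(261134745600, 13744209920), (61848158208, 20616052736), (128849018880, 42949672960)] :=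
  covD_E kA1_eq (.n 2 (.l 2) (.n 1 (.n 2 (.l 0) (.l 0)) (.l 0)))
    [(261134745600, 13744209920), (61848158208, 20616052736), (128849018880, 42949672960)] rfl (by decide +kernel)
theorem A1_c0_t35 : CovD 1 gA1 [(254262640640, 6872104960), (10308026368, 10308026368), (257698037760, 85899345920)] :=
  covD_E kA1_eq (.n 2 (.n 1 (.n 2 (.n 1 (.l 0) (.l 0)) (.l 0)) (.n 2 (.l 0) (.l 0))) (.n 2 (.n 1 (.l 0) (.l 0)) (.l 0)))
    [(254262640640, 6872104960), (10308026368, 10308026368), (257698037760, 85899345920)] rfl (by decide +kernel)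
end

mutual
theorem A1_c0_t36 : CovD 1 gA1 [(268006850560, 6872104960), (10308026368, 10308026368), (257698037760, 85899345920)] :=
  covD_E kA1_eq (.n 1 (.n 2 (.n 2 (.n 2 (.l 0) (.l 0)) (.n 1 (.l 0) (.l 0))) (.n 2 (.l 0) (.l 0))) (.n 2 (.n 2 (.n 1 (.l 0) (.l 0)) (.l 0)) (.n 2 (.l 0) (.l 0))))
    [(268006850560, 6872104960), (10308026368, 10308026368), (257698037760, 85899345920)] rfl (by decide +kernel)
theorem A1_c0_t37 : CovD 1 gA1 [(261134745600, 13744209920), (30924079104, 10308026368), (257698037760, 85899345920)] :=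
  covD_E kA1_eq (.n 1 (.n 2 (.n 2 (.n 0 (.l 0) (.l 0)) (.l 0)) (.n 2 (.l 0) (.l 0))) (.n 2 (.n 2 (.n 0 (.l 0) (.l 0)) (.l 0)) (.n 2 (.l 0) (.l 0))))
    [(261134745600, 13744209920), (30924079104, 10308026368), (257698037760, 85899345920)] rfl (by decide +kernel)
end

mutual
theorem A1_c0_t38 : CovD 1 gA1 [(261134745600, 13744209920), (61848158208, 20616052736), (257698037760, 85899345920)] :=
  covD_E kA1_eq (.n 1 (.n 2 (.n 1 (.n 2 (.l 0) (.l 0)) (.n 2 (.l 0) (.l 0))) (.n 2 (.n 0 (.l 0) (.l 0)) (.l 0))) (.n 2 (.n 2 (.l 0) (.l 0)) (.n 2 (.l 0) (.l 0))))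
    [(261134745600, 13744209920), (61848158208, 20616052736), (257698037760, 85899345920)] rfl (by decide +kernel)
theorem A1_c0_t41 : CovD 1 gA1 [(261134745600, 13744209920), (20616052736, 20616052736), (429496729600, 85899345920)] :=
  covD_E kA1_eq (.n 0 (.n 1 (.n 2 (.n 2 (.l 0) (.l 0)) (.n 2 (.l 0) (.l 0))) (.n 2 (.n 2 (.l 0) (.l 0)) (.n 2 (.l 0) (.l 0)))) (.n 1 (.n 2 (.n 2 (.l 0) (.l 0)) (.n 2 (.l 0) (.l 0))) (.n 2 (.n 2 (.l 0) (.l 0)) (.n 2 (.l 0) (.l 0)))))
    [(261134745600, 13744209920), (20616052736, 20616052736), (429496729600, 85899345920)] rfl (by decide +kernel)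
end

mutual
theorem A1_c0_t42 : CovD 1 gA1 [(261134745600, 13744209920), (61848158208, 20616052736), (429496729600, 85899345920)] :=
  covD_E kA1_eq (.n 1 (.n 2 (.n 2 (.l 0) (.l 0)) (.n 2 (.l 0) (.l 0))) (.n 2 (.n 2 (.l 0) (.l 0)) (.n 2 (.l 0) (.l 0))))
    [(261134745600, 13744209920), (61848158208, 20616052736), (429496729600, 85899345920)] rfl (by decide +kernel)
theorem A1_c0_t44 : CovD 1 gA1 [(254262640640, 6872104960), (41232105472, 41232105472), (601295421440, 85899345920)] :=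
  covD_E kA1_eq (.n 1 (.n 2 (.n 2 (.l 0) (.l 0)) (.n 2 (.l 0) (.l 0))) (.n 2 (.n 2 (.l 0) (.l 0)) (.n 2 (.l 0) (.l 0))))
    [(254262640640, 6872104960), (41232105472, 41232105472), (601295421440, 85899345920)] rfl (by decide +kernel)
end

mutual
theorem A1_c0_t45 : CovD 1 gA1 [(268006850560, 6872104960), (41232105472, 41232105472), (601295421440, 85899345920)] :=
  covD_E kA1_eq (.n 1 (.n 2 (.n 2 (.n 0 (.l 0) (.l 0)) (.l 0)) (.n 2 (.l 0) (.l 0))) (.n 2 (.n 2 (.l 0) (.l 0)) (.n 2 (.l 0) (.l 0))))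
    [(268006850560, 6872104960), (41232105472, 41232105472), (601295421440, 85899345920)] rfl (by decide +kernel)
theorem A1_c0_t47 : CovD 1 gA1 [(261134745600, 13744209920), (20616052736, 20616052736), (1030792151040, 343597383680)] :=
  covD_E kA1_eq (.n 2 (.n 2 (.n 2 (.n 0 (.n 1 (.l 0) (.l 0)) (.n 2 (.l 0) (.l 0))) (.n 2 (.n 0 (.l 0) (.l 0)) (.l 0))) (.n 0 (.n 2 (.l 0) (.l 0)) (.n 2 (.l 0) (.l 0)))) (.n 2 (.n 2 (.n 0 (.l 0) (.l 0)) (.l 0)) (.n 0 (.l 0) (.l 0))))
    [(261134745600, 13744209920), (20616052736, 20616052736), (1030792151040, 343597383680)] rfl (by decide +kernel)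
end

mutual
theorem A1_c0_t48 : CovD 1 gA1 [(261134745600, 13744209920), (61848158208, 20616052736), (1030792151040, 343597383680)] :=
  covD_E kA1_eq (.n 2 (.n 2 (.n 2 (.n 0 (.n 0 (.l 0) (.l 0)) (.n 1 (.l 0) (.l 0))) (.n 2 (.l 0) (.l 0))) (.n 0 (.n 2 (.l 0) (.l 0)) (.n 2 (.l 0) (.l 0)))) (.n 2 (.n 2 (.l 0) (.l 0)) (.n 0 (.l 0) (.l 0))))
    [(261134745600, 13744209920), (61848158208, 20616052736), (1030792151040, 343597383680)] rfl (by decide +kernel)
theorem A1_c0_t49 : CovD 1 gA1 [(261134745600, 13744209920), (41232105472, 41232105472), (2061584302080, 687194767360)] :=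
  covD_E kA1_eq (.n 1 (.n 2 (.n 2 (.n 2 (.n 0 (.l 0) (.l 0)) (.l 0)) (.n 0 (.l 0) (.l 0))) (.n 2 (.n 0 (.l 0) (.l 0)) (.l 0))) (.n 2 (.n 2 (.n 2 (.n 0 (.l 0) (.l 0)) (.l 0)) (.n 0 (.l 0) (.l 0))) (.n 2 (.n 0 (.l 0) (.l 0)) (.l 0))))
    [(261134745600, 13744209920), (41232105472, 41232105472), (2061584302080, 687194767360)] rfl (by decide +kernel)
end

mutual
theorem A1_c0_t50 : CovD 1 gA1 [(261134745600, 13744209920), (41232105472, 41232105472), (4123168604160, 1374389534720)] :=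
  covD_E kA1_eq (.n 1 (.n 2 (.n 2 (.n 2 (.l 0) (.l 0)) (.n 0 (.l 0) (.l 0))) (.n 2 (.n 0 (.l 0) (.l 0)) (.l 0))) (.n 2 (.n 2 (.n 2 (.l 0) (.l 0)) (.n 0 (.l 0) (.l 0))) (.n 2 (.n 0 (.l 0) (.l 0)) (.l 0))))
    [(261134745600, 13744209920), (41232105472, 41232105472), (4123168604160, 1374389534720)] rfl (by decide +kernel)
theorem A1_c0_t56 : CovD 1 gA1 [(233646325760, 13744209920), (123696316416, 41232105472), (171798691840, 171798691840)] :=
  covD_E kA1_eq (.n 2 (.n 2 (.l 2) (.n 2 (.l 2) (.n 1 (.l 0) (.l 0)))) (.n 1 (.n 2 (.n 2 (.l 0) (.l 0)) (.n 2 (.l 0) (.l 0))) (.n 0 (.n 2 (.l 0) (.l 0)) (.n 2 (.l 0) (.l 0)))))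
    [(233646325760, 13744209920), (123696316416, 41232105472), (171798691840, 171798691840)] rfl (by decide +kernel)
end

mutual
theorem A1_c0_t57 : CovD 1 gA1 [(233646325760, 13744209920), (123696316416, 41232105472), (515396075520, 171798691840)] :=
  covD_E kA1_eq (.n 1 (.n 2 (.n 2 (.n 2 (.l 0) (.l 0)) (.n 2 (.l 0) (.l 0))) (.n 2 (.n 2 (.l 0) (.l 0)) (.n 2 (.l 0) (.l 0)))) (.n 0 (.n 2 (.n 2 (.l 0) (.l 0)) (.n 2 (.l 0) (.l 0))) (.n 2 (.n 2 (.l 0) (.l 0)) (.n 2 (.l 0) (.l 0)))))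
    [(233646325760, 13744209920), (123696316416, 41232105472), (515396075520, 171798691840)] rfl (by decide +kernel)
theorem A1_c0_t59 : CovD 1 gA1 [(233646325760, 13744209920), (103080263680, 20616052736), (1030792151040, 343597383680)] :=
  covD_E kA1_eq (.n 2 (.n 0 (.n 2 (.n 2 (.l 0) (.l 0)) (.n 2 (.l 0) (.l 0))) (.n 2 (.n 2 (.l 0) (.l 0)) (.n 2 (.l 0) (.l 0)))) (.n 2 (.n 2 (.l 0) (.l 0)) (.n 0 (.l 0) (.l 0))))
    [(233646325760, 13744209920), (103080263680, 20616052736), (1030792151040, 343597383680)] rfl (by decide +kernel)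
end

mutual
theorem A1_c0_t60 : CovD 1 gA1 [(233646325760, 13744209920), (144312369152, 20616052736), (1030792151040, 343597383680)] :=
  covD_E kA1_eq (.n 2 (.n 0 (.n 2 (.n 2 (.l 0) (.l 0)) (.n 2 (.l 0) (.l 0))) (.n 2 (.n 2 (.l 0) (.l 0)) (.n 2 (.l 0) (.l 0)))) (.n 2 (.n 2 (.l 0) (.l 0)) (.n 0 (.l 0) (.l 0))))
    [(233646325760, 13744209920), (144312369152, 20616052736), (1030792151040, 343597383680)] rfl (by decide +kernel)
theorem A1_c0_t61 : CovD 1 gA1 [(233646325760, 13744209920), (123696316416, 41232105472), (2061584302080, 687194767360)] :=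
  covD_E kA1_eq (.n 2 (.n 0 (.n 2 (.n 2 (.n 0 (.l 0) (.l 0)) (.l 0)) (.n 1 (.l 0) (.l 0))) (.n 2 (.n 2 (.n 0 (.l 0) (.l 0)) (.l 0)) (.n 1 (.l 0) (.l 0)))) (.n 2 (.n 2 (.n 0 (.l 0) (.l 0)) (.l 0)) (.n 0 (.l 0) (.l 0))))
    [(233646325760, 13744209920), (123696316416, 41232105472), (2061584302080, 687194767360)] rfl (by decide +kernel)
end

mutual
theorem A1_c0_t63 : CovD 1 gA1 [(233646325760, 13744209920), (103080263680, 20616052736), (4123168604160, 1374389534720)] :=
  covD_E kA1_eq (.n 2 (.n 2 (.n 2 (.l 0) (.l 0)) (.n 0 (.l 0) (.l 0))) (.n 2 (.n 0 (.l 0) (.l 0)) (.n 2 (.l 0) (.l 0))))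
    [(233646325760, 13744209920), (103080263680, 20616052736), (4123168604160, 1374389534720)] rfl (by decide +kernel)
theorem A1_c0_t64 : CovD 1 gA1 [(233646325760, 13744209920), (144312369152, 20616052736), (4123168604160, 1374389534720)] :=
  covD_E kA1_eq (.n 2 (.n 2 (.n 2 (.l 0) (.l 0)) (.n 0 (.l 0) (.l 0))) (.n 2 (.n 2 (.l 0) (.l 0)) (.n 0 (.n 2 (.l 0) (.n 2 (.l 0) (.l 0))) (.l 0))))
    [(233646325760, 13744209920), (144312369152, 20616052736), (4123168604160, 1374389534720)] rfl (by decide +kernel)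
end

mutual
theorem A1_c0_t70 : CovD 1 gA1 [(261134745600, 13744209920), (123696316416, 41232105472), (85899345920, 85899345920)] :=
  covD_E kA1_eq (.n 2 (.l 2) (.n 2 (.l 2) (.n 1 (.n 0 (.l 0) (.l 0)) (.l 0))))
    [(261134745600, 13744209920), (123696316416, 41232105472), (85899345920, 85899345920)] rfl (by decide +kernel)
theorem A1_c0_t71 : CovD 1 gA1 [(261134745600, 13744209920), (123696316416, 41232105472), (257698037760, 85899345920)] :=
  covD_E kA1_eq (.n 1 (.n 0 (.n 2 (.n 2 (.l 0) (.l 0)) (.n 2 (.l 0) (.l 0))) (.n 2 (.n 2 (.l 0) (.l 0)) (.n 2 (.l 0) (.l 0)))) (.n 2 (.n 2 (.l 0) (.l 0)) (.n 2 (.l 0) (.l 0))))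
    [(261134745600, 13744209920), (123696316416, 41232105472), (257698037760, 85899345920)] rfl (by decide +kernel)
end

mutual
theorem A1_c0_t73 : CovD 1 gA1 [(261134745600, 13744209920), (103080263680, 20616052736), (515396075520, 171798691840)] :=
  covD_E kA1_eq (.n 2 (.n 2 (.n 0 (.n 2 (.l 0) (.l 0)) (.n 2 (.l 0) (.l 0))) (.n 2 (.n 0 (.l 0) (.l 0)) (.l 0))) (.n 2 (.n 2 (.l 0) (.n 0 (.l 0) (.l 0))) (.n 2 (.l 0) (.l 0))))
    [(261134745600, 13744209920), (103080263680, 20616052736), (515396075520, 171798691840)] rfl (by decide +kernel)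
theorem A1_c0_t74 : CovD 1 gA1 [(261134745600, 13744209920), (144312369152, 20616052736), (515396075520, 171798691840)] :=
  covD_E kA1_eq (.n 2 (.n 2 (.n 2 (.l 0) (.l 0)) (.n 2 (.l 0) (.l 0))) (.n 2 (.n 2 (.l 0) (.l 0)) (.n 2 (.l 0) (.l 0))))
    [(261134745600, 13744209920), (144312369152, 20616052736), (515396075520, 171798691840)] rfl (by decide +kernel)
end

mutual
theorem A1_c0_t76 : CovD 1 gA1 [(261134745600, 13744209920), (103080263680, 20616052736), (1030792151040, 343597383680)] :=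
  covD_E kA1_eq (.n 2 (.n 2 (.n 2 (.n 2 (.l 0) (.l 0)) (.n 0 (.l 0) (.l 0))) (.n 0 (.n 2 (.l 0) (.l 0)) (.n 2 (.l 0) (.l 0)))) (.n 2 (.n 2 (.l 0) (.l 0)) (.n 0 (.l 0) (.l 0))))
    [(261134745600, 13744209920), (103080263680, 20616052736), (1030792151040, 343597383680)] rfl (by decide +kernel)
theorem A1_c0_t77 : CovD 1 gA1 [(261134745600, 13744209920), (144312369152, 20616052736), (1030792151040, 343597383680)] :=
  covD_E kA1_eq (.n 2 (.n 0 (.n 2 (.n 2 (.l 0) (.l 0)) (.n 2 (.l 0) (.l 0))) (.n 2 (.n 2 (.l 0) (.l 0)) (.n 2 (.l 0) (.l 0)))) (.n 2 (.n 2 (.l 0) (.l 0)) (.n 0 (.l 0) (.l 0))))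
    [(261134745600, 13744209920), (144312369152, 20616052736), (1030792151040, 343597383680)] rfl (by decide +kernel)
end

mutual
theorem A1_c0_t79 : CovD 1 gA1 [(261134745600, 13744209920), (103080263680, 20616052736), (2061584302080, 687194767360)] :=
  covD_E kA1_eq (.n 2 (.n 2 (.n 2 (.n 0 (.l 0) (.l 0)) (.l 0)) (.n 0 (.l 0) (.l 0))) (.n 2 (.n 0 (.l 0) (.l 0)) (.l 0)))
    [(261134745600, 13744209920), (103080263680, 20616052736), (2061584302080, 687194767360)] rfl (by decide +kernel)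
theorem A1_c0_t80 : CovD 1 gA1 [(261134745600, 13744209920), (144312369152, 20616052736), (2061584302080, 687194767360)] :=
  covD_E kA1_eq (.n 2 (.n 2 (.n 2 (.n 0 (.l 0) (.l 0)) (.l 0)) (.n 2 (.l 0) (.l 0))) (.n 0 (.n 2 (.l 0) (.l 0)) (.n 2 (.l 0) (.l 0))))
    [(261134745600, 13744209920), (144312369152, 20616052736), (2061584302080, 687194767360)] rfl (by decide +kernel)
end

mutual
theorem A1_c0_t81 : CovD 1 gA1 [(261134745600, 13744209920), (123696316416, 41232105472), (4123168604160, 1374389534720)] :=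
  covD_E kA1_eq (.n 1 (.n 2 (.n 2 (.n 2 (.l 0) (.l 0)) (.n 0 (.l 0) (.l 0))) (.n 2 (.n 0 (.l 0) (.l 0)) (.l 0))) (.n 2 (.n 2 (.n 2 (.l 0) (.l 0)) (.n 0 (.l 0) (.l 0))) (.n 0 (.n 2 (.l 0) (.l 0)) (.n 2 (.l 0) (.l 0)))))
    [(261134745600, 13744209920), (123696316416, 41232105472), (4123168604160, 1374389534720)] rfl (by decide +kernel)
theorem A1_c0_t84 : CovD 1 gA1 [(233646325760, 13744209920), (41232105472, 41232105472), (8246337208320, 2748779069440)] :=
  covD_E kA1_eq (.n 0 (.n 2 (.n 2 (.n 2 (.n 0 (.l 0) (.l 0)) (.l 1)) (.l 1)) (.n 2 (.l 1) (.l 1))) (.n 2 (.n 2 (.n 1 (.l 0) (.l 0)) (.l 1)) (.n 2 (.l 1) (.l 1))))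
    [(233646325760, 13744209920), (41232105472, 41232105472), (8246337208320, 2748779069440)] rfl (by decide +kernel)
end

mutual
theorem A1_c0_t85 : CovD 1 gA1 [(233646325760, 13744209920), (123696316416, 41232105472), (8246337208320, 2748779069440)] :=
  covD_E kA1_eq (.n 1 (.n 2 (.n 2 (.n 2 (.n 0 (.n 2 (.l 0) (.l 0)) (.l 0)) (.l 1)) (.l 1)) (.n 2 (.l 1) (.l 1))) (.n 2 (.n 2 (.n 2 (.n 1 (.n 0 (.l 1) (.l 0)) (.l 1)) (.l 1)) (.l 1)) (.n 2 (.l 1) (.l 1))))
    [(233646325760, 13744209920), (123696316416, 41232105472), (8246337208320, 2748779069440)] rfl (by decide +kernel)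
theorem A1_c0_t87 : CovD 1 gA1 [(261134745600, 13744209920), (41232105472, 41232105472), (8246337208320, 2748779069440)] :=
  covD_E kA1_eq (.n 1 (.n 2 (.n 2 (.n 0 (.l 0) (.l 0)) (.l 1)) (.n 2 (.l 1) (.l 0))) (.n 2 (.n 2 (.n 2 (.l 0) (.l 0)) (.l 1)) (.n 2 (.l 1) (.l 0))))
    [(261134745600, 13744209920), (41232105472, 41232105472), (8246337208320, 2748779069440)] rfl (by decide +kernel)
end

theorem A1_c0_t88 : CovD 1 gA1 [(261134745600, 13744209920), (123696316416, 41232105472), (8246337208320, 2748779069440)] :=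
  covD_E kA1_eq (.n 1 (.n 2 (.n 2 (.n 2 (.l 0) (.l 0)) (.l 1)) (.n 2 (.l 1) (.l 0))) (.n 2 (.n 2 (.n 2 (.l 0) (.l 0)) (.l 1)) (.n 2 (.l 1) (.l 1))))
    [(261134745600, 13744209920), (123696316416, 41232105472), (8246337208320, 2748779069440)] rfl (by decide +kernel)

theorem A1_c0_t9 : CovD 1 gA1 [(233646325760, 13744209920), (41232105472, 41232105472), (257698037760, 85899345920)] :=
  covD_split 1 (by decide +kernel) A1_c0_t10 A1_c0_t11

theorem A1_c0_t7 : CovD 1 gA1 [(233646325760, 13744209920), (41232105472, 41232105472), (171798691840, 171798691840)] :=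
  covD_split 2 (by decide +kernel) A1_c0_t8 A1_c0_t9

theorem A1_c0_t13 : CovD 1 gA1 [(233646325760, 13744209920), (41232105472, 41232105472), (429496729600, 85899345920)] :=
  covD_split 2 (by decide +kernel) A1_c0_t14 A1_c0_t15

theorem A1_c0_t12 : CovD 1 gA1 [(233646325760, 13744209920), (41232105472, 41232105472), (515396075520, 171798691840)] :=
  covD_split 2 (by decide +kernel) A1_c0_t13 A1_c0_t16

theorem A1_c0_t6 : CovD 1 gA1 [(233646325760, 13744209920), (41232105472, 41232105472), (343597383680, 343597383680)] :=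
  covD_split 2 (by decide +kernel) A1_c0_t7 A1_c0_t12

theorem A1_c0_t17 : CovD 1 gA1 [(233646325760, 13744209920), (41232105472, 41232105472), (1030792151040, 343597383680)] :=
  covD_split 1 (by decide +kernel) A1_c0_t18 A1_c0_t19

theorem A1_c0_t5 : CovD 1 gA1 [(233646325760, 13744209920), (41232105472, 41232105472), (687194767360, 687194767360)] :=
  covD_split 2 (by decide +kernel) A1_c0_t6 A1_c0_t17

theorem A1_c0_t4 : CovD 1 gA1 [(233646325760, 13744209920), (41232105472, 41232105472), (1374389534720, 1374389534720)] :=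
  covD_split 2 (by decide +kernel) A1_c0_t5 A1_c0_t20

theorem A1_c0_t3 : CovD 1 gA1 [(233646325760, 13744209920), (41232105472, 41232105472), (2748779069440, 2748779069440)] :=
  covD_split 2 (by decide +kernel) A1_c0_t4 A1_c0_t21

theorem A1_c0_t29 : CovD 1 gA1 [(261134745600, 13744209920), (41232105472, 41232105472), (128849018880, 42949672960)] :=
  covD_split 1 (by decide +kernel) A1_c0_t30 A1_c0_t31

theorem A1_c0_t27 : CovD 1 gA1 [(261134745600, 13744209920), (41232105472, 41232105472), (85899345920, 85899345920)] :=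
  covD_split 2 (by decide +kernel) A1_c0_t28 A1_c0_t29

theorem A1_c0_t34 : CovD 1 gA1 [(261134745600, 13744209920), (10308026368, 10308026368), (257698037760, 85899345920)] :=
  covD_split 0 (by decide +kernel) A1_c0_t35 A1_c0_t36

theorem A1_c0_t33 : CovD 1 gA1 [(261134745600, 13744209920), (20616052736, 20616052736), (257698037760, 85899345920)] :=
  covD_split 1 (by decide +kernel) A1_c0_t34 A1_c0_t37

theorem A1_c0_t32 : CovD 1 gA1 [(261134745600, 13744209920), (41232105472, 41232105472), (257698037760, 85899345920)] :=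
  covD_split 1 (by decide +kernel) A1_c0_t33 A1_c0_t38

theorem A1_c0_t26 : CovD 1 gA1 [(261134745600, 13744209920), (41232105472, 41232105472), (171798691840, 171798691840)] :=
  covD_split 2 (by decide +kernel) A1_c0_t27 A1_c0_t32

theorem A1_c0_t40 : CovD 1 gA1 [(261134745600, 13744209920), (41232105472, 41232105472), (429496729600, 85899345920)] :=
  covD_split 1 (by decide +kernel) A1_c0_t41 A1_c0_t42

theorem A1_c0_t43 : CovD 1 gA1 [(261134745600, 13744209920), (41232105472, 41232105472), (601295421440, 85899345920)] :=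
  covD_split 0 (by decide +kernel) A1_c0_t44 A1_c0_t45

theorem A1_c0_t39 : CovD 1 gA1 [(261134745600, 13744209920), (41232105472, 41232105472), (515396075520, 171798691840)] :=
  covD_split 2 (by decide +kernel) A1_c0_t40 A1_c0_t43

theorem A1_c0_t25 : CovD 1 gA1 [(261134745600, 13744209920), (41232105472, 41232105472), (343597383680, 343597383680)] :=
  covD_split 2 (by decide +kernel) A1_c0_t26 A1_c0_t39

theorem A1_c0_t46 : CovD 1 gA1 [(261134745600, 13744209920), (41232105472, 41232105472), (1030792151040, 343597383680)] :=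
  covD_split 1 (by decide +kernel) A1_c0_t47 A1_c0_t48

theorem A1_c0_t24 : CovD 1 gA1 [(261134745600, 13744209920), (41232105472, 41232105472), (687194767360, 687194767360)] :=
  covD_split 2 (by decide +kernel) A1_c0_t25 A1_c0_t46

theorem A1_c0_t23 : CovD 1 gA1 [(261134745600, 13744209920), (41232105472, 41232105472), (1374389534720, 1374389534720)] :=
  covD_split 2 (by decide +kernel) A1_c0_t24 A1_c0_t49

theorem A1_c0_t22 : CovD 1 gA1 [(261134745600, 13744209920), (41232105472, 41232105472), (2748779069440, 2748779069440)] :=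
  covD_split 2 (by decide +kernel) A1_c0_t23 A1_c0_t50

theorem A1_c0_t2 : CovD 1 gA1 [(247390535680, 27488419840), (41232105472, 41232105472), (2748779069440, 2748779069440)] :=
  covD_split 0 (by decide +kernel) A1_c0_t3 A1_c0_t22

theorem A1_c0_t55 : CovD 1 gA1 [(233646325760, 13744209920), (123696316416, 41232105472), (343597383680, 343597383680)] :=
  covD_split 2 (by decide +kernel) A1_c0_t56 A1_c0_t57

theorem A1_c0_t58 : CovD 1 gA1 [(233646325760, 13744209920), (123696316416, 41232105472), (1030792151040, 343597383680)] :=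
  covD_split 1 (by decide +kernel) A1_c0_t59 A1_c0_t60

theorem A1_c0_t54 : CovD 1 gA1 [(233646325760, 13744209920), (123696316416, 41232105472), (687194767360, 687194767360)] :=
  covD_split 2 (by decide +kernel) A1_c0_t55 A1_c0_t58

theorem A1_c0_t53 : CovD 1 gA1 [(233646325760, 13744209920), (123696316416, 41232105472), (1374389534720, 1374389534720)] :=
  covD_split 2 (by decide +kernel) A1_c0_t54 A1_c0_t61

theorem A1_c0_t62 : CovD 1 gA1 [(233646325760, 13744209920), (123696316416, 41232105472), (4123168604160, 1374389534720)] :=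
  covD_split 1 (by decide +kernel) A1_c0_t63 A1_c0_t64

theorem A1_c0_t52 : CovD 1 gA1 [(233646325760, 13744209920), (123696316416, 41232105472), (2748779069440, 2748779069440)] :=
  covD_split 2 (by decide +kernel) A1_c0_t53 A1_c0_t62

theorem A1_c0_t69 : CovD 1 gA1 [(261134745600, 13744209920), (123696316416, 41232105472), (171798691840, 171798691840)] :=
  covD_split 2 (by decide +kernel) A1_c0_t70 A1_c0_t71

theorem A1_c0_t72 : CovD 1 gA1 [(261134745600, 13744209920), (123696316416, 41232105472), (515396075520, 171798691840)] :=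
  covD_split 1 (by decide +kernel) A1_c0_t73 A1_c0_t74

theorem A1_c0_t68 : CovD 1 gA1 [(261134745600, 13744209920), (123696316416, 41232105472), (343597383680, 343597383680)] :=
  covD_split 2 (by decide +kernel) A1_c0_t69 A1_c0_t72

theorem A1_c0_t75 : CovD 1 gA1 [(261134745600, 13744209920), (123696316416, 41232105472), (1030792151040, 343597383680)] :=
  covD_split 1 (by decide +kernel) A1_c0_t76 A1_c0_t77

theorem A1_c0_t67 : CovD 1 gA1 [(261134745600, 13744209920), (123696316416, 41232105472), (687194767360, 687194767360)] :=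
  covD_split 2 (by decide +kernel) A1_c0_t68 A1_c0_t75

theorem A1_c0_t78 : CovD 1 gA1 [(261134745600, 13744209920), (123696316416, 41232105472), (2061584302080, 687194767360)] :=
  covD_split 1 (by decide +kernel) A1_c0_t79 A1_c0_t80

theorem A1_c0_t66 : CovD 1 gA1 [(261134745600, 13744209920), (123696316416, 41232105472), (1374389534720, 1374389534720)] :=
  covD_split 2 (by decide +kernel) A1_c0_t67 A1_c0_t78

theorem A1_c0_t65 : CovD 1 gA1 [(261134745600, 13744209920), (123696316416, 41232105472), (2748779069440, 2748779069440)] :=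
  covD_split 2 (by decide +kernel) A1_c0_t66 A1_c0_t81

theorem A1_c0_t51 : CovD 1 gA1 [(247390535680, 27488419840), (123696316416, 41232105472), (2748779069440, 2748779069440)] :=
  covD_split 0 (by decide +kernel) A1_c0_t52 A1_c0_t65

theorem A1_c0_t1 : CovD 1 gA1 [(247390535680, 27488419840), (82464210944, 82464210944), (2748779069440, 2748779069440)] :=
  covD_split 1 (by decide +kernel) A1_c0_t2 A1_c0_t51

theorem A1_c0_t83 : CovD 1 gA1 [(233646325760, 13744209920), (82464210944, 82464210944), (8246337208320, 2748779069440)] :=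
  covD_split 1 (by decide +kernel) A1_c0_t84 A1_c0_t85

theorem A1_c0_t86 : CovD 1 gA1 [(261134745600, 13744209920), (82464210944, 82464210944), (8246337208320, 2748779069440)] :=
  covD_split 1 (by decide +kernel) A1_c0_t87 A1_c0_t88

theorem A1_c0_t82 : CovD 1 gA1 [(247390535680, 27488419840), (82464210944, 82464210944), (8246337208320, 2748779069440)] :=
  covD_split 0 (by decide +kernel) A1_c0_t83 A1_c0_t86

theorem A1_c0 : CovD 1 gA1 [(247390535680, 27488419840), (82464210944, 82464210944), (5497558138880, 5497558138880)] :=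
  covD_split 2 (by decide +kernel) A1_c0_t1 A1_c0_t82

end Pool.Agent.helper14.NR.E4a
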