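import Pool.Agent.helper14.NR.E4a.PN1

/-!
Generated: certificates.
-/

namespace Pool.Agent.helper14.NR.E4a

open Pool.Agent.helper31.IA (Z)
open Pool.Agent.helper31.IX (Op XOps runX Cov CovD cov_split covD_split)
open Pool.Agent.helper31.IC (TD)
open Pool.Agent.helper63.RG (reloc)
open Pool.Agent.helper63.NF hiding TD
open Pool.Agent.helper14.CF (xE covD_E)
open Pool.Agent.helper14.NR (share)

mutual
theorem B1_c0_t3 : CovD 1 gB1 [(247390535680, 27488419840), (20616052736, 20616052736), (27487895552, 27487895552)] :=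
  covD_E kB1_eq (.n 2 (.n 2 (.n 1 (.l 1) (.l 1)) (.n 2 (.l 1) (.l 1))) (.n 1 (.n 2 (.l 1) (.l 1)) (.n 0 (.n 2 (.l 0) (.l 0)) (.n 2 (.l 0) (.l 0)))))
    [(247390535680, 27488419840), (20616052736, 20616052736), (27487895552, 27487895552)] rfl (by decide +kernel)
theorem B1_c0_t4 : CovD 1 gB1 [(247390535680, 27488419840), (20616052736, 20616052736), (82463686656, 27487895552)] :=
  covD_E kB1_eq (.n 0 (.n 2 (.n 2 (.l 1) (.l 0)) (.n 2 (.l 0) (.l 0))) (.n 2 (.n 2 (.n 0 (.l 0) (.l 0)) (.l 0)) (.n 2 (.l 0) (.l 0))))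
    [(247390535680, 27488419840), (20616052736, 20616052736), (82463686656, 27487895552)] rfl (by decide +kernel)
end

mutual
theorem B1_c0_t6 : CovD 1 gB1 [(233646325760, 13744209920), (61848158208, 20616052736), (54975791104, 54975791104)] :=
  covD_E kB1_eq (.n 2 (.n 2 (.n 2 (.n 1 (.l 0) (.l 0)) (.n 2 (.l 0) (.l 0))) (.n 1 (.n 2 (.l 0) (.l 0)) (.n 2 (.l 0) (.l 0)))) (.n 2 (.n 0 (.n 2 (.l 0) (.l 0)) (.n 2 (.l 0) (.l 0))) (.n 2 (.l 1) (.l 1))))
    [(233646325760, 13744209920), (61848158208, 20616052736), (54975791104, 54975791104)] rfl (by decide +kernel)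
theorem B1_c0_t7 : CovD 1 gB1 [(261134745600, 13744209920), (61848158208, 20616052736), (54975791104, 54975791104)] :=
  covD_E kB1_eq (.n 2 (.n 1 (.n 2 (.n 2 (.l 0) (.l 0)) (.n 2 (.l 0) (.l 0))) (.n 2 (.n 2 (.l 0) (.l 0)) (.n 2 (.l 0) (.l 0)))) (.n 2 (.n 0 (.n 2 (.l 0) (.l 0)) (.n 2 (.l 0) (.l 0))) (.n 2 (.l 0) (.l 0))))
    [(261134745600, 13744209920), (61848158208, 20616052736), (54975791104, 54975791104)] rfl (by decide +kernel)
end

mutual
theorem B1_c0_t11 : CovD 1 gB1 [(247390535680, 27488419840), (92772237312, 10308026368), (27487895552, 27487895552)] :=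
  covD_E kB1_eq (.n 2 (.n 2 (.n 2 (.l 1) (.n 0 (.l 0) (.l 0))) (.n 2 (.n 0 (.l 0) (.l 0)) (.l 1))) (.n 0 (.n 2 (.n 0 (.l 0) (.l 0)) (.l 0)) (.n 2 (.n 0 (.l 0) (.l 0)) (.l 0))))
    [(247390535680, 27488419840), (92772237312, 10308026368), (27487895552, 27487895552)] rfl (by decide +kernel)
theorem B1_c0_t12 : CovD 1 gB1 [(247390535680, 27488419840), (113388290048, 10308026368), (27487895552, 27487895552)] :=
  covD_E kB1_eq (.n 0 (.n 2 (.n 2 (.n 2 (.l 0) (.l 0)) (.n 2 (.l 0) (.l 0))) (.n 2 (.n 1 (.l 0) (.l 0)) (.l 0))) (.n 2 (.n 2 (.n 2 (.l 0) (.l 0)) (.n 2 (.l 0) (.l 0))) (.n 2 (.n 2 (.l 0) (.l 0)) (.n 0 (.l 0) (.l 0)))))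
    [(247390535680, 27488419840), (113388290048, 10308026368), (27487895552, 27487895552)] rfl (by decide +kernel)
end

mutual
theorem B1_c0_t13 : CovD 1 gB1 [(247390535680, 27488419840), (103080263680, 20616052736), (82463686656, 27487895552)] :=
  covD_E kB1_eq (.n 0 (.n 2 (.n 1 (.n 2 (.l 0) (.l 0)) (.n 2 (.l 0) (.l 1))) (.n 2 (.n 0 (.l 1) (.l 0)) (.l 1))) (.n 2 (.n 1 (.n 2 (.l 0) (.l 0)) (.n 2 (.l 0) (.l 0))) (.n 2 (.n 0 (.l 0) (.l 0)) (.l 0))))
    [(247390535680, 27488419840), (103080263680, 20616052736), (82463686656, 27487895552)] rfl (by decide +kernel)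
theorem B1_c0_t17 : CovD 1 gB1 [(233646325760, 13744209920), (134004342784, 10308026368), (27487895552, 27487895552)] :=
  covD_E kB1_eq (.n 2 (.n 2 (.n 2 (.l 0) (.n 0 (.l 0) (.l 0))) (.n 2 (.l 0) (.l 0))) (.n 2 (.n 2 (.l 0) (.l 0)) (.n 0 (.l 0) (.l 0))))
    [(233646325760, 13744209920), (134004342784, 10308026368), (27487895552, 27487895552)] rfl (by decide +kernel)
end

mutual
theorem B1_c0_t18 : CovD 1 gB1 [(233646325760, 13744209920), (154620395520, 10308026368), (27487895552, 27487895552)] :=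
  covD_E kB1_eq (.n 2 (.n 1 (.n 2 (.n 2 (.l 0) (.l 0)) (.n 2 (.l 0) (.l 0))) (.n 2 (.n 2 (.l 0) (.l 0)) (.n 2 (.l 0) (.l 0)))) (.n 2 (.n 2 (.l 0) (.l 0)) (.n 2 (.l 0) (.l 0))))
    [(233646325760, 13744209920), (154620395520, 10308026368), (27487895552, 27487895552)] rfl (by decide +kernel)
theorem B1_c0_t19 : CovD 1 gB1 [(233646325760, 13744209920), (144312369152, 20616052736), (82463686656, 27487895552)] :=
  covD_E kB1_eq (.n 2 (.n 0 (.n 2 (.n 1 (.l 0) (.l 1)) (.l 1)) (.n 2 (.n 1 (.l 0) (.l 0)) (.l 0))) (.n 2 (.n 0 (.l 1) (.l 0)) (.l 1)))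
    [(233646325760, 13744209920), (144312369152, 20616052736), (82463686656, 27487895552)] rfl (by decide +kernel)
end

mutual
theorem B1_c0_t22 : CovD 1 gB1 [(261134745600, 13744209920), (134004342784, 10308026368), (27487895552, 27487895552)] :=
  covD_E kB1_eq (.n 2 (.n 0 (.n 2 (.n 2 (.l 0) (.l 0)) (.n 2 (.l 0) (.l 0))) (.n 2 (.n 2 (.l 0) (.l 0)) (.n 2 (.l 0) (.l 0)))) (.n 2 (.n 2 (.n 0 (.l 0) (.l 0)) (.l 0)) (.n 1 (.l 0) (.l 0))))
    [(261134745600, 13744209920), (134004342784, 10308026368), (27487895552, 27487895552)] rfl (by decide +kernel)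
theorem B1_c0_t23 : CovD 1 gB1 [(261134745600, 13744209920), (154620395520, 10308026368), (27487895552, 27487895552)] :=
  covD_E kB1_eq (.n 2 (.n 1 (.n 2 (.n 2 (.l 0) (.l 0)) (.n 2 (.l 0) (.l 0))) (.n 2 (.n 0 (.n 2 (.l 0) (.l 0)) (.n 2 (.l 0) (.l 0))) (.n 2 (.n 0 (.l 0) (.l 0)) (.l 0)))) (.n 2 (.n 2 (.n 0 (.l 0) (.l 0)) (.l 0)) (.n 2 (.l 0) (.l 0))))
    [(261134745600, 13744209920), (154620395520, 10308026368), (27487895552, 27487895552)] rfl (by decide +kernel)
end

mutual
theorem B1_c0_t24 : CovD 1 gB1 [(261134745600, 13744209920), (144312369152, 20616052736), (82463686656, 27487895552)] :=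
  covD_E kB1_eq (.n 2 (.n 1 (.n 2 (.n 0 (.l 0) (.l 0)) (.l 0)) (.n 2 (.n 0 (.l 0) (.l 0)) (.l 0))) (.n 2 (.n 0 (.l 0) (.l 1)) (.l 1)))
    [(261134745600, 13744209920), (144312369152, 20616052736), (82463686656, 27487895552)] rfl (by decide +kernel)
theorem C1_c0_t4 : CovD 1 gC1 [(247390535680, 27488419840), (10308026368, 10308026368), (274877906944, 274877906944)] :=
  covD_E kC1_eq (.n 0 (.n 2 (.n 2 (.l 0) (.l 0)) (.n 2 (.l 0) (.l 0))) (.n 2 (.n 2 (.l 0) (.n 0 (.l 0) (.l 0))) (.n 0 (.n 2 (.l 0) (.l 0)) (.n 2 (.l 0) (.l 0)))))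
    [(247390535680, 27488419840), (10308026368, 10308026368), (274877906944, 274877906944)] rfl (by decide +kernel)
end

mutual
theorem C1_c0_t8 : CovD 1 gC1 [(233646325760, 13744209920), (5154013184, 5154013184), (687194767360, 137438953472)] :=
  covD_E kC1_eq (.n 2 (.l 0) (.l 0))
    [(233646325760, 13744209920), (5154013184, 5154013184), (687194767360, 137438953472)] rfl (by decide +kernel)
theorem C1_c0_t10 : CovD 1 gC1 [(233646325760, 13744209920), (5154013184, 5154013184), (893353197568, 68719476736)] :=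
  covD_E kC1_eq (.l 0)
    [(233646325760, 13744209920), (5154013184, 5154013184), (893353197568, 68719476736)] rfl (by decide +kernel)
end

mutual
theorem C1_c0_t15 : CovD 1 gC1 [(233646325760, 13744209920), (644251648, 644251648), (996432412672, 34359738368)] :=
  covD_E kC1_eq (.l 0)
    [(233646325760, 13744209920), (644251648, 644251648), (996432412672, 34359738368)] rfl (by decide +kernel)
theorem C1_c0_t18 : CovD 1 gC1 [(233646325760, 13744209920), (322125824, 322125824), (1047972020224, 17179869184)] :=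
  covD_E kC1_eq (.l 0)
    [(233646325760, 13744209920), (322125824, 322125824), (1047972020224, 17179869184)] rfl (by decide +kernel)
end

mutual
theorem C1_c0_t21 : CovD 1 gC1 [(233646325760, 13744209920), (161062912, 161062912), (1073741824000, 8589934592)] :=
  covD_E kC1_eq (.l 0)
    [(233646325760, 13744209920), (161062912, 161062912), (1073741824000, 8589934592)] rfl (by decide +kernel)
theorem C1_c0_t24 : CovD 1 gC1 [(233646325760, 13744209920), (40265728, 40265728), (1090921693184, 8589934592)] :=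
  covD_E kC1_eq (.n 1 (.n 2 (.l 0) (.n 2 (.l 0) (.n 2 (.l 0) (.n 2 (.l 0) (.n 0 (.n 2 (.l 0) (.n 0 (.n 0 (.n 0 (.l 1) (.l 1)) (.l 1)) (.n 0 (.l 1) (.l 1)))) (.n 0 (.n 0 (.l 1) (.l 1)) (.n 0 (.l 1) (.l 1)))))))) (.n 0 (.l 0) (.l 0)))
    [(233646325760, 13744209920), (40265728, 40265728), (1090921693184, 8589934592)] rfl (by decide +kernel)
end

mutual
theorem C1_c0_t25 : CovD 1 gC1 [(233646325760, 13744209920), (120797184, 40265728), (1090921693184, 8589934592)] :=
  covD_E kC1_eq (.l 0)
    [(233646325760, 13744209920), (120797184, 40265728), (1090921693184, 8589934592)] rfl (by decide +kernel)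
theorem C1_c0_t26 : CovD 1 gC1 [(233646325760, 13744209920), (241594368, 80531456), (1090921693184, 8589934592)] :=
  covD_E kC1_eq (.l 0)
    [(233646325760, 13744209920), (241594368, 80531456), (1090921693184, 8589934592)] rfl (by decide +kernel)
end

mutual
theorem C1_c0_t27 : CovD 1 gC1 [(233646325760, 13744209920), (483188736, 161062912), (1082331758592, 17179869184)] :=
  covD_E kC1_eq (.l 0)
    [(233646325760, 13744209920), (483188736, 161062912), (1082331758592, 17179869184)] rfl (by decide +kernel)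
theorem C1_c0_t28 : CovD 1 gC1 [(233646325760, 13744209920), (966377472, 322125824), (1065151889408, 34359738368)] :=
  covD_E kC1_eq (.l 0)
    [(233646325760, 13744209920), (966377472, 322125824), (1065151889408, 34359738368)] rfl (by decide +kernel)
end

mutual
theorem C1_c0_t29 : CovD 1 gC1 [(233646325760, 13744209920), (1932754944, 644251648), (1030792151040, 68719476736)] :=
  covD_E kC1_eq (.l 0)
    [(233646325760, 13744209920), (1932754944, 644251648), (1030792151040, 68719476736)] rfl (by decide +kernel)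
theorem C1_c0_t30 : CovD 1 gC1 [(233646325760, 13744209920), (3865509888, 1288503296), (1030792151040, 68719476736)] :=
  covD_E kC1_eq (.l 0)
    [(233646325760, 13744209920), (3865509888, 1288503296), (1030792151040, 68719476736)] rfl (by decide +kernel)
end

mutual
theorem C1_c0_t31 : CovD 1 gC1 [(233646325760, 13744209920), (7731019776, 2577006592), (1030792151040, 68719476736)] :=
  covD_E kC1_eq (.l 0)
    [(233646325760, 13744209920), (7731019776, 2577006592), (1030792151040, 68719476736)] rfl (by decide +kernel)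
theorem C1_c0_t33 : CovD 1 gC1 [(261134745600, 13744209920), (5154013184, 5154013184), (687194767360, 137438953472)] :=
  covD_E kC1_eq (.n 2 (.l 0) (.l 0))
    [(261134745600, 13744209920), (5154013184, 5154013184), (687194767360, 137438953472)] rfl (by decide +kernel)
end

mutual
theorem C1_c0_t36 : CovD 1 gC1 [(261134745600, 13744209920), (2577006592, 2577006592), (893353197568, 68719476736)] :=
  covD_E kC1_eq (.l 0)
    [(261134745600, 13744209920), (2577006592, 2577006592), (893353197568, 68719476736)] rfl (by decide +kernel)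
theorem C1_c0_t40 : CovD 1 gC1 [(261134745600, 13744209920), (644251648, 644251648), (996432412672, 34359738368)] :=
  covD_E kC1_eq (.l 0)
    [(261134745600, 13744209920), (644251648, 644251648), (996432412672, 34359738368)] rfl (by decide +kernel)
end

mutual
theorem C1_c0_t42 : CovD 1 gC1 [(261134745600, 13744209920), (322125824, 322125824), (1065151889408, 34359738368)] :=
  covD_E kC1_eq (.n 1 (.n 2 (.l 0) (.n 1 (.n 2 (.l 0) (.n 2 (.l 0) (.n 2 (.l 0) (.n 2 (.l 0) (.n 0 (.n 0 (.n 0 (.l 1) (.l 1)) (.n 0 (.l 1) (.l 1))) (.n 0 (.n 0 (.l 1) (.l 1)) (.n 0 (.l 1) (.l 1)))))))) (.l 0))) (.n 0 (.l 0) (.l 0)))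
    [(261134745600, 13744209920), (322125824, 322125824), (1065151889408, 34359738368)] rfl (by decide +kernel)
theorem C1_c0_t43 : CovD 1 gC1 [(261134745600, 13744209920), (966377472, 322125824), (1065151889408, 34359738368)] :=
  covD_E kC1_eq (.l 0)
    [(261134745600, 13744209920), (966377472, 322125824), (1065151889408, 34359738368)] rfl (by decide +kernel)
end

mutual
theorem C1_c0_t44 : CovD 1 gC1 [(261134745600, 13744209920), (1932754944, 644251648), (1030792151040, 68719476736)] :=
  covD_E kC1_eq (.l 0)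
    [(261134745600, 13744209920), (1932754944, 644251648), (1030792151040, 68719476736)] rfl (by decide +kernel)
theorem C1_c0_t45 : CovD 1 gC1 [(261134745600, 13744209920), (3865509888, 1288503296), (1030792151040, 68719476736)] :=
  covD_E kC1_eq (.l 0)
    [(261134745600, 13744209920), (3865509888, 1288503296), (1030792151040, 68719476736)] rfl (by decide +kernel)
end

mutual
theorem C1_c0_t46 : CovD 1 gC1 [(261134745600, 13744209920), (7731019776, 2577006592), (962072674304, 137438953472)] :=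
  covD_E kC1_eq (.n 2 (.l 0) (.l 0))
    [(261134745600, 13744209920), (7731019776, 2577006592), (962072674304, 137438953472)] rfl (by decide +kernel)
theorem C1_c0_t47 : CovD 1 gC1 [(247390535680, 27488419840), (15462039552, 5154013184), (824633720832, 274877906944)] :=
  covD_E kC1_eq (.n 2 (.n 2 (.l 0) (.n 0 (.l 0) (.l 0))) (.n 0 (.n 2 (.l 0) (.l 0)) (.n 2 (.l 0) (.l 0))))
    [(247390535680, 27488419840), (15462039552, 5154013184), (824633720832, 274877906944)] rfl (by decide +kernel)
end

mutual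
theorem C1_c0_t48 : CovD 1 gC1 [(247390535680, 27488419840), (30924079104, 10308026368), (549755813888, 549755813888)] :=
  covD_E kC1_eq (.n 2 (.n 2 (.n 2 (.l 0) (.l 0)) (.n 2 (.l 0) (.l 0))) (.n 0 (.n 1 (.n 2 (.l 0) (.n 0 (.l 0) (.l 0))) (.n 2 (.l 0) (.l 0))) (.n 2 (.n 2 (.l 0) (.l 0)) (.n 1 (.n 2 (.l 0) (.l 0)) (.n 0 (.l 0) (.l 0))))))
    [(247390535680, 27488419840), (30924079104, 10308026368), (549755813888, 549755813888)] rfl (by decide +kernel)
theorem C1_c0_t49 : CovD 1 gC1 [(247390535680, 27488419840), (61848158208, 20616052736), (549755813888, 549755813888)] :=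
  covD_E kC1_eq (.n 2 (.n 2 (.n 0 (.l 0) (.l 0)) (.n 2 (.l 0) (.l 0))) (.n 1 (.n 2 (.n 0 (.l 0) (.l 0)) (.n 2 (.l 0) (.n 0 (.l 0) (.l 0)))) (.n 0 (.n 2 (.l 0) (.l 0)) (.n 2 (.l 0) (.l 0)))))
    [(247390535680, 27488419840), (61848158208, 20616052736), (549755813888, 549755813888)] rfl (by decide +kernel)
end

mutual
theorem C1_c0_t50 : CovD 1 gC1 [(247390535680, 27488419840), (123696316416, 41232105472), (549755813888, 549755813888)] :=
  covD_E kC1_eq (.n 0 (.n 2 (.n 2 (.l 0) (.l 0)) (.n 1 (.n 2 (.l 0) (.l 0)) (.n 2 (.l 0) (.l 0)))) (.n 2 (.n 2 (.l 0) (.l 0)) (.n 1 (.n 2 (.l 0) (.l 0)) (.n 2 (.l 0) (.l 0)))))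
    [(247390535680, 27488419840), (123696316416, 41232105472), (549755813888, 549755813888)] rfl (by decide +kernel)
theorem D1_c0 : CovD 1 gD1 [(247390535680, 27488419840), (82464210944, 82464210944), (863554764800, 863554764800)] :=
  covD_E kD1_eq (.n 0 (.n 2 (.n 2 (.l 0) (.n 0 (.l 0) (.l 0))) (.n 1 (.n 2 (.l 0) (.l 0)) (.n 2 (.l 0) (.l 0)))) (.n 1 (.n 2 (.n 2 (.l 0) (.l 0)) (.n 2 (.l 0) (.l 0))) (.n 2 (.n 2 (.l 0) (.l 0)) (.n 2 (.l 0) (.l 0)))))
    [(247390535680, 27488419840), (82464210944, 82464210944), (863554764800, 863554764800)] rfl (by decide +kernel)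
end

mutual
theorem E1_c0_t3 : CovD 1 gE1 [(233646325760, 13744209920), (41232105472, 41232105472), (431777382400, 431777382400)] :=
  covD_E kE1_eq (.n 2 (.n 2 (.n 1 (.l 1) (.l 1)) (.n 0 (.n 2 (.n 1 (.l 1) (.n 0 (.l 1) (.l 1))) (.l 0)) (.l 0))) (.n 2 (.l 0) (.l 0)))
    [(233646325760, 13744209920), (41232105472, 41232105472), (431777382400, 431777382400)] rfl (by decide +kernel)
theorem E1_c0_t6 : CovD 1 gE1 [(233646325760, 13744209920), (123696316416, 41232105472), (107944345600, 107944345600)] :=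
  covD_E kE1_eq (.n 1 (.n 1 (.l 1) (.l 1)) (.n 1 (.n 0 (.l 1) (.l 1)) (.n 1 (.l 1) (.l 1))))
    [(233646325760, 13744209920), (123696316416, 41232105472), (107944345600, 107944345600)] rfl (by decide +kernel)
end

mutual
theorem E1_c0_t7 : CovD 1 gE1 [(233646325760, 13744209920), (123696316416, 41232105472), (323833036800, 107944345600)] :=
  covD_E kE1_eq (.n 0 (.n 2 (.n 1 (.n 1 (.l 1) (.n 1 (.l 1) (.l 1))) (.n 0 (.n 2 (.n 1 (.n 1 (.l 1) (.l 1)) (.n 1 (.l 1) (.n 1 (.l 1) (.l 1)))) (.l 0)) (.l 0))) (.l 0)) (.l 0))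
    [(233646325760, 13744209920), (123696316416, 41232105472), (323833036800, 107944345600)] rfl (by decide +kernel)
theorem E1_c0_t8 : CovD 1 gE1 [(233646325760, 13744209920), (123696316416, 41232105472), (647666073600, 215888691200)] :=
  covD_E kE1_eq (.n 2 (.l 0) (.l 0))
    [(233646325760, 13744209920), (123696316416, 41232105472), (647666073600, 215888691200)] rfl (by decide +kernel)
end

mutual
theorem E1_c0_t9 : CovD 1 gE1 [(261134745600, 13744209920), (82464210944, 82464210944), (431777382400, 431777382400)] :=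
  covD_E kE1_eq (.n 1 (.n 2 (.n 2 (.n 1 (.l 1) (.l 1)) (.l 0)) (.n 2 (.l 0) (.l 0))) (.n 2 (.n 2 (.n 0 (.n 2 (.n 1 (.l 1) (.n 1 (.l 1) (.l 1))) (.l 0)) (.l 0)) (.l 0)) (.n 2 (.l 0) (.l 0))))
    [(261134745600, 13744209920), (82464210944, 82464210944), (431777382400, 431777382400)] rfl (by decide +kernel)
theorem E1_c0_t10 : CovD 1 gE1 [(247390535680, 27488419840), (82464210944, 82464210944), (1295332147200, 431777382400)] :=
  covD_E kE1_eq (.n 0 (.n 2 (.n 2 (.n 0 (.l 0) (.l 0)) (.l 0)) (.n 2 (.l 0) (.l 0))) (.n 1 (.n 2 (.n 0 (.l 0) (.l 0)) (.l 0)) (.n 0 (.n 2 (.l 0) (.l 0)) (.n 2 (.l 0) (.l 0)))))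
    [(247390535680, 27488419840), (82464210944, 82464210944), (1295332147200, 431777382400)] rfl (by decide +kernel)
end

theorem B1_c0_t2 : CovD 1 gB1 [(247390535680, 27488419840), (20616052736, 20616052736), (54975791104, 54975791104)] :=
  covD_split 2 (by decide +kernel) B1_c0_t3 B1_c0_t4

theorem B1_c0_t5 : CovD 1 gB1 [(247390535680, 27488419840), (61848158208, 20616052736), (54975791104, 54975791104)] :=
  covD_split 0 (by decide +kernel) B1_c0_t6 B1_c0_t7

theorem B1_c0_t1 : CovD 1 gB1 [(247390535680, 27488419840), (41232105472, 41232105472), (54975791104, 54975791104)] :=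
  covD_split 1 (by decide +kernel) B1_c0_t2 B1_c0_t5

theorem B1_c0_t10 : CovD 1 gB1 [(247390535680, 27488419840), (103080263680, 20616052736), (27487895552, 27487895552)] :=
  covD_split 1 (by decide +kernel) B1_c0_t11 B1_c0_t12

theorem B1_c0_t9 : CovD 1 gB1 [(247390535680, 27488419840), (103080263680, 20616052736), (54975791104, 54975791104)] :=
  covD_split 2 (by decide +kernel) B1_c0_t10 B1_c0_t13

theorem B1_c0_t16 : CovD 1 gB1 [(233646325760, 13744209920), (144312369152, 20616052736), (27487895552, 27487895552)] :=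
  covD_split 1 (by decide +kernel) B1_c0_t17 B1_c0_t18

theorem B1_c0_t15 : CovD 1 gB1 [(233646325760, 13744209920), (144312369152, 20616052736), (54975791104, 54975791104)] :=
  covD_split 2 (by decide +kernel) B1_c0_t16 B1_c0_t19

theorem B1_c0_t21 : CovD 1 gB1 [(261134745600, 13744209920), (144312369152, 20616052736), (27487895552, 27487895552)] :=
  covD_split 1 (by decide +kernel) B1_c0_t22 B1_c0_t23

theorem B1_c0_t20 : CovD 1 gB1 [(261134745600, 13744209920), (144312369152, 20616052736), (54975791104, 54975791104)] :=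
  covD_split 2 (by decide +kernel) B1_c0_t21 B1_c0_t24

theorem B1_c0_t14 : CovD 1 gB1 [(247390535680, 27488419840), (144312369152, 20616052736), (54975791104, 54975791104)] :=
  covD_split 0 (by decide +kernel) B1_c0_t15 B1_c0_t20

theorem B1_c0_t8 : CovD 1 gB1 [(247390535680, 27488419840), (123696316416, 41232105472), (54975791104, 54975791104)] :=
  covD_split 1 (by decide +kernel) B1_c0_t9 B1_c0_t14

theorem B1_c0 : CovD 1 gB1 [(247390535680, 27488419840), (82464210944, 82464210944), (54975791104, 54975791104)] :=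
  covD_split 1 (by decide +kernel) B1_c0_t1 B1_c0_t8

theorem C1_c0_t23 : CovD 1 gC1 [(233646325760, 13744209920), (80531456, 80531456), (1090921693184, 8589934592)] :=
  covD_split 1 (by decide +kernel) C1_c0_t24 C1_c0_t25

theorem C1_c0_t22 : CovD 1 gC1 [(233646325760, 13744209920), (161062912, 161062912), (1090921693184, 8589934592)] :=
  covD_split 1 (by decide +kernel) C1_c0_t23 C1_c0_t26

theorem C1_c0_t20 : CovD 1 gC1 [(233646325760, 13744209920), (161062912, 161062912), (1082331758592, 17179869184)] :=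
  covD_split 2 (by decide +kernel) C1_c0_t21 C1_c0_t22

theorem C1_c0_t19 : CovD 1 gC1 [(233646325760, 13744209920), (322125824, 322125824), (1082331758592, 17179869184)] :=
  covD_split 1 (by decide +kernel) C1_c0_t20 C1_c0_t27

theorem C1_c0_t17 : CovD 1 gC1 [(233646325760, 13744209920), (322125824, 322125824), (1065151889408, 34359738368)] :=
  covD_split 2 (by decide +kernel) C1_c0_t18 C1_c0_t19

theorem C1_c0_t16 : CovD 1 gC1 [(233646325760, 13744209920), (644251648, 644251648), (1065151889408, 34359738368)] :=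
  covD_split 1 (by decide +kernel) C1_c0_t17 C1_c0_t28

theorem C1_c0_t14 : CovD 1 gC1 [(233646325760, 13744209920), (644251648, 644251648), (1030792151040, 68719476736)] :=
  covD_split 2 (by decide +kernel) C1_c0_t15 C1_c0_t16

theorem C1_c0_t13 : CovD 1 gC1 [(233646325760, 13744209920), (1288503296, 1288503296), (1030792151040, 68719476736)] :=
  covD_split 1 (by decide +kernel) C1_c0_t14 C1_c0_t29

theorem C1_c0_t12 : CovD 1 gC1 [(233646325760, 13744209920), (2577006592, 2577006592), (1030792151040, 68719476736)] :=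
  covD_split 1 (by decide +kernel) C1_c0_t13 C1_c0_t30

theorem C1_c0_t11 : CovD 1 gC1 [(233646325760, 13744209920), (5154013184, 5154013184), (1030792151040, 68719476736)] :=
  covD_split 1 (by decide +kernel) C1_c0_t12 C1_c0_t31

theorem C1_c0_t9 : CovD 1 gC1 [(233646325760, 13744209920), (5154013184, 5154013184), (962072674304, 137438953472)] :=
  covD_split 2 (by decide +kernel) C1_c0_t10 C1_c0_t11

theorem C1_c0_t7 : CovD 1 gC1 [(233646325760, 13744209920), (5154013184, 5154013184), (824633720832, 274877906944)] :=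
  covD_split 2 (by decide +kernel) C1_c0_t8 C1_c0_t9

theorem C1_c0_t41 : CovD 1 gC1 [(261134745600, 13744209920), (644251648, 644251648), (1065151889408, 34359738368)] :=
  covD_split 1 (by decide +kernel) C1_c0_t42 C1_c0_t43

theorem C1_c0_t39 : CovD 1 gC1 [(261134745600, 13744209920), (644251648, 644251648), (1030792151040, 68719476736)] :=
  covD_split 2 (by decide +kernel) C1_c0_t40 C1_c0_t41

theorem C1_c0_t38 : CovD 1 gC1 [(261134745600, 13744209920), (1288503296, 1288503296), (1030792151040, 68719476736)] :=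
  covD_split 1 (by decide +kernel) C1_c0_t39 C1_c0_t44

theorem C1_c0_t37 : CovD 1 gC1 [(261134745600, 13744209920), (2577006592, 2577006592), (1030792151040, 68719476736)] :=
  covD_split 1 (by decide +kernel) C1_c0_t38 C1_c0_t45

theorem C1_c0_t35 : CovD 1 gC1 [(261134745600, 13744209920), (2577006592, 2577006592), (962072674304, 137438953472)] :=
  covD_split 2 (by decide +kernel) C1_c0_t36 C1_c0_t37

theorem C1_c0_t34 : CovD 1 gC1 [(261134745600, 13744209920), (5154013184, 5154013184), (962072674304, 137438953472)] :=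
  covD_split 1 (by decide +kernel) C1_c0_t35 C1_c0_t46

theorem C1_c0_t32 : CovD 1 gC1 [(261134745600, 13744209920), (5154013184, 5154013184), (824633720832, 274877906944)] :=
  covD_split 2 (by decide +kernel) C1_c0_t33 C1_c0_t34

theorem C1_c0_t6 : CovD 1 gC1 [(247390535680, 27488419840), (5154013184, 5154013184), (824633720832, 274877906944)] :=
  covD_split 0 (by decide +kernel) C1_c0_t7 C1_c0_t32

theorem C1_c0_t5 : CovD 1 gC1 [(247390535680, 27488419840), (10308026368, 10308026368), (824633720832, 274877906944)] :=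
  covD_split 1 (by decide +kernel) C1_c0_t6 C1_c0_t47

theorem C1_c0_t3 : CovD 1 gC1 [(247390535680, 27488419840), (10308026368, 10308026368), (549755813888, 549755813888)] :=
  covD_split 2 (by decide +kernel) C1_c0_t4 C1_c0_t5

theorem C1_c0_t2 : CovD 1 gC1 [(247390535680, 27488419840), (20616052736, 20616052736), (549755813888, 549755813888)] :=
  covD_split 1 (by decide +kernel) C1_c0_t3 C1_c0_t48

theorem C1_c0_t1 : CovD 1 gC1 [(247390535680, 27488419840), (41232105472, 41232105472), (549755813888, 549755813888)] :=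
  covD_split 1 (by decide +kernel) C1_c0_t2 C1_c0_t49

theorem C1_c0 : CovD 1 gC1 [(247390535680, 27488419840), (82464210944, 82464210944), (549755813888, 549755813888)] :=
  covD_split 1 (by decide +kernel) C1_c0_t1 C1_c0_t50

theorem E1_c0_t5 : CovD 1 gE1 [(233646325760, 13744209920), (123696316416, 41232105472), (215888691200, 215888691200)] :=
  covD_split 2 (by decide +kernel) E1_c0_t6 E1_c0_t7

theorem E1_c0_t4 : CovD 1 gE1 [(233646325760, 13744209920), (123696316416, 41232105472), (431777382400, 431777382400)] :=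
  covD_split 2 (by decide +kernel) E1_c0_t5 E1_c0_t8

theorem E1_c0_t2 : CovD 1 gE1 [(233646325760, 13744209920), (82464210944, 82464210944), (431777382400, 431777382400)] :=
  covD_split 1 (by decide +kernel) E1_c0_t3 E1_c0_t4

theorem E1_c0_t1 : CovD 1 gE1 [(247390535680, 27488419840), (82464210944, 82464210944), (431777382400, 431777382400)] :=
  covD_split 0 (by decide +kernel) E1_c0_t2 E1_c0_t9

theorem E1_c0 : CovD 1 gE1 [(247390535680, 27488419840), (82464210944, 82464210944), (863554764800, 863554764800)] :=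
  covD_split 2 (by decide +kernel) E1_c0_t1 E1_c0_t10

end Pool.Agent.helper14.NR.E4a
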