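import Pool.Agent.helper14.NR.E4a.PN7

/-!
Generated: certificates.
-/

namespace Pool.Agent.helper14.NR.E4a

open Pool.Agent.helper31.IA (Z)
open Pool.Agent.helper31.IX (Op XOps runX Cov CovD cov_split covD_split)
open Pool.Agent.helper31.IC (TD)
open Pool.Agent.helper63.RG (reloc)
open Pool.Agent.helper63.NF hiding TD
open Pool.Agent.helper14.CF (xE covD_E)
open Pool.Agent.helper14.NR (share)

mutual
theorem B7_c0_t1 : CovD 1 gB7 [(233646325760, 13744209920), (82464210944, 82464210944), (54975791104, 54975791104)] :=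
  covD_E kB7_eq (.n 0 (.n 1 (.l 1) (.n 2 (.l 1) (.l 1))) (.n 1 (.n 2 (.l 1) (.n 1 (.l 1) (.l 1))) (.n 0 (.n 2 (.n 1 (.l 1) (.l 1)) (.n 2 (.l 1) (.l 1))) (.n 2 (.l 0) (.l 0)))))
    [(233646325760, 13744209920), (82464210944, 82464210944), (54975791104, 54975791104)] rfl (by decide +kernel)
theorem B7_c0_t2 : CovD 1 gB7 [(261134745600, 13744209920), (82464210944, 82464210944), (54975791104, 54975791104)] :=
  covD_E kB7_eq (.n 1 (.n 0 (.n 2 (.l 0) (.l 0)) (.n 0 (.l 0) (.l 0))) (.n 1 (.l 0) (.l 0)))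
    [(261134745600, 13744209920), (82464210944, 82464210944), (54975791104, 54975791104)] rfl (by decide +kernel)
end

mutual
theorem C7_c0_t5 : CovD 1 gC7 [(233646325760, 13744209920), (5154013184, 5154013184), (549755813888, 549755813888)] :=
  covD_E kC7_eq (.n 2 (.n 2 (.n 2 (.l 0) (.l 0)) (.n 2 (.l 0) (.l 0))) (.n 2 (.n 2 (.l 0) (.l 0)) (.n 2 (.l 0) (.n 2 (.l 0) (.n 2 (.l 0) (.n 0 (.l 1) (.l 1)))))))
    [(233646325760, 13744209920), (5154013184, 5154013184), (549755813888, 549755813888)] rfl (by decide +kernel)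
theorem C7_c0_t6 : CovD 1 gC7 [(261134745600, 13744209920), (5154013184, 5154013184), (549755813888, 549755813888)] :=
  covD_E kC7_eq (.n 2 (.n 2 (.n 2 (.l 0) (.l 0)) (.n 2 (.l 0) (.l 0))) (.n 2 (.n 2 (.l 0) (.n 0 (.l 0) (.l 0))) (.n 2 (.n 0 (.l 0) (.l 0)) (.n 2 (.l 0) (.n 2 (.l 0) (.l 1))))))
    [(261134745600, 13744209920), (5154013184, 5154013184), (549755813888, 549755813888)] rfl (by decide +kernel)
end

mutual
theorem C7_c0_t8 : CovD 1 gC7 [(247390535680, 27488419840), (15462039552, 5154013184), (274877906944, 274877906944)] :=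
  covD_E kC7_eq (.n 2 (.n 2 (.l 0) (.n 0 (.l 0) (.l 0))) (.n 0 (.n 2 (.l 0) (.l 0)) (.n 2 (.l 0) (.l 0))))
    [(247390535680, 27488419840), (15462039552, 5154013184), (274877906944, 274877906944)] rfl (by decide +kernel)
theorem C7_c0_t9 : CovD 1 gC7 [(247390535680, 27488419840), (15462039552, 5154013184), (824633720832, 274877906944)] :=
  covD_E kC7_eq (.n 0 (.n 2 (.n 2 (.l 0) (.l 0)) (.n 2 (.l 0) (.n 0 (.l 0) (.l 0)))) (.n 2 (.n 2 (.l 0) (.l 0)) (.n 1 (.n 2 (.l 0) (.l 0)) (.n 2 (.l 0) (.l 0)))))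
    [(247390535680, 27488419840), (15462039552, 5154013184), (824633720832, 274877906944)] rfl (by decide +kernel)
end

mutual
theorem C7_c0_t11 : CovD 1 gC7 [(247390535680, 27488419840), (30924079104, 10308026368), (274877906944, 274877906944)] :=
  covD_E kC7_eq (.n 2 (.n 2 (.l 0) (.n 0 (.l 0) (.l 0))) (.n 0 (.n 2 (.l 0) (.l 0)) (.n 2 (.l 0) (.l 0))))
    [(247390535680, 27488419840), (30924079104, 10308026368), (274877906944, 274877906944)] rfl (by decide +kernel)
theorem C7_c0_t12 : CovD 1 gC7 [(247390535680, 27488419840), (30924079104, 10308026368), (824633720832, 274877906944)] :=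
  covD_E kC7_eq (.n 0 (.n 2 (.n 2 (.l 0) (.l 0)) (.n 1 (.n 2 (.l 0) (.l 0)) (.n 2 (.l 0) (.l 0)))) (.n 2 (.n 2 (.l 0) (.n 0 (.l 0) (.l 0))) (.n 1 (.n 2 (.l 0) (.n 1 (.l 0) (.l 0))) (.n 2 (.l 0) (.l 0)))))
    [(247390535680, 27488419840), (30924079104, 10308026368), (824633720832, 274877906944)] rfl (by decide +kernel)
end

mutual
theorem C7_c0_t14 : CovD 1 gC7 [(247390535680, 27488419840), (61848158208, 20616052736), (274877906944, 274877906944)] :=
  covD_E kC7_eq (.n 2 (.n 2 (.l 0) (.n 0 (.l 0) (.l 0))) (.n 0 (.n 1 (.l 0) (.l 0)) (.n 2 (.l 0) (.l 0))))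
    [(247390535680, 27488419840), (61848158208, 20616052736), (274877906944, 274877906944)] rfl (by decide +kernel)
theorem C7_c0_t15 : CovD 1 gC7 [(247390535680, 27488419840), (61848158208, 20616052736), (824633720832, 274877906944)] :=
  covD_E kC7_eq (.n 0 (.n 2 (.n 2 (.l 0) (.n 0 (.l 0) (.l 0))) (.n 1 (.n 2 (.l 0) (.l 0)) (.n 2 (.l 0) (.l 0)))) (.n 2 (.n 2 (.l 0) (.n 0 (.l 0) (.l 0))) (.n 1 (.n 2 (.l 0) (.l 0)) (.n 2 (.l 0) (.l 0)))))
    [(247390535680, 27488419840), (61848158208, 20616052736), (824633720832, 274877906944)] rfl (by decide +kernel)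
end

mutual
theorem C7_c0_t18 : CovD 1 gC7 [(233646325760, 13744209920), (103080263680, 20616052736), (549755813888, 549755813888)] :=
  covD_E kC7_eq (.n 2 (.n 2 (.l 0) (.n 0 (.l 0) (.l 0))) (.n 2 (.n 2 (.l 0) (.l 0)) (.n 2 (.n 1 (.l 0) (.l 0)) (.n 0 (.l 1) (.l 1)))))
    [(233646325760, 13744209920), (103080263680, 20616052736), (549755813888, 549755813888)] rfl (by decide +kernel)
theorem C7_c0_t19 : CovD 1 gC7 [(261134745600, 13744209920), (103080263680, 20616052736), (549755813888, 549755813888)] :=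
  covD_E kC7_eq (.n 2 (.n 2 (.l 0) (.n 0 (.l 0) (.l 0))) (.n 2 (.n 2 (.l 0) (.n 0 (.l 0) (.l 0))) (.n 1 (.n 2 (.l 0) (.l 1)) (.n 2 (.n 1 (.l 0) (.l 1)) (.l 1)))))
    [(261134745600, 13744209920), (103080263680, 20616052736), (549755813888, 549755813888)] rfl (by decide +kernel)
end

mutual
theorem C7_c0_t21 : CovD 1 gC7 [(233646325760, 13744209920), (144312369152, 20616052736), (549755813888, 549755813888)] :=
  covD_E kC7_eq (.n 2 (.n 2 (.l 0) (.n 0 (.l 0) (.l 0))) (.n 2 (.n 2 (.l 0) (.n 0 (.l 0) (.n 1 (.l 0) (.l 0)))) (.n 0 (.n 0 (.l 1) (.l 1)) (.l 1))))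
    [(233646325760, 13744209920), (144312369152, 20616052736), (549755813888, 549755813888)] rfl (by decide +kernel)
theorem C7_c0_t22 : CovD 1 gC7 [(261134745600, 13744209920), (144312369152, 20616052736), (549755813888, 549755813888)] :=
  covD_E kC7_eq (.n 2 (.n 2 (.l 0) (.n 2 (.l 0) (.l 0))) (.n 0 (.n 2 (.n 2 (.l 0) (.n 1 (.l 0) (.l 1))) (.l 1)) (.n 2 (.n 2 (.l 0) (.n 1 (.l 0) (.l 1))) (.l 1))))
    [(261134745600, 13744209920), (144312369152, 20616052736), (549755813888, 549755813888)] rfl (by decide +kernel)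
end

mutual
theorem D7_c0_t2 : CovD 1 gD7 [(233646325760, 13744209920), (41232105472, 41232105472), (863554764800, 863554764800)] :=
  covD_E kD7_eq (.n 2 (.n 2 (.n 2 (.l 0) (.l 0)) (.n 2 (.l 0) (.l 0))) (.n 2 (.n 2 (.n 0 (.l 0) (.l 0)) (.n 2 (.l 0) (.l 0))) (.n 2 (.n 2 (.l 0) (.n 1 (.l 1) (.l 1))) (.n 0 (.l 1) (.l 1)))))
    [(233646325760, 13744209920), (41232105472, 41232105472), (863554764800, 863554764800)] rfl (by decide +kernel)
theorem D7_c0_t3 : CovD 1 gD7 [(233646325760, 13744209920), (123696316416, 41232105472), (863554764800, 863554764800)] :=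
  covD_E kD7_eq (.n 2 (.n 2 (.n 2 (.l 0) (.l 0)) (.n 2 (.l 0) (.l 0))) (.n 2 (.n 2 (.l 0) (.n 2 (.l 0) (.l 0))) (.n 0 (.n 2 (.n 2 (.l 0) (.l 0)) (.l 1)) (.n 2 (.l 1) (.l 1)))))
    [(233646325760, 13744209920), (123696316416, 41232105472), (863554764800, 863554764800)] rfl (by decide +kernel)
end

mutual
theorem D7_c0_t5 : CovD 1 gD7 [(261134745600, 13744209920), (41232105472, 41232105472), (863554764800, 863554764800)] :=
  covD_E kD7_eq (.n 2 (.n 2 (.n 1 (.l 0) (.l 0)) (.n 2 (.l 0) (.l 0))) (.n 2 (.n 2 (.l 0) (.n 0 (.l 0) (.l 0))) (.n 1 (.l 1) (.l 1))))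
    [(261134745600, 13744209920), (41232105472, 41232105472), (863554764800, 863554764800)] rfl (by decide +kernel)
theorem D7_c0_t6 : CovD 1 gD7 [(261134745600, 13744209920), (123696316416, 41232105472), (863554764800, 863554764800)] :=
  covD_E kD7_eq (.n 2 (.n 2 (.n 1 (.l 0) (.l 0)) (.n 2 (.l 0) (.l 0))) (.n 2 (.n 2 (.l 0) (.l 0)) (.n 0 (.l 1) (.l 1))))
    [(261134745600, 13744209920), (123696316416, 41232105472), (863554764800, 863554764800)] rfl (by decide +kernel)
end

theorem E7_c0 : CovD 1 gE7 [(247390535680, 27488419840), (82464210944, 82464210944), (863554764800, 863554764800)] :=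
  covD_E kE7_eq (.n 2 (.n 1 (.n 2 (.l 1) (.l 1)) (.n 2 (.l 1) (.l 1))) (.n 1 (.n 2 (.l 1) (.n 0 (.n 0 (.l 1) (.l 1)) (.l 1))) (.n 2 (.l 1) (.n 0 (.l 1) (.l 1)))))
    [(247390535680, 27488419840), (82464210944, 82464210944), (863554764800, 863554764800)] rfl (by decide +kernel)

theorem B7_c0 : CovD 1 gB7 [(247390535680, 27488419840), (82464210944, 82464210944), (54975791104, 54975791104)] :=
  covD_split 0 (by decide +kernel) B7_c0_t1 B7_c0_t2

theorem C7_c0_t4 : CovD 1 gC7 [(247390535680, 27488419840), (5154013184, 5154013184), (549755813888, 549755813888)] :=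
  covD_split 0 (by decide +kernel) C7_c0_t5 C7_c0_t6

theorem C7_c0_t7 : CovD 1 gC7 [(247390535680, 27488419840), (15462039552, 5154013184), (549755813888, 549755813888)] :=
  covD_split 2 (by decide +kernel) C7_c0_t8 C7_c0_t9

theorem C7_c0_t3 : CovD 1 gC7 [(247390535680, 27488419840), (10308026368, 10308026368), (549755813888, 549755813888)] :=
  covD_split 1 (by decide +kernel) C7_c0_t4 C7_c0_t7

theorem C7_c0_t10 : CovD 1 gC7 [(247390535680, 27488419840), (30924079104, 10308026368), (549755813888, 549755813888)] :=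
  covD_split 2 (by decide +kernel) C7_c0_t11 C7_c0_t12

theorem C7_c0_t2 : CovD 1 gC7 [(247390535680, 27488419840), (20616052736, 20616052736), (549755813888, 549755813888)] :=
  covD_split 1 (by decide +kernel) C7_c0_t3 C7_c0_t10

theorem C7_c0_t13 : CovD 1 gC7 [(247390535680, 27488419840), (61848158208, 20616052736), (549755813888, 549755813888)] :=
  covD_split 2 (by decide +kernel) C7_c0_t14 C7_c0_t15

theorem C7_c0_t1 : CovD 1 gC7 [(247390535680, 27488419840), (41232105472, 41232105472), (549755813888, 549755813888)] :=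
  covD_split 1 (by decide +kernel) C7_c0_t2 C7_c0_t13

theorem C7_c0_t17 : CovD 1 gC7 [(247390535680, 27488419840), (103080263680, 20616052736), (549755813888, 549755813888)] :=
  covD_split 0 (by decide +kernel) C7_c0_t18 C7_c0_t19

theorem C7_c0_t20 : CovD 1 gC7 [(247390535680, 27488419840), (144312369152, 20616052736), (549755813888, 549755813888)] :=
  covD_split 0 (by decide +kernel) C7_c0_t21 C7_c0_t22

theorem C7_c0_t16 : CovD 1 gC7 [(247390535680, 27488419840), (123696316416, 41232105472), (549755813888, 549755813888)] :=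
  covD_split 1 (by decide +kernel) C7_c0_t17 C7_c0_t20

theorem C7_c0 : CovD 1 gC7 [(247390535680, 27488419840), (82464210944, 82464210944), (549755813888, 549755813888)] :=
  covD_split 1 (by decide +kernel) C7_c0_t1 C7_c0_t16

theorem D7_c0_t1 : CovD 1 gD7 [(233646325760, 13744209920), (82464210944, 82464210944), (863554764800, 863554764800)] :=
  covD_split 1 (by decide +kernel) D7_c0_t2 D7_c0_t3

theorem D7_c0_t4 : CovD 1 gD7 [(261134745600, 13744209920), (82464210944, 82464210944), (863554764800, 863554764800)] :=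
  covD_split 1 (by decide +kernel) D7_c0_t5 D7_c0_t6

theorem D7_c0 : CovD 1 gD7 [(247390535680, 27488419840), (82464210944, 82464210944), (863554764800, 863554764800)] :=
  covD_split 0 (by decide +kernel) D7_c0_t1 D7_c0_t4

end Pool.Agent.helper14.NR.E4a
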