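import Pool.Agent.helper14.NR.E4a.PZ

/-!
Generated: certificates.
-/

namespace Pool.Agent.helper14.NR.E4a

open Pool.Agent.helper31.IA (Z)
open Pool.Agent.helper31.IX (Op XOps runX Cov CovD cov_split covD_split)
open Pool.Agent.helper31.IC (TD)
open Pool.Agent.helper63.RG (reloc)
open Pool.Agent.helper63.NF hiding TD
open Pool.Agent.helper14.CF (xE covD_E)
open Pool.Agent.helper14.NR (share)

mutual
theorem Z_c1_t3 : CovD 1 gZ [(226774220800, 6872104960), (41232105472, 41232105472), (838377406464, 261134221312)] :=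
  covD_E kZ_eq (.n 2 (.n 1 (.n 2 (.n 2 (.l 0) (.l 0)) (.n 2 (.l 0) (.l 0))) (.n 2 (.n 2 (.l 0) (.l 0)) (.n 2 (.l 0) (.l 0)))) (.n 2 (.n 0 (.n 2 (.l 0) (.l 0)) (.n 2 (.l 0) (.l 0))) (.n 2 (.n 0 (.l 0) (.l 0)) (.l 0))))
    [(226774220800, 6872104960), (41232105472, 41232105472), (838377406464, 261134221312)] rfl (by decide +kernel)
theorem Z_c1_t4 : CovD 1 gZ [(226774220800, 6872104960), (123696316416, 41232105472), (838377406464, 261134221312)] :=
  covD_E kZ_eq (.n 2 (.n 2 (.n 0 (.n 2 (.l 0) (.l 0)) (.n 2 (.l 0) (.l 0))) (.n 2 (.l 0) (.l 0))) (.n 2 (.n 2 (.l 0) (.l 0)) (.n 2 (.l 0) (.l 0))))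
    [(226774220800, 6872104960), (123696316416, 41232105472), (838377406464, 261134221312)] rfl (by decide +kernel)
end

mutual
theorem Z_c1_t7 : CovD 1 gZ [(240518430720, 6872104960), (20616052736, 20616052736), (838377406464, 261134221312)] :=
  covD_E kZ_eq (.n 2 (.n 2 (.n 2 (.n 0 (.l 0) (.l 0)) (.l 0)) (.n 2 (.l 0) (.l 0))) (.n 2 (.n 2 (.l 0) (.l 0)) (.n 2 (.l 0) (.l 0))))
    [(240518430720, 6872104960), (20616052736, 20616052736), (838377406464, 261134221312)] rfl (by decide +kernel)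
theorem Z_c1_t8 : CovD 1 gZ [(240518430720, 6872104960), (61848158208, 20616052736), (838377406464, 261134221312)] :=
  covD_E kZ_eq (.n 2 (.n 2 (.n 2 (.l 0) (.l 0)) (.n 2 (.l 0) (.l 0))) (.n 2 (.n 2 (.l 0) (.l 0)) (.n 2 (.l 0) (.l 0))))
    [(240518430720, 6872104960), (61848158208, 20616052736), (838377406464, 261134221312)] rfl (by decide +kernel)
end

mutual
theorem Z_c1_t9 : CovD 1 gZ [(240518430720, 6872104960), (123696316416, 41232105472), (838377406464, 261134221312)] :=
  covD_E kZ_eq (.n 2 (.n 2 (.n 0 (.n 2 (.l 0) (.l 0)) (.n 2 (.l 0) (.l 0))) (.n 2 (.l 0) (.l 0))) (.n 2 (.n 2 (.l 0) (.l 0)) (.n 2 (.l 0) (.l 0))))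
    [(240518430720, 6872104960), (123696316416, 41232105472), (838377406464, 261134221312)] rfl (by decide +kernel)
theorem Z_c1_t13 : CovD 1 gZ [(254262640640, 6872104960), (20616052736, 20616052736), (838377406464, 261134221312)] :=
  covD_E kZ_eq (.n 2 (.n 2 (.n 2 (.n 0 (.l 0) (.l 0)) (.l 0)) (.n 2 (.l 0) (.l 0))) (.n 2 (.n 2 (.l 0) (.l 0)) (.n 2 (.l 0) (.l 0))))
    [(254262640640, 6872104960), (20616052736, 20616052736), (838377406464, 261134221312)] rfl (by decide +kernel)
end

mutual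
theorem Z_c1_t14 : CovD 1 gZ [(254262640640, 6872104960), (61848158208, 20616052736), (838377406464, 261134221312)] :=
  covD_E kZ_eq (.n 2 (.n 2 (.n 2 (.l 0) (.l 0)) (.n 2 (.l 0) (.l 0))) (.n 2 (.n 2 (.l 0) (.l 0)) (.n 2 (.l 0) (.l 0))))
    [(254262640640, 6872104960), (61848158208, 20616052736), (838377406464, 261134221312)] rfl (by decide +kernel)
theorem Z_c1_t15 : CovD 1 gZ [(254262640640, 6872104960), (123696316416, 41232105472), (838377406464, 261134221312)] :=
  covD_E kZ_eq (.n 2 (.n 2 (.n 0 (.n 2 (.l 0) (.l 0)) (.n 2 (.l 0) (.l 0))) (.n 2 (.l 0) (.l 0))) (.n 2 (.n 2 (.l 0) (.l 0)) (.n 2 (.l 0) (.l 0))))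
    [(254262640640, 6872104960), (123696316416, 41232105472), (838377406464, 261134221312)] rfl (by decide +kernel)
end

mutual
theorem Z_c1_t18 : CovD 1 gZ [(268006850560, 6872104960), (41232105472, 41232105472), (707810295808, 130567110656)] :=
  covD_E kZ_eq (.n 2 (.n 2 (.n 2 (.l 0) (.l 0)) (.n 0 (.l 0) (.l 0))) (.n 0 (.n 2 (.l 0) (.l 0)) (.n 2 (.l 0) (.l 0))))
    [(268006850560, 6872104960), (41232105472, 41232105472), (707810295808, 130567110656)] rfl (by decide +kernel)
theorem Z_c1_t19 : CovD 1 gZ [(268006850560, 6872104960), (41232105472, 41232105472), (968944517120, 130567110656)] :=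
  covD_E kZ_eq (.n 0 (.n 2 (.n 2 (.l 0) (.l 0)) (.n 2 (.l 0) (.l 0))) (.n 2 (.n 2 (.l 0) (.l 0)) (.n 2 (.l 0) (.n 0 (.l 0) (.l 0)))))
    [(268006850560, 6872104960), (41232105472, 41232105472), (968944517120, 130567110656)] rfl (by decide +kernel)
end

mutual
theorem Z_c1_t20 : CovD 1 gZ [(268006850560, 6872104960), (123696316416, 41232105472), (838377406464, 261134221312)] :=
  covD_E kZ_eq (.n 2 (.n 2 (.n 0 (.n 2 (.l 0) (.l 0)) (.n 2 (.l 0) (.l 0))) (.n 2 (.l 0) (.l 0))) (.n 2 (.n 2 (.l 0) (.l 0)) (.n 2 (.l 0) (.n 0 (.l 0) (.n 0 (.l 0) (.n 0 (.l 0) (.l 0)))))))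
    [(268006850560, 6872104960), (123696316416, 41232105472), (838377406464, 261134221312)] rfl (by decide +kernel)
theorem T_c0 : CovD 1 gT [(247390535680, 27488419840), (82464210944, 82464210944)] :=
  covD_E kT_eq (.l 0)
    [(247390535680, 27488419840), (82464210944, 82464210944)] rfl (by decide +kernel)
end

theorem S_c0 : CovD 0 gS [(247390535680, 27488419840), (82464210944, 82464210944)] :=
  covD_E kS_eq (.n 1 (.l 0) (.l 0))
    [(247390535680, 27488419840), (82464210944, 82464210944)] rfl (by decide +kernel)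

theorem Z_c1_t2 : CovD 1 gZ [(226774220800, 6872104960), (82464210944, 82464210944), (838377406464, 261134221312)] :=
  covD_split 1 (by decide +kernel) Z_c1_t3 Z_c1_t4

theorem Z_c1_t6 : CovD 1 gZ [(240518430720, 6872104960), (41232105472, 41232105472), (838377406464, 261134221312)] :=
  covD_split 1 (by decide +kernel) Z_c1_t7 Z_c1_t8

theorem Z_c1_t5 : CovD 1 gZ [(240518430720, 6872104960), (82464210944, 82464210944), (838377406464, 261134221312)] :=
  covD_split 1 (by decide +kernel) Z_c1_t6 Z_c1_t9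

theorem Z_c1_t1 : CovD 1 gZ [(233646325760, 13744209920), (82464210944, 82464210944), (838377406464, 261134221312)] :=
  covD_split 0 (by decide +kernel) Z_c1_t2 Z_c1_t5

theorem Z_c1_t12 : CovD 1 gZ [(254262640640, 6872104960), (41232105472, 41232105472), (838377406464, 261134221312)] :=
  covD_split 1 (by decide +kernel) Z_c1_t13 Z_c1_t14

theorem Z_c1_t11 : CovD 1 gZ [(254262640640, 6872104960), (82464210944, 82464210944), (838377406464, 261134221312)] :=
  covD_split 1 (by decide +kernel) Z_c1_t12 Z_c1_t15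

theorem Z_c1_t17 : CovD 1 gZ [(268006850560, 6872104960), (41232105472, 41232105472), (838377406464, 261134221312)] :=
  covD_split 2 (by decide +kernel) Z_c1_t18 Z_c1_t19

theorem Z_c1_t16 : CovD 1 gZ [(268006850560, 6872104960), (82464210944, 82464210944), (838377406464, 261134221312)] :=
  covD_split 1 (by decide +kernel) Z_c1_t17 Z_c1_t20

theorem Z_c1_t10 : CovD 1 gZ [(261134745600, 13744209920), (82464210944, 82464210944), (838377406464, 261134221312)] :=
  covD_split 0 (by decide +kernel) Z_c1_t11 Z_c1_t16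

theorem Z_c1 : CovD 1 gZ [(247390535680, 27488419840), (82464210944, 82464210944), (838377406464, 261134221312)] :=
  covD_split 0 (by decide +kernel) Z_c1_t1 Z_c1_t10

end Pool.Agent.helper14.NR.E4a
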