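import Pool.Agent.helper14.NR.E4a.CZ_0
import Pool.Agent.helper14.NR.E4a.CZ_1
import Pool.Agent.helper14.NR.E4a.CN1_0
import Pool.Agent.helper14.NR.E4a.CN1_1
import Pool.Agent.helper14.NR.E4a.CN2_0
import Pool.Agent.helper14.NR.E4a.CN3_0
import Pool.Agent.helper14.NR.E4a.CN4_0
import Pool.Agent.helper14.NR.E4a.CN5_0
import Pool.Agent.helper14.NR.E4a.CN6_0
import Pool.Agent.helper14.NR.E4a.CN7_0
import Pool.Agent.helper14.NR.E4a.CN7_1

/-!
Generated: all certificates of the table.
-/

namespace Pool.Agent.helper14.NR.E4a

open Pool.Agent.helper31.IA (Z)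
open Pool.Agent.helper31.IX (Op XOps runX Cov CovD cov_split covD_split)
open Pool.Agent.helper31.IC (TD)
open Pool.Agent.helper63.RG (reloc)
open Pool.Agent.helper63.NF hiding TD
open Pool.Agent.helper14.CF (xE covD_E)
open Pool.Agent.helper14.NR (share)

theorem Z_a0 : CovD 1 gZ [(247390535680, 27488419840), (82464210944, 82464210944), (577243185152, 522268442624)] :=
  covD_split 2 (by decide +kernel) Z_c0 Z_c1

theorem certZ : CovD 1
    [comp (P0 tab) ρ4 4]
    [(247390535680, 27488419840), (82464210944, 82464210944), (577243185152, 522268442624)] := by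
  rw [← gZ_eq]; exact Z_a0

theorem certT : CovD 1
    [comp (PT tab) ρ3 3]
    [(247390535680, 27488419840), (82464210944, 82464210944)] := by
  rw [← gT_eq]; exact T_c0

theorem certS : CovD 0
    [PS tab 8]
    [(247390535680, 27488419840), (82464210944, 82464210944)] := by
  rw [← gS_eq]; exact S_c0

theorem certA1 : CovD 1
    [circ (chA tab 1) (P2m tab 1),
     altP (chA tab 1) (outCut tab 1),
     altP (chA tab 1) (outIn tab)]
    [(247390535680, 27488419840), (82464210944, 82464210944), (5497558138880, 5497558138880)] := by
  rw [← gA1_eq]; exact A1_c0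

theorem certB1 : CovD 1
    [circ (chB tab 1) (P2m tab 1),
     altP (chB tab 1) (outCut tab 1)]
    [(247390535680, 27488419840), (82464210944, 82464210944), (54975791104, 54975791104)] := by
  rw [← gB1_eq]; exact B1_c0

theorem certC1 : CovD 1
    [circ (chC tab) (P2m tab 1),
     altP (chC tab) (outDisc tab 1)]
    [(247390535680, 27488419840), (82464210944, 82464210944), (549755813888, 549755813888)] := by
  rw [← gC1_eq]; exact C1_c0

theorem certD1 : CovD 1
    [circ (chD tab 1) (P2m tab 1),
     altP (chD tab 1) (outDisc tab 1)]
    [(247390535680, 27488419840), (82464210944, 82464210944), (863554764800, 863554764800)] := by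
  rw [← gD1_eq]; exact D1_c0

theorem certE1 : CovD 1
    [circ (chE tab 1) (P2m tab 1),
     altP (chE tab 1) (outDisc tab 1),
     altL tab 1]
    [(247390535680, 27488419840), (82464210944, 82464210944), (863554764800, 863554764800)] := by
  rw [← gE1_eq]; exact E1_c0

theorem certA2 : CovD 1
    [circ (chA tab 2) (P2m tab 2),
     altP (chA tab 2) (outCut tab 2),
     altP (chA tab 2) (outIn tab)]
    [(247390535680, 27488419840), (82464210944, 82464210944), (5497558138880, 5497558138880)] := by
  rw [← gA2_eq]; exact A2_c0

theorem certB2 : CovD 1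
    [circ (chB tab 2) (P2m tab 2),
     altP (chB tab 2) (outCut tab 2)]
    [(247390535680, 27488419840), (82464210944, 82464210944), (54975791104, 54975791104)] := by
  rw [← gB2_eq]; exact B2_c0

theorem certC2 : CovD 1
    [circ (chC tab) (P2m tab 2),
     altP (chC tab) (outDisc tab 2)]
    [(247390535680, 27488419840), (82464210944, 82464210944), (549755813888, 549755813888)] := by
  rw [← gC2_eq]; exact C2_c0

theorem certD2 : CovD 1
    [circ (chD tab 2) (P2m tab 2),
     altP (chD tab 2) (outDisc tab 2)]
    [(247390535680, 27488419840), (82464210944, 82464210944), (863554764800, 863554764800)] := by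
  rw [← gD2_eq]; exact D2_c0

theorem certE2 : CovD 1
    [circ (chE tab 2) (P2m tab 2),
     altP (chE tab 2) (outDisc tab 2),
     altL tab 2]
    [(247390535680, 27488419840), (82464210944, 82464210944), (863554764800, 863554764800)] := by
  rw [← gE2_eq]; exact E2_c0

theorem certA3 : CovD 1
    [circ (chA tab 3) (P2m tab 3),
     altP (chA tab 3) (outCut tab 3),
     altP (chA tab 3) (outIn tab)]
    [(247390535680, 27488419840), (82464210944, 82464210944), (5497558138880, 5497558138880)] := by
  rw [← gA3_eq]; exact A3_c0

theorem certB3 : CovD 1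
    [circ (chB tab 3) (P2m tab 3),
     altP (chB tab 3) (outCut tab 3)]
    [(247390535680, 27488419840), (82464210944, 82464210944), (54975791104, 54975791104)] := by
  rw [← gB3_eq]; exact B3_c0

theorem certC3 : CovD 1
    [circ (chC tab) (P2m tab 3),
     altP (chC tab) (outDisc tab 3)]
    [(247390535680, 27488419840), (82464210944, 82464210944), (549755813888, 549755813888)] := by
  rw [← gC3_eq]; exact C3_c0

theorem certD3 : CovD 1
    [circ (chD tab 3) (P2m tab 3),
     altP (chD tab 3) (outDisc tab 3)]
    [(247390535680, 27488419840), (82464210944, 82464210944), (863554764800, 863554764800)] := by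
  rw [← gD3_eq]; exact D3_c0

theorem certE3 : CovD 1
    [circ (chE tab 3) (P2m tab 3),
     altP (chE tab 3) (outDisc tab 3),
     altL tab 3]
    [(247390535680, 27488419840), (82464210944, 82464210944), (863554764800, 863554764800)] := by
  rw [← gE3_eq]; exact E3_c0

theorem certA4 : CovD 1
    [circ (chA tab 4) (P2m tab 4),
     altP (chA tab 4) (outCut tab 4),
     altP (chA tab 4) (outIn tab)]
    [(247390535680, 27488419840), (82464210944, 82464210944), (5497558138880, 5497558138880)] := by
  rw [← gA4_eq]; exact A4_c0

theorem certB4 : CovD 1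
    [circ (chB tab 4) (P2m tab 4),
     altP (chB tab 4) (outCut tab 4)]
    [(247390535680, 27488419840), (82464210944, 82464210944), (54975791104, 54975791104)] := by
  rw [← gB4_eq]; exact B4_c0

theorem certC4 : CovD 1
    [circ (chC tab) (P2m tab 4),
     altP (chC tab) (outDisc tab 4)]
    [(247390535680, 27488419840), (82464210944, 82464210944), (549755813888, 549755813888)] := by
  rw [← gC4_eq]; exact C4_c0

theorem certD4 : CovD 1
    [circ (chD tab 4) (P2m tab 4),
     altP (chD tab 4) (outDisc tab 4)]
    [(247390535680, 27488419840), (82464210944, 82464210944), (863554764800, 863554764800)] := by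
  rw [← gD4_eq]; exact D4_c0

theorem certE4 : CovD 1
    [circ (chE tab 4) (P2m tab 4),
     altP (chE tab 4) (outDisc tab 4),
     altL tab 4]
    [(247390535680, 27488419840), (82464210944, 82464210944), (863554764800, 863554764800)] := by
  rw [← gE4_eq]; exact E4_c0

theorem certA5 : CovD 1
    [circ (chA tab 5) (P2m tab 5),
     altP (chA tab 5) (outCut tab 5),
     altP (chA tab 5) (outIn tab)]
    [(247390535680, 27488419840), (82464210944, 82464210944), (5497558138880, 5497558138880)] := by
  rw [← gA5_eq]; exact A5_c0

theorem certB5 : CovD 1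
    [circ (chB tab 5) (P2m tab 5),
     altP (chB tab 5) (outCut tab 5)]
    [(247390535680, 27488419840), (82464210944, 82464210944), (54975791104, 54975791104)] := by
  rw [← gB5_eq]; exact B5_c0

theorem certC5 : CovD 1
    [circ (chC tab) (P2m tab 5),
     altP (chC tab) (outDisc tab 5)]
    [(247390535680, 27488419840), (82464210944, 82464210944), (549755813888, 549755813888)] := by
  rw [← gC5_eq]; exact C5_c0

theorem certD5 : CovD 1
    [circ (chD tab 5) (P2m tab 5),
     altP (chD tab 5) (outDisc tab 5)]
    [(247390535680, 27488419840), (82464210944, 82464210944), (863554764800, 863554764800)] := by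
  rw [← gD5_eq]; exact D5_c0

theorem certE5 : CovD 1
    [circ (chE tab 5) (P2m tab 5),
     altP (chE tab 5) (outDisc tab 5),
     altL tab 5]
    [(247390535680, 27488419840), (82464210944, 82464210944), (863554764800, 863554764800)] := by
  rw [← gE5_eq]; exact E5_c0

theorem certA6 : CovD 1
    [circ (chA tab 6) (P2m tab 6),
     altP (chA tab 6) (outCut tab 6),
     altP (chA tab 6) (outIn tab)]
    [(247390535680, 27488419840), (82464210944, 82464210944), (5497558138880, 5497558138880)] := by
  rw [← gA6_eq]; exact A6_c0

theorem certB6 : CovD 1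
    [circ (chB tab 6) (P2m tab 6),
     altP (chB tab 6) (outCut tab 6)]
    [(247390535680, 27488419840), (82464210944, 82464210944), (54975791104, 54975791104)] := by
  rw [← gB6_eq]; exact B6_c0

theorem certC6 : CovD 1
    [circ (chC tab) (P2m tab 6),
     altP (chC tab) (outDisc tab 6)]
    [(247390535680, 27488419840), (82464210944, 82464210944), (549755813888, 549755813888)] := by
  rw [← gC6_eq]; exact C6_c0

theorem certD6 : CovD 1
    [circ (chD tab 6) (P2m tab 6),
     altP (chD tab 6) (outDisc tab 6)]
    [(247390535680, 27488419840), (82464210944, 82464210944), (863554764800, 863554764800)] := by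
  rw [← gD6_eq]; exact D6_c0

theorem certE6 : CovD 1
    [circ (chE tab 6) (P2m tab 6),
     altP (chE tab 6) (outDisc tab 6),
     altL tab 6]
    [(247390535680, 27488419840), (82464210944, 82464210944), (863554764800, 863554764800)] := by
  rw [← gE6_eq]; exact E6_c0

theorem certA7 : CovD 1
    [circ (chA tab 7) (P2l tab 7),
     altP (chA tab 7) (outCut tab 7),
     altP (chA tab 7) (outIn tab)]
    [(247390535680, 27488419840), (82464210944, 82464210944), (5497558138880, 5497558138880)] := by
  rw [← gA7_eq]; exact A7_c0

theorem certB7 : CovD 1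
    [circ (chB tab 7) (P2l tab 7),
     altP (chB tab 7) (outCut tab 7)]
    [(247390535680, 27488419840), (82464210944, 82464210944), (54975791104, 54975791104)] := by
  rw [← gB7_eq]; exact B7_c0

theorem certC7 : CovD 1
    [circ (chC tab) (P2l tab 7),
     altP (chC tab) (outDisc tab 7)]
    [(247390535680, 27488419840), (82464210944, 82464210944), (549755813888, 549755813888)] := by
  rw [← gC7_eq]; exact C7_c0

theorem certD7 : CovD 1
    [circ (chD tab 7) (P2l tab 7),
     altP (chD tab 7) (outDisc tab 7)]
    [(247390535680, 27488419840), (82464210944, 82464210944), (863554764800, 863554764800)] := by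
  rw [← gD7_eq]; exact D7_c0

theorem certE7 : CovD 1
    [circ (chE tab 7) (P2l tab 7),
     altP (chE tab 7) (outDisc tab 7),
     altL tab 7]
    [(247390535680, 27488419840), (82464210944, 82464210944), (863554764800, 863554764800)] := by
  rw [← gE7_eq]; exact E7_c0

/-- the certificates of the piece -/
theorem certs : Certs tab 8 (247390535680, 27488419840) (82464210944, 82464210944) (5497558138880, 5497558138880) (54975791104, 54975791104) (549755813888, 549755813888) (863554764800, 863554764800) (577243185152, 522268442624) where
  A := by
    intro n h1 h2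
    match n, h1, h2 with
    | 1, _, _ => exact certA1
    | 2, _, _ => exact certA2
    | 3, _, _ => exact certA3
    | 4, _, _ => exact certA4
    | 5, _, _ => exact certA5
    | 6, _, _ => exact certA6
    | 7, _, _ => exact certA7
    | 0, h, _ => exact absurd h (by decide)
    | n + 8, _, h => exact absurd h (by omega)
  B := by
    intro n h1 h2
    match n, h1, h2 with
    | 1, _, _ => exact certB1
    | 2, _, _ => exact certB2
    | 3, _, _ => exact certB3
    | 4, _, _ => exact certB4
    | 5, _, _ => exact certB5
    | 6, _, _ => exact certB6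
    | 7, _, _ => exact certB7
    | 0, h, _ => exact absurd h (by decide)
    | n + 8, _, h => exact absurd h (by omega)
  C := by
    intro _
    intro n h1 h2
    match n, h1, h2 with
    | 1, _, _ => exact certC1
    | 2, _, _ => exact certC2
    | 3, _, _ => exact certC3
    | 4, _, _ => exact certC4
    | 5, _, _ => exact certC5
    | 6, _, _ => exact certC6
    | 7, _, _ => exact certC7
    | 0, h, _ => exact absurd h (by decide)
    | n + 8, _, h => exact absurd h (by omega)
  D := by
    intro n h1 h2
    match n, h1, h2 with
    | 1, _, _ => exact certD1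
    | 2, _, _ => exact certD2
    | 3, _, _ => exact certD3
    | 4, _, _ => exact certD4
    | 5, _, _ => exact certD5
    | 6, _, _ => exact certD6
    | 7, _, _ => exact certD7
    | 0, h, _ => exact absurd h (by decide)
    | n + 8, _, h => exact absurd h (by omega)
  E := by
    intro n h1 h2
    match n, h1, h2 with
    | 1, _, _ => exact certE1
    | 2, _, _ => exact certE2
    | 3, _, _ => exact certE3
    | 4, _, _ => exact certE4
    | 5, _, _ => exact certE5
    | 6, _, _ => exact certE6
    | 7, _, _ => exact certE7
    | 0, h, _ => exact absurd h (by decide)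
    | n + 8, _, h => exact absurd h (by omega)
  Z := certZ
  T := certT
  S := certS

end Pool.Agent.helper14.NR.E4a
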