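import Pool.Agent.helper14.NR.E4a.PZ

/-!
Generated: certificates.
-/

namespace Pool.Agent.helper14.NR.E4a

open Pool.Agent.helper31.IA (Z)
open Pool.Agent.helper31.IX (Op XOps runX Cov CovD cov_split covD_split)
open Pool.Agent.helper31.IC (TD)
open Pool.Agent.helper63.RG (reloc)
open Pool.Agent.helper63.NF hiding TD
open Pool.Agent.helper14.CF (xE covD_E)
open Pool.Agent.helper14.NR (share)

mutual
theorem Z_c0_t7 : CovD 1 gZ [(233646325760, 13744209920), (10308026368, 10308026368), (87616520192, 32641777664)] :=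
  covD_E kZ_eq (.n 2 (.n 2 (.n 2 (.l 0) (.l 0)) (.n 0 (.l 0) (.n 0 (.l 0) (.l 0)))) (.n 0 (.n 0 (.n 2 (.l 0) (.l 0)) (.n 2 (.l 0) (.l 0))) (.n 2 (.n 0 (.l 0) (.l 0)) (.n 2 (.l 0) (.l 0)))))
    [(233646325760, 13744209920), (10308026368, 10308026368), (87616520192, 32641777664)] rfl (by decide +kernel)
theorem Z_c0_t10 : CovD 1 gZ [(226774220800, 6872104960), (10308026368, 10308026368), (136579186688, 16320888832)] :=
  covD_E kZ_eq (.n 2 (.n 2 (.l 0) (.n 0 (.l 0) (.l 0))) (.n 0 (.n 1 (.l 0) (.l 0)) (.n 2 (.l 0) (.l 0))))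
    [(226774220800, 6872104960), (10308026368, 10308026368), (136579186688, 16320888832)] rfl (by decide +kernel)
end

mutual
theorem Z_c0_t11 : CovD 1 gZ [(226774220800, 6872104960), (10308026368, 10308026368), (169220964352, 16320888832)] :=
  covD_E kZ_eq (.n 0 (.n 2 (.n 2 (.l 0) (.l 0)) (.n 2 (.l 0) (.l 0))) (.n 2 (.n 2 (.l 0) (.n 0 (.l 0) (.l 0))) (.n 0 (.n 2 (.l 0) (.l 0)) (.n 2 (.l 0) (.l 0)))))
    [(226774220800, 6872104960), (10308026368, 10308026368), (169220964352, 16320888832)] rfl (by decide +kernel)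
theorem Z_c0_t13 : CovD 1 gZ [(240518430720, 6872104960), (5154013184, 5154013184), (152900075520, 32641777664)] :=
  covD_E kZ_eq (.n 2 (.n 2 (.n 2 (.l 0) (.l 0)) (.n 2 (.l 0) (.n 0 (.l 0) (.l 0)))) (.n 0 (.n 2 (.n 2 (.l 0) (.l 0)) (.n 2 (.l 0) (.l 0))) (.n 2 (.n 2 (.l 0) (.l 0)) (.n 2 (.l 0) (.l 0)))))
    [(240518430720, 6872104960), (5154013184, 5154013184), (152900075520, 32641777664)] rfl (by decide +kernel)
end

mutual
theorem Z_c0_t14 : CovD 1 gZ [(240518430720, 6872104960), (15462039552, 5154013184), (152900075520, 32641777664)] :=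
  covD_E kZ_eq (.n 2 (.n 2 (.n 0 (.l 0) (.l 0)) (.n 2 (.l 0) (.l 0))) (.n 2 (.n 2 (.l 0) (.l 0)) (.n 2 (.l 0) (.l 0))))
    [(240518430720, 6872104960), (15462039552, 5154013184), (152900075520, 32641777664)] rfl (by decide +kernel)
theorem Z_c0_t16 : CovD 1 gZ [(226774220800, 6872104960), (30924079104, 10308026368), (120258297856, 65283555328)] :=
  covD_E kZ_eq (.n 2 (.n 2 (.n 2 (.l 0) (.l 0)) (.n 2 (.l 0) (.n 0 (.l 0) (.l 0)))) (.n 2 (.n 0 (.n 2 (.l 0) (.l 0)) (.n 2 (.l 0) (.l 0))) (.n 2 (.n 2 (.l 0) (.l 0)) (.n 2 (.l 0) (.l 0)))))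
    [(226774220800, 6872104960), (30924079104, 10308026368), (120258297856, 65283555328)] rfl (by decide +kernel)
end

mutual
theorem Z_c0_t17 : CovD 1 gZ [(240518430720, 6872104960), (30924079104, 10308026368), (120258297856, 65283555328)] :=
  covD_E kZ_eq (.n 2 (.n 2 (.n 2 (.l 0) (.l 0)) (.n 0 (.n 2 (.l 0) (.l 0)) (.n 2 (.l 0) (.l 0)))) (.n 2 (.n 2 (.n 2 (.l 0) (.l 0)) (.n 2 (.l 0) (.l 0))) (.n 2 (.n 2 (.l 0) (.l 0)) (.n 2 (.l 0) (.l 0)))))
    [(240518430720, 6872104960), (30924079104, 10308026368), (120258297856, 65283555328)] rfl (by decide +kernel)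
theorem Z_c0_t19 : CovD 1 gZ [(226774220800, 6872104960), (61848158208, 20616052736), (120258297856, 65283555328)] :=
  covD_E kZ_eq (.n 1 (.n 2 (.n 2 (.n 2 (.l 0) (.l 0)) (.n 2 (.l 0) (.l 0))) (.n 2 (.n 2 (.l 0) (.l 0)) (.n 2 (.l 0) (.l 0)))) (.n 2 (.n 2 (.n 2 (.l 0) (.l 0)) (.n 2 (.l 0) (.l 0))) (.n 2 (.n 2 (.l 0) (.l 0)) (.n 2 (.l 0) (.l 0)))))
    [(226774220800, 6872104960), (61848158208, 20616052736), (120258297856, 65283555328)] rfl (by decide +kernel)
end

mutual
theorem Z_c0_t20 : CovD 1 gZ [(240518430720, 6872104960), (61848158208, 20616052736), (120258297856, 65283555328)] :=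
  covD_E kZ_eq (.n 1 (.n 2 (.n 2 (.n 2 (.l 0) (.l 0)) (.n 2 (.l 0) (.l 0))) (.n 2 (.n 2 (.l 0) (.l 0)) (.n 2 (.l 0) (.l 0)))) (.n 2 (.n 2 (.n 2 (.l 0) (.l 0)) (.n 2 (.l 0) (.l 0))) (.n 2 (.n 2 (.l 0) (.l 0)) (.n 2 (.l 0) (.l 0)))))
    [(240518430720, 6872104960), (61848158208, 20616052736), (120258297856, 65283555328)] rfl (by decide +kernel)
theorem Z_c0_t22 : CovD 1 gZ [(233646325760, 13744209920), (103080263680, 20616052736), (120258297856, 65283555328)] :=
  covD_E kZ_eq (.n 0 (.n 2 (.n 2 (.n 2 (.l 0) (.l 0)) (.n 2 (.l 0) (.l 0))) (.n 2 (.n 2 (.l 0) (.l 0)) (.n 2 (.l 0) (.l 0)))) (.n 2 (.n 2 (.n 2 (.l 0) (.l 0)) (.n 2 (.l 0) (.l 0))) (.n 2 (.n 2 (.l 0) (.l 0)) (.n 2 (.l 0) (.l 0)))))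
    [(233646325760, 13744209920), (103080263680, 20616052736), (120258297856, 65283555328)] rfl (by decide +kernel)
end

mutual
theorem Z_c0_t23 : CovD 1 gZ [(233646325760, 13744209920), (144312369152, 20616052736), (120258297856, 65283555328)] :=
  covD_E kZ_eq (.n 2 (.n 2 (.n 2 (.l 0) (.l 0)) (.n 2 (.l 0) (.l 0))) (.n 2 (.n 2 (.l 0) (.l 0)) (.n 2 (.l 0) (.l 0))))
    [(233646325760, 13744209920), (144312369152, 20616052736), (120258297856, 65283555328)] rfl (by decide +kernel)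
theorem Z_c0_t28 : CovD 1 gZ [(261134745600, 13744209920), (10308026368, 10308026368), (87616520192, 32641777664)] :=
  covD_E kZ_eq (.n 2 (.n 2 (.n 2 (.l 0) (.n 0 (.l 0) (.l 0))) (.n 0 (.n 0 (.l 0) (.l 0)) (.n 0 (.l 0) (.l 0)))) (.n 0 (.n 2 (.n 1 (.l 0) (.l 0)) (.n 2 (.l 0) (.l 0))) (.n 2 (.n 2 (.l 0) (.l 0)) (.n 2 (.l 0) (.l 0)))))
    [(261134745600, 13744209920), (10308026368, 10308026368), (87616520192, 32641777664)] rfl (by decide +kernel)
end

mutual
theorem Z_c0_t31 : CovD 1 gZ [(254262640640, 6872104960), (10308026368, 10308026368), (136579186688, 16320888832)] :=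
  covD_E kZ_eq (.n 1 (.n 2 (.n 2 (.l 0) (.l 0)) (.n 0 (.n 2 (.l 0) (.l 0)) (.n 2 (.l 0) (.l 0)))) (.n 2 (.n 2 (.l 0) (.l 0)) (.n 2 (.l 0) (.l 0))))
    [(254262640640, 6872104960), (10308026368, 10308026368), (136579186688, 16320888832)] rfl (by decide +kernel)
theorem Z_c0_t32 : CovD 1 gZ [(254262640640, 6872104960), (10308026368, 10308026368), (169220964352, 16320888832)] :=
  covD_E kZ_eq (.n 2 (.n 1 (.n 0 (.n 2 (.l 0) (.l 0)) (.n 2 (.l 0) (.l 0))) (.n 2 (.l 0) (.l 0))) (.n 0 (.n 2 (.n 0 (.l 0) (.l 0)) (.l 0)) (.n 2 (.l 0) (.l 0))))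
    [(254262640640, 6872104960), (10308026368, 10308026368), (169220964352, 16320888832)] rfl (by decide +kernel)
end

mutual
theorem Z_c0_t33 : CovD 1 gZ [(268006850560, 6872104960), (10308026368, 10308026368), (152900075520, 32641777664)] :=
  covD_E kZ_eq (.n 2 (.n 0 (.n 2 (.n 2 (.l 0) (.l 0)) (.n 2 (.l 0) (.l 0))) (.n 1 (.n 2 (.l 0) (.l 0)) (.n 2 (.l 0) (.l 0)))) (.n 2 (.n 0 (.n 2 (.l 0) (.l 0)) (.n 1 (.l 0) (.l 0))) (.n 2 (.n 0 (.l 0) (.l 0)) (.l 0))))
    [(268006850560, 6872104960), (10308026368, 10308026368), (152900075520, 32641777664)] rfl (by decide +kernel)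
theorem Z_c0_t35 : CovD 1 gZ [(261134745600, 13744209920), (30924079104, 10308026368), (87616520192, 32641777664)] :=
  covD_E kZ_eq (.n 2 (.n 2 (.n 2 (.l 0) (.l 0)) (.n 2 (.l 0) (.n 0 (.l 0) (.l 0)))) (.n 0 (.n 1 (.n 2 (.l 0) (.l 0)) (.n 2 (.l 0) (.l 0))) (.n 2 (.n 0 (.l 0) (.l 0)) (.n 2 (.l 0) (.l 0)))))
    [(261134745600, 13744209920), (30924079104, 10308026368), (87616520192, 32641777664)] rfl (by decide +kernel)
end

mutual
theorem Z_c0_t36 : CovD 1 gZ [(261134745600, 13744209920), (30924079104, 10308026368), (152900075520, 32641777664)] :=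
  covD_E kZ_eq (.n 0 (.n 2 (.n 2 (.n 2 (.l 0) (.l 0)) (.n 2 (.l 0) (.l 0))) (.n 2 (.n 2 (.l 0) (.l 0)) (.n 2 (.l 0) (.l 0)))) (.n 2 (.n 2 (.n 2 (.l 0) (.l 0)) (.n 2 (.l 0) (.l 0))) (.n 2 (.n 2 (.l 0) (.l 0)) (.n 0 (.l 0) (.l 0)))))
    [(261134745600, 13744209920), (30924079104, 10308026368), (152900075520, 32641777664)] rfl (by decide +kernel)
theorem Z_c0_t39 : CovD 1 gZ [(254262640640, 6872104960), (61848158208, 20616052736), (87616520192, 32641777664)] :=
  covD_E kZ_eq (.n 1 (.n 2 (.n 2 (.l 0) (.l 0)) (.n 2 (.l 0) (.l 0))) (.n 2 (.n 2 (.l 0) (.l 0)) (.n 2 (.l 0) (.l 0))))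
    [(254262640640, 6872104960), (61848158208, 20616052736), (87616520192, 32641777664)] rfl (by decide +kernel)
end

mutual
theorem Z_c0_t40 : CovD 1 gZ [(254262640640, 6872104960), (61848158208, 20616052736), (152900075520, 32641777664)] :=
  covD_E kZ_eq (.n 2 (.n 2 (.n 2 (.l 0) (.l 0)) (.n 1 (.n 0 (.l 0) (.l 0)) (.l 0))) (.n 2 (.n 2 (.l 0) (.l 0)) (.n 1 (.l 0) (.l 0))))
    [(254262640640, 6872104960), (61848158208, 20616052736), (152900075520, 32641777664)] rfl (by decide +kernel)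
theorem Z_c0_t41 : CovD 1 gZ [(268006850560, 6872104960), (61848158208, 20616052736), (120258297856, 65283555328)] :=
  covD_E kZ_eq (.n 2 (.n 1 (.n 2 (.n 2 (.l 0) (.l 0)) (.n 2 (.l 0) (.l 0))) (.n 2 (.n 2 (.l 0) (.l 0)) (.n 2 (.l 0) (.l 0)))) (.n 2 (.n 2 (.n 2 (.l 0) (.l 0)) (.n 2 (.l 0) (.l 0))) (.n 1 (.n 2 (.l 0) (.l 0)) (.n 2 (.l 0) (.l 0)))))
    [(268006850560, 6872104960), (61848158208, 20616052736), (120258297856, 65283555328)] rfl (by decide +kernel)
end

mutual
theorem Z_c0_t43 : CovD 1 gZ [(261134745600, 13744209920), (103080263680, 20616052736), (120258297856, 65283555328)] :=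
  covD_E kZ_eq (.n 1 (.n 2 (.n 2 (.n 2 (.l 0) (.l 0)) (.n 2 (.l 0) (.l 0))) (.n 2 (.n 2 (.l 0) (.l 0)) (.n 2 (.l 0) (.l 0)))) (.n 2 (.n 2 (.n 2 (.l 0) (.l 0)) (.n 2 (.l 0) (.l 0))) (.n 2 (.n 2 (.l 0) (.l 0)) (.n 0 (.l 0) (.l 0)))))
    [(261134745600, 13744209920), (103080263680, 20616052736), (120258297856, 65283555328)] rfl (by decide +kernel)
theorem Z_c0_t44 : CovD 1 gZ [(261134745600, 13744209920), (144312369152, 20616052736), (120258297856, 65283555328)] :=
  covD_E kZ_eq (.n 2 (.n 2 (.n 2 (.n 0 (.l 0) (.l 0)) (.l 0)) (.n 2 (.l 0) (.l 0))) (.n 2 (.n 2 (.l 0) (.l 0)) (.n 2 (.l 0) (.l 0))))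
    [(261134745600, 13744209920), (144312369152, 20616052736), (120258297856, 65283555328)] rfl (by decide +kernel)
end

mutual
theorem Z_c0_t52 : CovD 1 gZ [(223338168320, 3436052480), (10308026368, 10308026368), (218183630848, 32641777664)] :=
  covD_E kZ_eq (.n 2 (.n 2 (.n 2 (.l 0) (.l 0)) (.n 2 (.l 0) (.l 0))) (.n 1 (.n 2 (.l 0) (.l 0)) (.n 2 (.l 0) (.l 0))))
    [(223338168320, 3436052480), (10308026368, 10308026368), (218183630848, 32641777664)] rfl (by decide +kernel)
theorem Z_c0_t53 : CovD 1 gZ [(230210273280, 3436052480), (10308026368, 10308026368), (218183630848, 32641777664)] :=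
  covD_E kZ_eq (.n 2 (.n 2 (.n 1 (.n 2 (.l 0) (.l 0)) (.l 0)) (.n 2 (.l 0) (.l 0))) (.n 2 (.n 2 (.l 0) (.l 0)) (.n 0 (.l 0) (.l 0))))
    [(230210273280, 3436052480), (10308026368, 10308026368), (218183630848, 32641777664)] rfl (by decide +kernel)
end

mutual
theorem Z_c0_t54 : CovD 1 gZ [(226774220800, 6872104960), (10308026368, 10308026368), (283467186176, 32641777664)] :=
  covD_E kZ_eq (.n 2 (.n 0 (.n 2 (.l 0) (.l 0)) (.n 2 (.l 0) (.l 0))) (.n 2 (.l 0) (.l 0)))
    [(226774220800, 6872104960), (10308026368, 10308026368), (283467186176, 32641777664)] rfl (by decide +kernel)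
theorem Z_c0_t55 : CovD 1 gZ [(226774220800, 6872104960), (30924079104, 10308026368), (250825408512, 65283555328)] :=
  covD_E kZ_eq (.n 2 (.n 0 (.n 2 (.n 2 (.l 0) (.l 0)) (.n 2 (.l 0) (.l 0))) (.n 2 (.n 2 (.l 0) (.l 0)) (.n 2 (.l 0) (.l 0)))) (.n 2 (.n 2 (.l 0) (.l 0)) (.n 0 (.l 0) (.l 0))))
    [(226774220800, 6872104960), (30924079104, 10308026368), (250825408512, 65283555328)] rfl (by decide +kernel)
end

mutual
theorem Z_c0_t56 : CovD 1 gZ [(226774220800, 6872104960), (61848158208, 20616052736), (250825408512, 65283555328)] :=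
  covD_E kZ_eq (.n 2 (.n 2 (.n 0 (.n 2 (.l 0) (.l 0)) (.n 2 (.l 0) (.l 0))) (.n 2 (.n 0 (.l 0) (.l 0)) (.l 0))) (.n 2 (.n 2 (.l 0) (.l 0)) (.n 0 (.l 0) (.l 0))))
    [(226774220800, 6872104960), (61848158208, 20616052736), (250825408512, 65283555328)] rfl (by decide +kernel)
theorem Z_c0_t57 : CovD 1 gZ [(226774220800, 6872104960), (123696316416, 41232105472), (250825408512, 65283555328)] :=
  covD_E kZ_eq (.n 1 (.n 2 (.n 1 (.n 2 (.l 0) (.l 0)) (.n 2 (.l 0) (.l 0))) (.n 2 (.l 0) (.l 0))) (.n 2 (.n 2 (.l 0) (.l 0)) (.n 2 (.l 0) (.l 0))))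
    [(226774220800, 6872104960), (123696316416, 41232105472), (250825408512, 65283555328)] rfl (by decide +kernel)
end

mutual
theorem Z_c0_t62 : CovD 1 gZ [(240518430720, 6872104960), (10308026368, 10308026368), (218183630848, 32641777664)] :=
  covD_E kZ_eq (.n 0 (.n 2 (.n 2 (.n 2 (.n 0 (.l 0) (.l 0)) (.l 0)) (.n 2 (.l 0) (.l 0))) (.n 2 (.n 1 (.l 0) (.l 0)) (.l 0))) (.n 2 (.n 2 (.n 2 (.l 0) (.l 0)) (.n 2 (.l 0) (.l 0))) (.n 2 (.n 0 (.l 0) (.l 0)) (.l 0))))
    [(240518430720, 6872104960), (10308026368, 10308026368), (218183630848, 32641777664)] rfl (by decide +kernel)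
theorem Z_c0_t63 : CovD 1 gZ [(240518430720, 6872104960), (30924079104, 10308026368), (218183630848, 32641777664)] :=
  covD_E kZ_eq (.n 2 (.n 2 (.n 2 (.l 0) (.l 0)) (.n 0 (.l 0) (.l 0))) (.n 2 (.n 0 (.l 0) (.l 0)) (.l 0)))
    [(240518430720, 6872104960), (30924079104, 10308026368), (218183630848, 32641777664)] rfl (by decide +kernel)
end

mutual
theorem Z_c0_t64 : CovD 1 gZ [(240518430720, 6872104960), (20616052736, 20616052736), (283467186176, 32641777664)] :=
  covD_E kZ_eq (.n 2 (.n 1 (.n 2 (.n 0 (.l 0) (.l 0)) (.l 0)) (.n 2 (.l 0) (.l 0))) (.n 2 (.n 0 (.l 0) (.l 0)) (.l 0)))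
    [(240518430720, 6872104960), (20616052736, 20616052736), (283467186176, 32641777664)] rfl (by decide +kernel)
theorem Z_c0_t65 : CovD 1 gZ [(240518430720, 6872104960), (61848158208, 20616052736), (250825408512, 65283555328)] :=
  covD_E kZ_eq (.n 2 (.n 2 (.n 1 (.n 2 (.l 0) (.l 0)) (.n 2 (.l 0) (.l 0))) (.n 2 (.n 0 (.l 0) (.l 0)) (.l 0))) (.n 2 (.n 2 (.l 0) (.l 0)) (.n 0 (.l 0) (.l 0))))
    [(240518430720, 6872104960), (61848158208, 20616052736), (250825408512, 65283555328)] rfl (by decide +kernel)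
end

mutual
theorem Z_c0_t66 : CovD 1 gZ [(240518430720, 6872104960), (123696316416, 41232105472), (250825408512, 65283555328)] :=
  covD_E kZ_eq (.n 1 (.n 2 (.n 2 (.n 2 (.l 0) (.l 0)) (.n 0 (.l 0) (.l 0))) (.n 2 (.l 0) (.l 0))) (.n 2 (.n 2 (.l 0) (.l 0)) (.n 2 (.l 0) (.l 0))))
    [(240518430720, 6872104960), (123696316416, 41232105472), (250825408512, 65283555328)] rfl (by decide +kernel)
theorem Z_c0_t72 : CovD 1 gZ [(254262640640, 6872104960), (10308026368, 10308026368), (218183630848, 32641777664)] :=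
  covD_E kZ_eq (.n 2 (.n 0 (.n 2 (.n 2 (.l 0) (.l 0)) (.n 1 (.l 0) (.l 0))) (.n 1 (.n 2 (.l 0) (.l 0)) (.n 2 (.l 0) (.l 0)))) (.n 2 (.n 2 (.l 0) (.l 0)) (.n 0 (.l 0) (.l 0))))
    [(254262640640, 6872104960), (10308026368, 10308026368), (218183630848, 32641777664)] rfl (by decide +kernel)
end

mutual
theorem Z_c0_t73 : CovD 1 gZ [(254262640640, 6872104960), (30924079104, 10308026368), (218183630848, 32641777664)] :=
  covD_E kZ_eq (.n 2 (.n 0 (.n 2 (.l 0) (.l 0)) (.n 2 (.l 0) (.l 0))) (.n 2 (.l 0) (.l 0)))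
    [(254262640640, 6872104960), (30924079104, 10308026368), (218183630848, 32641777664)] rfl (by decide +kernel)
theorem Z_c0_t74 : CovD 1 gZ [(254262640640, 6872104960), (20616052736, 20616052736), (283467186176, 32641777664)] :=
  covD_E kZ_eq (.n 2 (.n 1 (.n 2 (.l 0) (.l 0)) (.n 0 (.l 0) (.l 0))) (.n 2 (.l 0) (.l 0)))
    [(254262640640, 6872104960), (20616052736, 20616052736), (283467186176, 32641777664)] rfl (by decide +kernel)
end

mutual
theorem Z_c0_t75 : CovD 1 gZ [(254262640640, 6872104960), (61848158208, 20616052736), (250825408512, 65283555328)] :=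
  covD_E kZ_eq (.n 2 (.n 2 (.n 0 (.n 2 (.l 0) (.l 0)) (.n 2 (.l 0) (.l 0))) (.n 2 (.n 0 (.l 0) (.l 0)) (.l 0))) (.n 2 (.n 2 (.l 0) (.l 0)) (.n 0 (.l 0) (.l 0))))
    [(254262640640, 6872104960), (61848158208, 20616052736), (250825408512, 65283555328)] rfl (by decide +kernel)
theorem Z_c0_t76 : CovD 1 gZ [(254262640640, 6872104960), (123696316416, 41232105472), (250825408512, 65283555328)] :=
  covD_E kZ_eq (.n 1 (.n 2 (.n 2 (.n 2 (.l 0) (.l 0)) (.n 0 (.l 0) (.l 0))) (.n 2 (.l 0) (.l 0))) (.n 2 (.n 2 (.l 0) (.l 0)) (.n 2 (.l 0) (.l 0))))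
    [(254262640640, 6872104960), (123696316416, 41232105472), (250825408512, 65283555328)] rfl (by decide +kernel)
end

mutual
theorem Z_c0_t80 : CovD 1 gZ [(268006850560, 6872104960), (20616052736, 20616052736), (218183630848, 32641777664)] :=
  covD_E kZ_eq (.n 1 (.n 2 (.n 2 (.n 2 (.l 0) (.l 0)) (.n 0 (.l 0) (.l 0))) (.n 2 (.n 0 (.l 0) (.l 0)) (.l 0))) (.n 2 (.n 2 (.n 0 (.l 0) (.l 0)) (.l 0)) (.n 2 (.l 0) (.l 0))))
    [(268006850560, 6872104960), (20616052736, 20616052736), (218183630848, 32641777664)] rfl (by decide +kernel)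
theorem Z_c0_t81 : CovD 1 gZ [(268006850560, 6872104960), (20616052736, 20616052736), (283467186176, 32641777664)] :=
  covD_E kZ_eq (.n 2 (.n 2 (.n 0 (.l 0) (.l 0)) (.l 0)) (.n 0 (.l 0) (.l 0)))
    [(268006850560, 6872104960), (20616052736, 20616052736), (283467186176, 32641777664)] rfl (by decide +kernel)
end

mutual
theorem Z_c0_t82 : CovD 1 gZ [(268006850560, 6872104960), (61848158208, 20616052736), (250825408512, 65283555328)] :=
  covD_E kZ_eq (.n 2 (.n 2 (.n 0 (.n 2 (.l 0) (.l 0)) (.n 2 (.l 0) (.l 0))) (.n 2 (.l 0) (.l 0))) (.n 2 (.n 0 (.l 0) (.l 0)) (.l 0)))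
    [(268006850560, 6872104960), (61848158208, 20616052736), (250825408512, 65283555328)] rfl (by decide +kernel)
theorem Z_c0_t83 : CovD 1 gZ [(268006850560, 6872104960), (123696316416, 41232105472), (250825408512, 65283555328)] :=
  covD_E kZ_eq (.n 1 (.n 2 (.n 1 (.n 2 (.l 0) (.l 0)) (.n 2 (.l 0) (.l 0))) (.n 2 (.l 0) (.l 0))) (.n 2 (.n 2 (.l 0) (.l 0)) (.n 2 (.l 0) (.l 0))))
    [(268006850560, 6872104960), (123696316416, 41232105472), (250825408512, 65283555328)] rfl (by decide +kernel)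
end

mutual
theorem Z_c0_t88 : CovD 1 gZ [(226774220800, 6872104960), (20616052736, 20616052736), (446676074496, 130567110656)] :=
  covD_E kZ_eq (.n 2 (.n 2 (.n 1 (.n 2 (.n 0 (.l 0) (.l 0)) (.l 0)) (.n 2 (.l 0) (.l 0))) (.n 2 (.n 0 (.l 0) (.l 0)) (.l 0))) (.n 2 (.n 2 (.l 0) (.l 0)) (.n 0 (.l 0) (.l 0))))
    [(226774220800, 6872104960), (20616052736, 20616052736), (446676074496, 130567110656)] rfl (by decide +kernel)
theorem Z_c0_t89 : CovD 1 gZ [(226774220800, 6872104960), (61848158208, 20616052736), (446676074496, 130567110656)] :=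
  covD_E kZ_eq (.n 2 (.n 2 (.n 2 (.n 0 (.l 0) (.l 0)) (.l 0)) (.n 2 (.l 0) (.l 0))) (.n 2 (.n 0 (.l 0) (.l 0)) (.l 0)))
    [(226774220800, 6872104960), (61848158208, 20616052736), (446676074496, 130567110656)] rfl (by decide +kernel)
end

mutual
theorem Z_c0_t91 : CovD 1 gZ [(240518430720, 6872104960), (20616052736, 20616052736), (446676074496, 130567110656)] :=
  covD_E kZ_eq (.n 2 (.n 2 (.n 0 (.n 2 (.l 0) (.l 0)) (.n 2 (.l 0) (.l 0))) (.n 2 (.l 0) (.l 0))) (.n 0 (.n 2 (.l 0) (.l 0)) (.n 2 (.l 0) (.l 0))))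
    [(240518430720, 6872104960), (20616052736, 20616052736), (446676074496, 130567110656)] rfl (by decide +kernel)
theorem Z_c0_t92 : CovD 1 gZ [(240518430720, 6872104960), (61848158208, 20616052736), (446676074496, 130567110656)] :=
  covD_E kZ_eq (.n 2 (.n 2 (.n 2 (.l 0) (.l 0)) (.n 2 (.l 0) (.l 0))) (.n 0 (.n 2 (.l 0) (.l 0)) (.n 2 (.l 0) (.l 0))))
    [(240518430720, 6872104960), (61848158208, 20616052736), (446676074496, 130567110656)] rfl (by decide +kernel)
end

mutual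
theorem Z_c0_t94 : CovD 1 gZ [(233646325760, 13744209920), (123696316416, 41232105472), (381392519168, 65283555328)] :=
  covD_E kZ_eq (.n 2 (.n 1 (.n 0 (.n 2 (.l 0) (.l 0)) (.n 2 (.l 0) (.l 0))) (.n 2 (.n 0 (.l 0) (.l 0)) (.l 0))) (.n 0 (.n 1 (.n 0 (.l 0) (.l 0)) (.l 0)) (.n 2 (.l 0) (.l 0))))
    [(233646325760, 13744209920), (123696316416, 41232105472), (381392519168, 65283555328)] rfl (by decide +kernel)
theorem Z_c0_t95 : CovD 1 gZ [(233646325760, 13744209920), (123696316416, 41232105472), (511959629824, 65283555328)] :=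
  covD_E kZ_eq (.n 0 (.n 1 (.n 2 (.l 0) (.l 0)) (.n 2 (.l 0) (.l 0))) (.n 1 (.n 2 (.l 0) (.l 0)) (.n 2 (.l 0) (.l 0))))
    [(233646325760, 13744209920), (123696316416, 41232105472), (511959629824, 65283555328)] rfl (by decide +kernel)
end

mutual
theorem Z_c0_t99 : CovD 1 gZ [(254262640640, 6872104960), (20616052736, 20616052736), (446676074496, 130567110656)] :=
  covD_E kZ_eq (.n 2 (.n 2 (.n 2 (.n 0 (.l 0) (.l 0)) (.l 0)) (.n 2 (.l 0) (.l 0))) (.n 2 (.n 2 (.l 0) (.l 0)) (.n 0 (.l 0) (.l 0))))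
    [(254262640640, 6872104960), (20616052736, 20616052736), (446676074496, 130567110656)] rfl (by decide +kernel)
theorem Z_c0_t100 : CovD 1 gZ [(254262640640, 6872104960), (61848158208, 20616052736), (446676074496, 130567110656)] :=
  covD_E kZ_eq (.n 2 (.n 2 (.n 2 (.l 0) (.l 0)) (.n 2 (.l 0) (.l 0))) (.n 0 (.n 2 (.l 0) (.l 0)) (.n 2 (.l 0) (.l 0))))
    [(254262640640, 6872104960), (61848158208, 20616052736), (446676074496, 130567110656)] rfl (by decide +kernel)
end

mutual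
theorem Z_c0_t102 : CovD 1 gZ [(268006850560, 6872104960), (20616052736, 20616052736), (446676074496, 130567110656)] :=
  covD_E kZ_eq (.n 2 (.n 2 (.n 2 (.n 0 (.l 0) (.l 0)) (.l 0)) (.n 2 (.l 0) (.l 0))) (.n 2 (.n 2 (.l 0) (.l 0)) (.n 0 (.l 0) (.l 0))))
    [(268006850560, 6872104960), (20616052736, 20616052736), (446676074496, 130567110656)] rfl (by decide +kernel)
theorem Z_c0_t103 : CovD 1 gZ [(268006850560, 6872104960), (61848158208, 20616052736), (446676074496, 130567110656)] :=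
  covD_E kZ_eq (.n 2 (.n 2 (.n 2 (.l 0) (.l 0)) (.n 2 (.l 0) (.l 0))) (.n 0 (.n 2 (.l 0) (.l 0)) (.n 2 (.l 0) (.l 0))))
    [(268006850560, 6872104960), (61848158208, 20616052736), (446676074496, 130567110656)] rfl (by decide +kernel)
end

mutual
theorem Z_c0_t105 : CovD 1 gZ [(261134745600, 13744209920), (123696316416, 41232105472), (381392519168, 65283555328)] :=
  covD_E kZ_eq (.n 2 (.n 1 (.n 0 (.n 2 (.l 0) (.l 0)) (.n 2 (.l 0) (.l 0))) (.n 2 (.l 0) (.l 0))) (.n 0 (.n 2 (.l 0) (.l 0)) (.n 2 (.l 0) (.l 0))))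
    [(261134745600, 13744209920), (123696316416, 41232105472), (381392519168, 65283555328)] rfl (by decide +kernel)
theorem Z_c0_t106 : CovD 1 gZ [(261134745600, 13744209920), (123696316416, 41232105472), (511959629824, 65283555328)] :=
  covD_E kZ_eq (.n 0 (.n 1 (.n 2 (.l 0) (.l 0)) (.n 2 (.l 0) (.l 0))) (.n 2 (.n 2 (.l 0) (.l 0)) (.n 0 (.l 0) (.l 0))))
    [(261134745600, 13744209920), (123696316416, 41232105472), (511959629824, 65283555328)] rfl (by decide +kernel)
end

theorem Z_c0_t9 : CovD 1 gZ [(226774220800, 6872104960), (10308026368, 10308026368), (152900075520, 32641777664)] :=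
  covD_split 2 (by decide +kernel) Z_c0_t10 Z_c0_t11

theorem Z_c0_t12 : CovD 1 gZ [(240518430720, 6872104960), (10308026368, 10308026368), (152900075520, 32641777664)] :=
  covD_split 1 (by decide +kernel) Z_c0_t13 Z_c0_t14

theorem Z_c0_t8 : CovD 1 gZ [(233646325760, 13744209920), (10308026368, 10308026368), (152900075520, 32641777664)] :=
  covD_split 0 (by decide +kernel) Z_c0_t9 Z_c0_t12

theorem Z_c0_t6 : CovD 1 gZ [(233646325760, 13744209920), (10308026368, 10308026368), (120258297856, 65283555328)] :=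
  covD_split 2 (by decide +kernel) Z_c0_t7 Z_c0_t8

theorem Z_c0_t15 : CovD 1 gZ [(233646325760, 13744209920), (30924079104, 10308026368), (120258297856, 65283555328)] :=
  covD_split 0 (by decide +kernel) Z_c0_t16 Z_c0_t17

theorem Z_c0_t5 : CovD 1 gZ [(233646325760, 13744209920), (20616052736, 20616052736), (120258297856, 65283555328)] :=
  covD_split 1 (by decide +kernel) Z_c0_t6 Z_c0_t15

theorem Z_c0_t18 : CovD 1 gZ [(233646325760, 13744209920), (61848158208, 20616052736), (120258297856, 65283555328)] :=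
  covD_split 0 (by decide +kernel) Z_c0_t19 Z_c0_t20

theorem Z_c0_t4 : CovD 1 gZ [(233646325760, 13744209920), (41232105472, 41232105472), (120258297856, 65283555328)] :=
  covD_split 1 (by decide +kernel) Z_c0_t5 Z_c0_t18

theorem Z_c0_t21 : CovD 1 gZ [(233646325760, 13744209920), (123696316416, 41232105472), (120258297856, 65283555328)] :=
  covD_split 1 (by decide +kernel) Z_c0_t22 Z_c0_t23

theorem Z_c0_t3 : CovD 1 gZ [(233646325760, 13744209920), (82464210944, 82464210944), (120258297856, 65283555328)] :=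
  covD_split 1 (by decide +kernel) Z_c0_t4 Z_c0_t21

theorem Z_c0_t30 : CovD 1 gZ [(254262640640, 6872104960), (10308026368, 10308026368), (152900075520, 32641777664)] :=
  covD_split 2 (by decide +kernel) Z_c0_t31 Z_c0_t32

theorem Z_c0_t29 : CovD 1 gZ [(261134745600, 13744209920), (10308026368, 10308026368), (152900075520, 32641777664)] :=
  covD_split 0 (by decide +kernel) Z_c0_t30 Z_c0_t33

theorem Z_c0_t27 : CovD 1 gZ [(261134745600, 13744209920), (10308026368, 10308026368), (120258297856, 65283555328)] :=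
  covD_split 2 (by decide +kernel) Z_c0_t28 Z_c0_t29

theorem Z_c0_t34 : CovD 1 gZ [(261134745600, 13744209920), (30924079104, 10308026368), (120258297856, 65283555328)] :=
  covD_split 2 (by decide +kernel) Z_c0_t35 Z_c0_t36

theorem Z_c0_t26 : CovD 1 gZ [(261134745600, 13744209920), (20616052736, 20616052736), (120258297856, 65283555328)] :=
  covD_split 1 (by decide +kernel) Z_c0_t27 Z_c0_t34

theorem Z_c0_t38 : CovD 1 gZ [(254262640640, 6872104960), (61848158208, 20616052736), (120258297856, 65283555328)] :=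
  covD_split 2 (by decide +kernel) Z_c0_t39 Z_c0_t40

theorem Z_c0_t37 : CovD 1 gZ [(261134745600, 13744209920), (61848158208, 20616052736), (120258297856, 65283555328)] :=
  covD_split 0 (by decide +kernel) Z_c0_t38 Z_c0_t41

theorem Z_c0_t25 : CovD 1 gZ [(261134745600, 13744209920), (41232105472, 41232105472), (120258297856, 65283555328)] :=
  covD_split 1 (by decide +kernel) Z_c0_t26 Z_c0_t37

theorem Z_c0_t42 : CovD 1 gZ [(261134745600, 13744209920), (123696316416, 41232105472), (120258297856, 65283555328)] :=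
  covD_split 1 (by decide +kernel) Z_c0_t43 Z_c0_t44

theorem Z_c0_t24 : CovD 1 gZ [(261134745600, 13744209920), (82464210944, 82464210944), (120258297856, 65283555328)] :=
  covD_split 1 (by decide +kernel) Z_c0_t25 Z_c0_t42

theorem Z_c0_t2 : CovD 1 gZ [(247390535680, 27488419840), (82464210944, 82464210944), (120258297856, 65283555328)] :=
  covD_split 0 (by decide +kernel) Z_c0_t3 Z_c0_t24

theorem Z_c0_t51 : CovD 1 gZ [(226774220800, 6872104960), (10308026368, 10308026368), (218183630848, 32641777664)] :=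
  covD_split 0 (by decide +kernel) Z_c0_t52 Z_c0_t53

theorem Z_c0_t50 : CovD 1 gZ [(226774220800, 6872104960), (10308026368, 10308026368), (250825408512, 65283555328)] :=
  covD_split 2 (by decide +kernel) Z_c0_t51 Z_c0_t54

theorem Z_c0_t49 : CovD 1 gZ [(226774220800, 6872104960), (20616052736, 20616052736), (250825408512, 65283555328)] :=
  covD_split 1 (by decide +kernel) Z_c0_t50 Z_c0_t55

theorem Z_c0_t48 : CovD 1 gZ [(226774220800, 6872104960), (41232105472, 41232105472), (250825408512, 65283555328)] :=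
  covD_split 1 (by decide +kernel) Z_c0_t49 Z_c0_t56

theorem Z_c0_t47 : CovD 1 gZ [(226774220800, 6872104960), (82464210944, 82464210944), (250825408512, 65283555328)] :=
  covD_split 1 (by decide +kernel) Z_c0_t48 Z_c0_t57

theorem Z_c0_t61 : CovD 1 gZ [(240518430720, 6872104960), (20616052736, 20616052736), (218183630848, 32641777664)] :=
  covD_split 1 (by decide +kernel) Z_c0_t62 Z_c0_t63

theorem Z_c0_t60 : CovD 1 gZ [(240518430720, 6872104960), (20616052736, 20616052736), (250825408512, 65283555328)] :=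
  covD_split 2 (by decide +kernel) Z_c0_t61 Z_c0_t64

theorem Z_c0_t59 : CovD 1 gZ [(240518430720, 6872104960), (41232105472, 41232105472), (250825408512, 65283555328)] :=
  covD_split 1 (by decide +kernel) Z_c0_t60 Z_c0_t65

theorem Z_c0_t58 : CovD 1 gZ [(240518430720, 6872104960), (82464210944, 82464210944), (250825408512, 65283555328)] :=
  covD_split 1 (by decide +kernel) Z_c0_t59 Z_c0_t66

theorem Z_c0_t46 : CovD 1 gZ [(233646325760, 13744209920), (82464210944, 82464210944), (250825408512, 65283555328)] :=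
  covD_split 0 (by decide +kernel) Z_c0_t47 Z_c0_t58

theorem Z_c0_t71 : CovD 1 gZ [(254262640640, 6872104960), (20616052736, 20616052736), (218183630848, 32641777664)] :=
  covD_split 1 (by decide +kernel) Z_c0_t72 Z_c0_t73

theorem Z_c0_t70 : CovD 1 gZ [(254262640640, 6872104960), (20616052736, 20616052736), (250825408512, 65283555328)] :=
  covD_split 2 (by decide +kernel) Z_c0_t71 Z_c0_t74

theorem Z_c0_t69 : CovD 1 gZ [(254262640640, 6872104960), (41232105472, 41232105472), (250825408512, 65283555328)] :=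
  covD_split 1 (by decide +kernel) Z_c0_t70 Z_c0_t75

theorem Z_c0_t68 : CovD 1 gZ [(254262640640, 6872104960), (82464210944, 82464210944), (250825408512, 65283555328)] :=
  covD_split 1 (by decide +kernel) Z_c0_t69 Z_c0_t76

theorem Z_c0_t79 : CovD 1 gZ [(268006850560, 6872104960), (20616052736, 20616052736), (250825408512, 65283555328)] :=
  covD_split 2 (by decide +kernel) Z_c0_t80 Z_c0_t81

theorem Z_c0_t78 : CovD 1 gZ [(268006850560, 6872104960), (41232105472, 41232105472), (250825408512, 65283555328)] :=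
  covD_split 1 (by decide +kernel) Z_c0_t79 Z_c0_t82

theorem Z_c0_t77 : CovD 1 gZ [(268006850560, 6872104960), (82464210944, 82464210944), (250825408512, 65283555328)] :=
  covD_split 1 (by decide +kernel) Z_c0_t78 Z_c0_t83

theorem Z_c0_t67 : CovD 1 gZ [(261134745600, 13744209920), (82464210944, 82464210944), (250825408512, 65283555328)] :=
  covD_split 0 (by decide +kernel) Z_c0_t68 Z_c0_t77

theorem Z_c0_t45 : CovD 1 gZ [(247390535680, 27488419840), (82464210944, 82464210944), (250825408512, 65283555328)] :=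
  covD_split 0 (by decide +kernel) Z_c0_t46 Z_c0_t67

theorem Z_c0_t1 : CovD 1 gZ [(247390535680, 27488419840), (82464210944, 82464210944), (185541853184, 130567110656)] :=
  covD_split 2 (by decide +kernel) Z_c0_t2 Z_c0_t45

theorem Z_c0_t87 : CovD 1 gZ [(226774220800, 6872104960), (41232105472, 41232105472), (446676074496, 130567110656)] :=
  covD_split 1 (by decide +kernel) Z_c0_t88 Z_c0_t89

theorem Z_c0_t90 : CovD 1 gZ [(240518430720, 6872104960), (41232105472, 41232105472), (446676074496, 130567110656)] :=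
  covD_split 1 (by decide +kernel) Z_c0_t91 Z_c0_t92

theorem Z_c0_t86 : CovD 1 gZ [(233646325760, 13744209920), (41232105472, 41232105472), (446676074496, 130567110656)] :=
  covD_split 0 (by decide +kernel) Z_c0_t87 Z_c0_t90

theorem Z_c0_t93 : CovD 1 gZ [(233646325760, 13744209920), (123696316416, 41232105472), (446676074496, 130567110656)] :=
  covD_split 2 (by decide +kernel) Z_c0_t94 Z_c0_t95

theorem Z_c0_t85 : CovD 1 gZ [(233646325760, 13744209920), (82464210944, 82464210944), (446676074496, 130567110656)] :=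
  covD_split 1 (by decide +kernel) Z_c0_t86 Z_c0_t93

theorem Z_c0_t98 : CovD 1 gZ [(254262640640, 6872104960), (41232105472, 41232105472), (446676074496, 130567110656)] :=
  covD_split 1 (by decide +kernel) Z_c0_t99 Z_c0_t100

theorem Z_c0_t101 : CovD 1 gZ [(268006850560, 6872104960), (41232105472, 41232105472), (446676074496, 130567110656)] :=
  covD_split 1 (by decide +kernel) Z_c0_t102 Z_c0_t103

theorem Z_c0_t97 : CovD 1 gZ [(261134745600, 13744209920), (41232105472, 41232105472), (446676074496, 130567110656)] :=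
  covD_split 0 (by decide +kernel) Z_c0_t98 Z_c0_t101

theorem Z_c0_t104 : CovD 1 gZ [(261134745600, 13744209920), (123696316416, 41232105472), (446676074496, 130567110656)] :=
  covD_split 2 (by decide +kernel) Z_c0_t105 Z_c0_t106

theorem Z_c0_t96 : CovD 1 gZ [(261134745600, 13744209920), (82464210944, 82464210944), (446676074496, 130567110656)] :=
  covD_split 1 (by decide +kernel) Z_c0_t97 Z_c0_t104

theorem Z_c0_t84 : CovD 1 gZ [(247390535680, 27488419840), (82464210944, 82464210944), (446676074496, 130567110656)] :=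
  covD_split 0 (by decide +kernel) Z_c0_t85 Z_c0_t96

theorem Z_c0 : CovD 1 gZ [(247390535680, 27488419840), (82464210944, 82464210944), (316108963840, 261134221312)] :=
  covD_split 2 (by decide +kernel) Z_c0_t1 Z_c0_t84

end Pool.Agent.helper14.NR.E4a
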