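import Pool.Agent.helper14.NR.E4a.Tab
import Pool.Agent.helper14.NR.Share

/-!
Generated: programs and compiled forms.
-/

namespace Pool.Agent.helper14.NR.E4a

open Pool.Agent.helper31.IA (Z)
open Pool.Agent.helper31.IX (Op XOps runX Cov CovD cov_split covD_split)
open Pool.Agent.helper31.IC (TD)
open Pool.Agent.helper63.RG (reloc)
open Pool.Agent.helper63.NF hiding TD
open Pool.Agent.helper14.CF (xE covD_E)
open Pool.Agent.helper14.NR (share)

def p2_2 : List Op := [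
  .pos 0,
  .inv 0,
  .mul 1 2,
  .scale ⟨2199023255552, 0, 0, 0⟩ 0,
  .exp 1,
  .neg 2,
  .exp 0,
  .mul 2 2,
  .mul 1 1,
  .mul 0 0,
  .sub 5 3,
  .add 6 4,
  .mul 1 0,
  .scale ⟨549755813888, 0, 0, 0⟩ 0,
  .mul 3 3,
  .mul 1 13,
  .scale ⟨2199023255552, 0, 0, 0⟩ 16,
  .neg 0,
  .exp 0,
  .const ⟨1099511627776, 0, 0, 0⟩,
  .add 1 0,
  .pos 0,
  .inv 0,
  .mul 3 0,
  .add 15 14,
  .scale ⟨549755813888, 0, 0, 0⟩ 0,
  .const ⟨247497490432, 0, 0, 0⟩,
  .sub 25 0,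
  .mul 27 27,
  .mul 0 28,
  .mul 2 29,
  .mul 3 2,
  .mul 4 4,
  .mul 0 32,
  .mul 1 6,
  .scale ⟨138976701120, 0, 0, 0⟩ 34,
  .scale ⟨20233772544, 0, 0, 0⟩ 7,
  .add 1 0,
  .scale ⟨0, 227194918400, 0, 0⟩ 8,
  .add 1 0,
  .scale ⟨0, 128692992, 0, 0⟩ 12,
  .add 1 0,
  .scale ⟨699945991616, 0, 0, 0⟩ 11,
  .add 1 0,
  .scale ⟨0, 2102219943168, 0, 0⟩ 12,
  .add 1 0,
  .scale ⟨0, 55367299328, 0, 0⟩ 13,
  .add 1 0,
  .scale ⟨4824371284288, 0, 0, 0⟩ 14,
  .add 1 0,
  .scale ⟨0, 530563540672, 0, 0⟩ 15,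
  .add 1 0,
  .const ⟨546393748928, 0, 0, 0⟩,
  .add 1 0,
  .scale ⟨0, 42594457152, 0, 0⟩ 53,
  .scale ⟨0, 20537175168, 0, 0⟩ 26,
  .add 1 0,
  .scale ⟨153709500864, 0, 0, 0⟩ 29,
  .add 1 0,
  .scale ⟨0, 188024172160, 0, 0⟩ 28,
  .add 1 0,
  .scale ⟨1632830080, 0, 0, 0⟩ 28,
  .add 1 0,
  .const ⟨38346253248, 0, 0, 0⟩,
  .add 1 0,
  .scale ⟨3759430144, 0, 0, 0⟩ 64,
  .scale ⟨0, 39819967424, 0, 0⟩ 38,
  .add 1 0,
  .const ⟨0, 11945195904, 0, 0⟩,
  .add 1 0,
  .add 44 70,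
  .pos 0,
  .inv 0,
  .mul 0 0,
  .sub 52 0,
  .mul 0 71,
  .sub 64 2,
  .mul 0 73,
  .scale ⟨0, 24035392, 0, 0⟩ 2,
  .const ⟨1100389312, 0, 0, 0⟩,
  .add 1 0,
  .mul 5 0,
  .add 0 11,
  .mul 7 0,
  .add 0 18,
  .mul 9 0,
  .add 0 31,
  .mul 9 0,
  .neg 0,
  .exp 0,
  .sub 0 68,
  .add 0 69,
  .mul 71 0,
  .add 0 71,
  .pos 0,
  .mul 69 3,
  .add 0 73,
  .pos 0,
  .log 0,
  .add 96 81,
  .scale ⟨89289523200, 0, 0, 0⟩ 96,
  .scale ⟨0, 2108816621568, 0, 0⟩ 69,
  .add 1 0,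
  .scale ⟨4096222822400, 0, 0, 0⟩ 70,
  .add 1 0,
  .scale ⟨293599903744, 0, 0, 0⟩ 74,
  .add 1 0,
  .scale ⟨0, 2621042982912, 0, 0⟩ 73,
  .add 1 0,
  .const ⟨124777070592, 0, 0, 0⟩,
  .add 1 0,
  .scale ⟨879662989312, 0, 0, 0⟩ 108,
  .add 0 107,
  .pos 0,
  .inv 0,
  .mul 14 3,
  .scale ⟨2199023255552, 0, 0, 0⟩ 0,
  .mul 0 2,
  .mul 0 115,
  .sub 94 0,
  .pos 0,
  .log 0,
  .mul 25 2,
  .add 0 97,
  .pos 0,
  .log 0,
  .sub 94 48,
  .add 0 95,
  .add 35 2,
  .sub 0 6,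
  .mul 0 122,
  .add 120 0,
  .exp 0,
  .sub 0 106,
  .sub 41 11,
  .sub 0 9,
  .scale ⟨2199023255552, 0, 0, 0⟩ 34,
  .add 1 0,
  .mul 0 130,
  .exp 0,
  .sub 0 113,
  .add 61 119,
  .mul 8 0,
  .mul 16 16,
  .scale ⟨2199023255552, 0, 0, 0⟩ 0,
  .sub 2 0,
  .mul 124 124,
  .scale ⟨549755813888, 0, 0, 0⟩ 0,
  .sub 2 0,
  .mul 127 8,
  .const ⟨2199023255552, 0, 0, 0⟩,
  .add 17 0,
  .mul 2 0,
  .add 4 0,
  .pos 26,
  .inv 26,
  .mul 1 0,
  .mul 0 1,
  .add 0 130,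
  .pos 0,
  .log 0,
  .scale ⟨549755813888, 0, 0, 0⟩ 0,
  .exp 0,
  .sub 0 134,
  .mul 34 0,
  .add 36 0,
  .mul 36 148,
  .pos 0,
  .log 0,
  .add 0 6,
  .mul 0 158,
  .pos 65,
  .inv 65,
  .mul 153 92,
  .mul 1 0,
  .mul 0 8,
  .add 0 145,
  .pos 0,
  .mul 158 95,
  .mul 0 1,
  .scale ⟨2063642394624, 0, 0, 0⟩ 168,
  .scale ⟨0, 13222051446784, 0, 0⟩ 141,
  .add 1 0,
  .scale ⟨32441519308800, 0, 0, 0⟩ 142,
  .add 1 0,
  .scale ⟨0, 474429390848, 0, 0⟩ 146,
  .add 1 0,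
  .scale ⟨0, 1005128450048, 0, 0⟩ 145,
  .add 1 0,
  .const ⟨1250153332736, 0, 0, 0⟩,
  .add 1 0,
  .scale ⟨3298534883328, 0, 0, 0⟩ 175,
  .exp 0,
  .pos 2,
  .scale ⟨2199023255552, 0, 0, 0⟩ 156,
  .mul 0 17,
  .mul 0 2,
  .inv 18,
  .mul 21 0,
  .inv 7,
  .mul 6 0,
  .mul 2 0,
  .mul 5 0,
  .lt 0 1099510579200,
  .mul 174 174,
  .const ⟨7345467817984, 0, 0, 0⟩,
  .add 1 0,
  .pos 0,
  .inv 0,
  .mul 37 192,
  .mul 0 0,
  .sub 0 5,
  .mul 0 3,
  .lt 0 1099510579200,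
  .scale ⟨1099511627776, 0, 0, 0⟩ 91,
  .pos 0,
  .inv 0,
  .scale ⟨0, 832634880, 0, 0⟩ 126,
  .const ⟨0, 4383178752, 0, 0⟩,
  .add 1 0,
  .mul 129 0,
  .scale ⟨12135956480, 0, 0, 0⟩ 204,
  .scale ⟨697863241728, 0, 0, 0⟩ 178,
  .add 1 0,
  .const ⟨152543232000, 0, 0, 0⟩,
  .add 1 0,
  .add 5 0,
  .mul 136 0,
  .scale ⟨0, 25453920256, 0, 0⟩ 211,
  .scale ⟨384126484480, 0, 0, 0⟩ 184,
  .add 1 0,
  .scale ⟨21710700544, 0, 0, 0⟩ 187,
  .add 1 0,
  .const ⟨1082303905792, 0, 0, 0⟩,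
  .add 1 0,
  .add 7 0,
  .mul 110 57,
  .mul 0 20,
  .scale ⟨549755813888, 0, 0, 0⟩ 0,
  .add 197 65,
  .pos 0,
  .inv 0,
  .mul 0 0,
  .sub 205 0,
  .mul 0 224,
  .sub 217 2,
  .mul 0 226,
  .scale ⟨0, 24035392, 0, 0⟩ 2,
  .const ⟨1100389312, 0, 0, 0⟩,
  .add 1 0,
  .mul 5 0,
  .add 0 164,
  .mul 7 0,
  .add 0 171,
  .mul 9 0,
  .add 0 184,
  .mul 9 0,
  .neg 0,
  .exp 0,
  .sub 0 221,
  .add 0 222,
  .mul 224 0,
  .add 0 224,
  .pos 0,
  .mul 222 3,
  .add 0 226,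
  .pos 0,
  .log 0,
  .scale ⟨659814350848, 0, 0, 0⟩ 91,
  .add 0 248,
  .pos 0,
  .inv 0,
  .scale ⟨39547371520, 0, 0, 0⟩ 251,
  .scale ⟨0, 1766120620032, 0, 0⟩ 224,
  .add 1 0,
  .scale ⟨3784910635008, 0, 0, 0⟩ 225,
  .add 1 0,
  .scale ⟨285848567808, 0, 0, 0⟩ 229,
  .add 1 0,
  .scale ⟨0, 2240029065216, 0, 0⟩ 228,
  .add 1 0,
  .const ⟨114697633792, 0, 0, 0⟩,
  .add 1 0,
  .scale ⟨1099511627776, 0, 0, 0⟩ 0,
  .mul 0 63,
  .mul 0 96,
  .mul 156 14,
  .mul 1 0,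
  .add 181 172,
  .sub 0 20,
  .sub 0 108,
  .exp 0,
  .const ⟨0, 0, 0, 0⟩,
  .mul 53 1,
  .mul 0 29,
  .mul 0 7,
  .rball 3 0,
  .sub 256 57,
  .mul 279 0,
  .sub 258 7,
  .scale ⟨1099511627776, 0, 0, 0⟩ 0,
  .mul 0 58,
  .mul 62 0,
  .add 4 0,
  .add 0 7,
  .lt 0 1099510579200]

set_option maxRecDepth 1000000 in
noncomputable def c2_2 {α : Type} (cst : Z → α) (add sub mul : α → α → α) (scale : Z → α → α)
    (neg inv exp log : α → α) (ok : α → Bool) (isPos : Nat → α → Bool) (isLt : α → Nat → Bool)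
    (ball : Nat → α → α) (rball : α → α → α) : List α → Bool
  | [x0, x1, x2, x3] =>
  isPos 3 x0 && (
  let v0 := inv x0; ok v0 && (
  let v1 := mul x0 x1; ok v1 && (
  let v2 := scale ⟨2199023255552, 0, 0, 0⟩ v1; ok v2 && (
  let v3 := exp v1; ok v3 && (
  let v4 := neg v1; ok v4 && (
  let v5 := exp v4; ok v5 && (
  let v6 := mul v3 v3; ok v6 && (
  let v7 := mul v5 v5; ok v7 && (
  let v8 := mul v7 v7; ok v8 && (
  let v9 := sub v3 v5; ok v9 && (
  let v10 := add v3 v5; ok v10 && (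
  let v11 := mul v9 v10; ok v11 && (
  let v12 := scale ⟨549755813888, 0, 0, 0⟩ v11; ok v12 && (
  let v13 := mul v9 v9; ok v13 && (
  let v14 := mul v12 v0; ok v14 && (
  let v15 := scale ⟨2199023255552, 0, 0, 0⟩ x1; ok v15 && (
  let v16 := neg v15; ok v16 && (
  let v17 := exp v16; ok v17 && (
  let v18 := cst ⟨1099511627776, 0, 0, 0⟩; ok v18 && (
  let v19 := add v17 v18; ok v19 && (
  isPos 3 v19 && (
  let v20 := inv v19; ok v20 && (
  let v21 := mul v17 v20; ok v21 && (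
  let v22 := add v6 v7; ok v22 && (
  let v23 := scale ⟨549755813888, 0, 0, 0⟩ v22; ok v23 && (
  let v24 := cst ⟨247497490432, 0, 0, 0⟩; ok v24 && (
  let v25 := sub x0 v24; ok v25 && (
  let v26 := mul x1 x1; ok v26 && (
  let v27 := mul v26 x1; ok v27 && (
  let v28 := mul v25 x1; ok v28 && (
  let v29 := mul v25 v26; ok v29 && (
  let v30 := mul v25 v25; ok v30 && (
  let v31 := mul v30 x1; ok v31 && (
  let v32 := mul v30 v25; ok v32 && (
  let v33 := scale ⟨138976701120, 0, 0, 0⟩ x1; ok v33 && (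
  let v34 := scale ⟨20233772544, 0, 0, 0⟩ v26; ok v34 && (
  let v35 := add v33 v34; ok v35 && (
  let v36 := scale ⟨0, 227194918400, 0, 0⟩ v27; ok v36 && (
  let v37 := add v35 v36; ok v37 && (
  let v38 := scale ⟨0, 128692992, 0, 0⟩ v25; ok v38 && (
  let v39 := add v37 v38; ok v39 && (
  let v40 := scale ⟨699945991616, 0, 0, 0⟩ v28; ok v40 && (
  let v41 := add v39 v40; ok v41 && (
  let v42 := scale ⟨0, 2102219943168, 0, 0⟩ v29; ok v42 && (
  let v43 := add v41 v42; ok v43 && (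
  let v44 := scale ⟨0, 55367299328, 0, 0⟩ v30; ok v44 && (
  let v45 := add v43 v44; ok v45 && (
  let v46 := scale ⟨4824371284288, 0, 0, 0⟩ v31; ok v46 && (
  let v47 := add v45 v46; ok v47 && (
  let v48 := scale ⟨0, 530563540672, 0, 0⟩ v32; ok v48 && (
  let v49 := add v47 v48; ok v49 && (
  let v50 := cst ⟨546393748928, 0, 0, 0⟩; ok v50 && (
  let v51 := add v49 v50; ok v51 && (
  let v52 := scale ⟨0, 42594457152, 0, 0⟩ x1; ok v52 && (
  let v53 := scale ⟨0, 20537175168, 0, 0⟩ v26; ok v53 && (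
  let v54 := add v52 v53; ok v54 && (
  let v55 := scale ⟨153709500864, 0, 0, 0⟩ v25; ok v55 && (
  let v56 := add v54 v55; ok v56 && (
  let v57 := scale ⟨0, 188024172160, 0, 0⟩ v28; ok v57 && (
  let v58 := add v56 v57; ok v58 && (
  let v59 := scale ⟨1632830080, 0, 0, 0⟩ v30; ok v59 && (
  let v60 := add v58 v59; ok v60 && (
  let v61 := cst ⟨38346253248, 0, 0, 0⟩; ok v61 && (
  let v62 := add v60 v61; ok v62 && (
  let v63 := scale ⟨3759430144, 0, 0, 0⟩ x1; ok v63 && (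
  let v64 := scale ⟨0, 39819967424, 0, 0⟩ v25; ok v64 && (
  let v65 := add v63 v64; ok v65 && (
  let v66 := cst ⟨0, 11945195904, 0, 0⟩; ok v66 && (
  let v67 := add v65 v66; ok v67 && (
  let v68 := add v23 x2; ok v68 && (
  isPos 3 v68 && (
  let v69 := inv v68; ok v69 && (
  let v70 := mul v69 v69; ok v70 && (
  let v71 := sub v18 v70; ok v71 && (
  let v72 := mul v71 v0; ok v72 && (
  let v73 := sub v8 v70; ok v73 && (
  let v74 := mul v73 v0; ok v74 && (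
  let v75 := scale ⟨0, 24035392, 0, 0⟩ v72; ok v75 && (
  let v76 := cst ⟨1100389312, 0, 0, 0⟩; ok v76 && (
  let v77 := add v75 v76; ok v77 && (
  let v78 := mul v72 v77; ok v78 && (
  let v79 := add v78 v67; ok v79 && (
  let v80 := mul v72 v79; ok v80 && (
  let v81 := add v80 v62; ok v81 && (
  let v82 := mul v72 v81; ok v82 && (
  let v83 := add v82 v51; ok v83 && (
  let v84 := mul v74 v83; ok v84 && (
  let v85 := neg v84; ok v85 && (
  let v86 := exp v85; ok v86 && (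
  let v87 := sub v86 v18; ok v87 && (
  let v88 := add v87 v18; ok v88 && (
  let v89 := mul v17 v88; ok v89 && (
  let v90 := add v89 v18; ok v90 && (
  isPos 3 v90 && (
  let v91 := mul v21 v87; ok v91 && (
  let v92 := add v91 v18; ok v92 && (
  isPos 3 v92 && (
  let v93 := log v92; ok v93 && (
  let v94 := add x2 v12; ok v94 && (
  let v95 := scale ⟨89289523200, 0, 0, 0⟩ x1; ok v95 && (
  let v96 := scale ⟨0, 2108816621568, 0, 0⟩ v26; ok v96 && (
  let v97 := add v95 v96; ok v97 && (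
  let v98 := scale ⟨4096222822400, 0, 0, 0⟩ v27; ok v98 && (
  let v99 := add v97 v98; ok v99 && (
  let v100 := scale ⟨293599903744, 0, 0, 0⟩ v25; ok v100 && (
  let v101 := add v99 v100; ok v101 && (
  let v102 := scale ⟨0, 2621042982912, 0, 0⟩ v28; ok v102 && (
  let v103 := add v101 v102; ok v103 && (
  let v104 := cst ⟨124777070592, 0, 0, 0⟩; ok v104 && (
  let v105 := add v103 v104; ok v105 && (
  let v106 := scale ⟨879662989312, 0, 0, 0⟩ x2; ok v106 && (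
  let v107 := add v106 x0; ok v107 && (
  isPos 3 v107 && (
  let v108 := inv v107; ok v108 && (
  let v109 := mul v94 v105; ok v109 && (
  let v110 := scale ⟨2199023255552, 0, 0, 0⟩ v109; ok v110 && (
  let v111 := mul v110 v108; ok v111 && (
  let v112 := mul v111 x3; ok v112 && (
  let v113 := sub v18 v112; ok v113 && (
  isPos 3 v113 && (
  let v114 := log v113; ok v114 && (
  let v115 := mul v89 v112; ok v115 && (
  let v116 := add v115 v18; ok v116 && (
  isPos 3 v116 && (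
  let v117 := log v116; ok v117 && (
  let v118 := sub v23 v69; ok v118 && (
  let v119 := add v118 v23; ok v119 && (
  let v120 := add v84 v117; ok v120 && (
  let v121 := sub v120 v114; ok v121 && (
  let v122 := mul v121 x0; ok v122 && (
  let v123 := add v2 v122; ok v123 && (
  let v124 := exp v123; ok v124 && (
  let v125 := sub v124 v18; ok v125 && (
  let v126 := sub v84 v114; ok v126 && (
  let v127 := sub v126 v117; ok v127 && (
  let v128 := scale ⟨2199023255552, 0, 0, 0⟩ v93; ok v128 && (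
  let v129 := add v127 v128; ok v129 && (
  let v130 := mul v129 x0; ok v130 && (
  let v131 := exp v130; ok v131 && (
  let v132 := sub v131 v18; ok v132 && (
  let v133 := add v71 v13; ok v133 && (
  let v134 := mul v125 v133; ok v134 && (
  let v135 := mul v118 v118; ok v135 && (
  let v136 := scale ⟨2199023255552, 0, 0, 0⟩ v135; ok v136 && (
  let v137 := sub v134 v136; ok v137 && (
  let v138 := mul v13 v13; ok v138 && (
  let v139 := scale ⟨549755813888, 0, 0, 0⟩ v138; ok v139 && (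
  let v140 := sub v137 v139; ok v140 && (
  let v141 := mul v13 v132; ok v141 && (
  let v142 := cst ⟨2199023255552, 0, 0, 0⟩; ok v142 && (
  let v143 := add v125 v142; ok v143 && (
  let v144 := mul v141 v143; ok v144 && (
  let v145 := add v140 v144; ok v145 && (
  isPos 3 v119 && (
  let v146 := inv v119; ok v146 && (
  let v147 := mul v145 v146; ok v147 && (
  let v148 := mul v147 v146; ok v148 && (
  let v149 := add v148 v18; ok v149 && (
  isPos 3 v149 && (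
  let v150 := log v149; ok v150 && (
  let v151 := scale ⟨549755813888, 0, 0, 0⟩ v150; ok v151 && (
  let v152 := exp v151; ok v152 && (
  let v153 := sub v152 v18; ok v153 && (
  let v154 := mul v119 v153; ok v154 && (
  let v155 := add v118 v154; ok v155 && (
  let v156 := mul v119 v7; ok v156 && (
  isPos 3 v156 && (
  let v157 := log v156; ok v157 && (
  let v158 := add v157 v151; ok v158 && (
  let v159 := mul v158 v0; ok v159 && (
  isPos 3 v94 && (
  let v160 := inv v94; ok v160 && (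
  let v161 := mul v7 v68; ok v161 && (
  let v162 := mul v160 v161; ok v162 && (
  let v163 := mul v162 v154; ok v163 && (
  let v164 := add v163 v18; ok v164 && (
  isPos 3 v164 && (
  let v165 := mul v6 v69; ok v165 && (
  let v166 := mul v165 v164; ok v166 && (
  let v167 := scale ⟨2063642394624, 0, 0, 0⟩ x1; ok v167 && (
  let v168 := scale ⟨0, 13222051446784, 0, 0⟩ v26; ok v168 && (
  let v169 := add v167 v168; ok v169 && (
  let v170 := scale ⟨32441519308800, 0, 0, 0⟩ v27; ok v170 && (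
  let v171 := add v169 v170; ok v171 && (
  let v172 := scale ⟨0, 474429390848, 0, 0⟩ v25; ok v172 && (
  let v173 := add v171 v172; ok v173 && (
  let v174 := scale ⟨0, 1005128450048, 0, 0⟩ v28; ok v174 && (
  let v175 := add v173 v174; ok v175 && (
  let v176 := cst ⟨1250153332736, 0, 0, 0⟩; ok v176 && (
  let v177 := add v175 v176; ok v177 && (
  let v178 := scale ⟨3298534883328, 0, 0, 0⟩ v2; ok v178 && (
  let v179 := exp v178; ok v179 && (
  isPos 3 v177 && (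
  let v180 := scale ⟨2199023255552, 0, 0, 0⟩ v23; ok v180 && (
  let v181 := mul v180 v163; ok v181 && (
  let v182 := mul v181 v179; ok v182 && (
  let v183 := inv v164; ok v183 && (
  let v184 := mul v162 v183; ok v184 && (
  let v185 := inv v177; ok v185 && (
  let v186 := mul v179 v185; ok v186 && (
  let v187 := mul v184 v186; ok v187 && (
  let v188 := mul v182 v187; ok v188 && (
  isLt v188 1099510579200 && (
  let v189 := mul v14 v14; ok v189 && (
  let v190 := cst ⟨7345467817984, 0, 0, 0⟩; ok v190 && (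
  let v191 := add v189 v190; ok v191 && (
  isPos 3 v191 && (
  let v192 := inv v191; ok v192 && (
  let v193 := mul v155 v0; ok v193 && (
  let v194 := mul v193 v193; ok v194 && (
  let v195 := sub v194 v189; ok v195 && (
  let v196 := mul v195 v192; ok v196 && (
  isLt v196 1099510579200 && (
  let v197 := scale ⟨1099511627776, 0, 0, 0⟩ v105; ok v197 && (
  isPos 3 v197 && (
  let v198 := inv v197; ok v198 && (
  let v199 := scale ⟨0, 832634880, 0, 0⟩ v72; ok v199 && (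
  let v200 := cst ⟨0, 4383178752, 0, 0⟩; ok v200 && (
  let v201 := add v199 v200; ok v201 && (
  let v202 := mul v72 v201; ok v202 && (
  let v203 := scale ⟨12135956480, 0, 0, 0⟩ x1; ok v203 && (
  let v204 := scale ⟨697863241728, 0, 0, 0⟩ v25; ok v204 && (
  let v205 := add v203 v204; ok v205 && (
  let v206 := cst ⟨152543232000, 0, 0, 0⟩; ok v206 && (
  let v207 := add v205 v206; ok v207 && (
  let v208 := add v202 v207; ok v208 && (
  let v209 := mul v72 v208; ok v209 && (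
  let v210 := scale ⟨0, 25453920256, 0, 0⟩ x1; ok v210 && (
  let v211 := scale ⟨384126484480, 0, 0, 0⟩ v26; ok v211 && (
  let v212 := add v210 v211; ok v212 && (
  let v213 := scale ⟨21710700544, 0, 0, 0⟩ v25; ok v213 && (
  let v214 := add v212 v213; ok v214 && (
  let v215 := cst ⟨1082303905792, 0, 0, 0⟩; ok v215 && (
  let v216 := add v214 v215; ok v216 && (
  let v217 := add v209 v216; ok v217 && (
  let v218 := mul v107 v160; ok v218 && (
  let v219 := mul v218 v198; ok v219 && (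
  let v220 := scale ⟨549755813888, 0, 0, 0⟩ v219; ok v220 && (
  let v221 := add v23 v155; ok v221 && (
  isPos 3 v221 && (
  let v222 := inv v221; ok v222 && (
  let v223 := mul v222 v222; ok v223 && (
  let v224 := sub v18 v223; ok v224 && (
  let v225 := mul v224 v0; ok v225 && (
  let v226 := sub v8 v223; ok v226 && (
  let v227 := mul v226 v0; ok v227 && (
  let v228 := scale ⟨0, 24035392, 0, 0⟩ v225; ok v228 && (
  let v229 := cst ⟨1100389312, 0, 0, 0⟩; ok v229 && (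
  let v230 := add v228 v229; ok v230 && (
  let v231 := mul v225 v230; ok v231 && (
  let v232 := add v231 v67; ok v232 && (
  let v233 := mul v225 v232; ok v233 && (
  let v234 := add v233 v62; ok v234 && (
  let v235 := mul v225 v234; ok v235 && (
  let v236 := add v235 v51; ok v236 && (
  let v237 := mul v227 v236; ok v237 && (
  let v238 := neg v237; ok v238 && (
  let v239 := exp v238; ok v239 && (
  let v240 := sub v239 v18; ok v240 && (
  let v241 := add v240 v18; ok v241 && (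
  let v242 := mul v17 v241; ok v242 && (
  let v243 := add v242 v18; ok v243 && (
  isPos 3 v243 && (
  let v244 := mul v21 v240; ok v244 && (
  let v245 := add v244 v18; ok v245 && (
  isPos 3 v245 && (
  let v246 := log v245; ok v246 && (
  let v247 := scale ⟨659814350848, 0, 0, 0⟩ v155; ok v247 && (
  let v248 := add v247 x0; ok v248 && (
  isPos 3 v248 && (
  let v249 := inv v248; ok v249 && (
  let v250 := scale ⟨39547371520, 0, 0, 0⟩ x1; ok v250 && (
  let v251 := scale ⟨0, 1766120620032, 0, 0⟩ v26; ok v251 && (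
  let v252 := add v250 v251; ok v252 && (
  let v253 := scale ⟨3784910635008, 0, 0, 0⟩ v27; ok v253 && (
  let v254 := add v252 v253; ok v254 && (
  let v255 := scale ⟨285848567808, 0, 0, 0⟩ v25; ok v255 && (
  let v256 := add v254 v255; ok v256 && (
  let v257 := scale ⟨0, 2240029065216, 0, 0⟩ v28; ok v257 && (
  let v258 := add v256 v257; ok v258 && (
  let v259 := cst ⟨114697633792, 0, 0, 0⟩; ok v259 && (
  let v260 := add v258 v259; ok v260 && (
  let v261 := scale ⟨1099511627776, 0, 0, 0⟩ v260; ok v261 && (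
  let v262 := mul v261 v198; ok v262 && (
  let v263 := mul v262 v166; ok v263 && (
  let v264 := mul v107 v249; ok v264 && (
  let v265 := mul v263 v264; ok v265 && (
  let v266 := add v84 v93; ok v266 && (
  let v267 := sub v266 v246; ok v267 && (
  let v268 := sub v267 v159; ok v268 && (
  let v269 := exp v268; ok v269 && (
  let v270 := cst ⟨0, 0, 0, 0⟩; ok v270 && (
  let v271 := mul v217 v269; ok v271 && (
  let v272 := mul v271 v242; ok v272 && (
  let v273 := mul v272 v265; ok v273 && (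
  let v274 := rball v270 v273; ok v274 && (
  let v275 := sub v18 v217; ok v275 && (
  let v276 := mul x3 v275; ok v276 && (
  let v277 := sub v18 v269; ok v277 && (
  let v278 := scale ⟨1099511627776, 0, 0, 0⟩ v277; ok v278 && (
  let v279 := mul v278 v220; ok v279 && (
  let v280 := mul v217 v279; ok v280 && (
  let v281 := add v276 v280; ok v281 && (
  let v282 := add v281 v274; ok v282 && (
  isLt v282 1099510579200 && (
  true))))))))))))))))))))))))))))))))))))))))))))))))))))))))))))))))))))))))))))))))))))))))))))))))))))))))))))))))))))))))))))))))))))))))))))))))))))))))))))))))))))))))))))))))))))))))))))))))))))))))))))))))))))))))))))))))))))))))))))))))))))))))))))))))))))))))))))))))))))))))))))))))))))))))))))))))))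
  | _ => false

set_option maxRecDepth 1000000 in
theorem c2_2_eq (X : XOps) (m : List X.O.α)
    (h : c2_2 X.O.cst X.O.add X.O.sub X.O.mul X.O.scale X.O.neg X.O.inv X.O.exp X.O.log X.O.ok
      X.O.isPos X.O.isLt X.ball X.rball m = true) :
    runX X 3 p2_2 m = true := by
  match m, h with
  | [x0, x1, x2, x3], h => exact h

def p1_A2 : List Op := [
  .mul 0 1,
  .scale ⟨2199023255552, 0, 0, 0⟩ 0,
  .exp 1,
  .neg 2,
  .exp 0,
  .mul 0 0,
  .sub 3 1,
  .add 4 2,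
  .mul 1 0,
  .scale ⟨549755813888, 0, 0, 0⟩ 0,
  .inv 10,
  .mul 1 0,
  .const ⟨1099511627776, 0, 0, 0⟩,
  .const ⟨247497490432, 0, 0, 0⟩,
  .sub 14 0,
  .mul 16 16,
  .mul 0 17,
  .mul 2 18,
  .scale ⟨5175286890496, 0, 0, 0⟩ 19,
  .scale ⟨0, 24777642999808, 0, 0⟩ 3,
  .add 1 0,
  .scale ⟨125369318244352, 0, 0, 0⟩ 4,
  .add 1 0,
  .scale ⟨0, 1400135548928, 0, 0⟩ 8,
  .add 1 0,
  .scale ⟨32078577336320, 0, 0, 0⟩ 7,
  .add 1 0,
  .const ⟨2830249492480, 0, 0, 0⟩,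
  .add 1 0,
  .scale ⟨4398046511104, 0, 0, 0⟩ 27,
  .neg 0,
  .exp 0,
  .mul 26 26,
  .mul 23 4,
  .add 0 21,
  .mul 3 0,
  .scale ⟨1099511627776, 0, 0, 0⟩ 3,
  .add 0 24,
  .mul 32 0,
  .scale ⟨2199023255552, 0, 0, 0⟩ 0,
  .mul 11 8,
  .sub 1 0,
  .mul 32 32,
  .mul 0 1,
  .add 8 31,
  .mul 45 47,
  .scale ⟨0, 0, 1099511627776, 0⟩ 0,
  .mul 0 2,
  .add 4 0,
  .mul 2 7,
  .add 5 0,
  .inv 0,
  .mul 3 0]

set_option maxRecDepth 1000000 in
noncomputable def c_A2_0 {α : Type} (cst : Z → α) (add sub mul : α → α → α) (scale : Z → α → α)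
    (neg inv exp log : α → α) (ok : α → Bool) (isPos : Nat → α → Bool) (isLt : α → Nat → Bool)
    (ball : Nat → α → α) (rball : α → α → α) : List α → Bool
  | [x0, x1, x2, x3] =>
  let v0 := mul x0 x1; ok v0 && (
  let v1 := scale ⟨2199023255552, 0, 0, 0⟩ v0; ok v1 && (
  let v2 := exp v0; ok v2 && (
  let v3 := neg v0; ok v3 && (
  let v4 := exp v3; ok v4 && (
  let v5 := mul v4 v4; ok v5 && (
  let v6 := sub v2 v4; ok v6 && (
  let v7 := add v2 v4; ok v7 && (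
  let v8 := mul v6 v7; ok v8 && (
  let v9 := scale ⟨549755813888, 0, 0, 0⟩ v8; ok v9 && (
  let v10 := inv x0; ok v10 && (
  let v11 := mul v9 v10; ok v11 && (
  let v12 := cst ⟨1099511627776, 0, 0, 0⟩; ok v12 && (
  let v13 := cst ⟨247497490432, 0, 0, 0⟩; ok v13 && (
  let v14 := sub x0 v13; ok v14 && (
  let v15 := mul x1 x1; ok v15 && (
  let v16 := mul v15 x1; ok v16 && (
  let v17 := mul v14 x1; ok v17 && (
  let v18 := scale ⟨5175286890496, 0, 0, 0⟩ x1; ok v18 && (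
  let v19 := scale ⟨0, 24777642999808, 0, 0⟩ v15; ok v19 && (
  let v20 := add v18 v19; ok v20 && (
  let v21 := scale ⟨125369318244352, 0, 0, 0⟩ v16; ok v21 && (
  let v22 := add v20 v21; ok v22 && (
  let v23 := scale ⟨0, 1400135548928, 0, 0⟩ v14; ok v23 && (
  let v24 := add v22 v23; ok v24 && (
  let v25 := scale ⟨32078577336320, 0, 0, 0⟩ v17; ok v25 && (
  let v26 := add v24 v25; ok v26 && (
  let v27 := cst ⟨2830249492480, 0, 0, 0⟩; ok v27 && (
  let v28 := add v26 v27; ok v28 && (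
  let v29 := scale ⟨4398046511104, 0, 0, 0⟩ v1; ok v29 && (
  let v30 := neg v29; ok v30 && (
  let v31 := exp v30; ok v31 && (
  let v32 := mul v5 v5; ok v32 && (
  let v33 := mul v9 v28; ok v33 && (
  let v34 := add v33 v12; ok v34 && (
  let v35 := mul v31 v34; ok v35 && (
  let v36 := scale ⟨1099511627776, 0, 0, 0⟩ v32; ok v36 && (
  let v37 := add v36 v12; ok v37 && (
  let v38 := mul v5 v37; ok v38 && (
  let v39 := scale ⟨2199023255552, 0, 0, 0⟩ v38; ok v39 && (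
  let v40 := mul v28 v31; ok v40 && (
  let v41 := sub v39 v40; ok v41 && (
  let v42 := mul v9 v9; ok v42 && (
  let v43 := mul v42 v41; ok v43 && (
  let v44 := add v35 v12; ok v44 && (
  let v45 := mul x0 x2; ok v45 && (
  let v46 := scale ⟨0, 0, 1099511627776, 0⟩ v45; ok v46 && (
  let v47 := mul v46 v44; ok v47 && (
  let v48 := add v43 v47; ok v48 && (
  let v49 := mul v46 v41; ok v49 && (
  let v50 := add v44 v49; ok v50 && (
  let v51 := inv v50; ok v51 && (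
  let v52 := mul v48 v51; ok v52 && (
  c2_2 cst add sub mul scale neg inv exp log ok isPos isLt ball rball [x0, x1, v52, x3])))))))))))))))))))))))))))))))))))))))))))))))))))))
  | _ => false

set_option maxRecDepth 1000000 in
theorem c_A2_0_eq (X : XOps) (m : List X.O.α)
    (h : c_A2_0 X.O.cst X.O.add X.O.sub X.O.mul X.O.scale X.O.neg X.O.inv X.O.exp X.O.log X.O.ok
      X.O.isPos X.O.isLt X.ball X.rball m = true) :
    runX X 3 (p1_A2 ++ reloc [53, 54, 0, 56] 57 0 p2_2) m = true := by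
  match m, h with
  | [x0, x1, x2, x3], h => exact share (c2_2_eq X) [x0, x1, x2, x3] (Nat.le_of_ble_eq_true rfl) h

def p_A2_1 : List Op := [
  .mul 0 1,
  .scale ⟨2199023255552, 0, 0, 0⟩ 0,
  .exp 1,
  .neg 2,
  .exp 0,
  .mul 0 0,
  .sub 3 1,
  .add 4 2,
  .mul 1 0,
  .scale ⟨549755813888, 0, 0, 0⟩ 0,
  .inv 10,
  .mul 1 0,
  .const ⟨1099511627776, 0, 0, 0⟩,
  .const ⟨247497490432, 0, 0, 0⟩,
  .sub 14 0,
  .mul 16 16,
  .mul 0 17,
  .mul 2 18,
  .scale ⟨5175286890496, 0, 0, 0⟩ 19,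
  .scale ⟨0, 24777642999808, 0, 0⟩ 3,
  .add 1 0,
  .scale ⟨125369318244352, 0, 0, 0⟩ 4,
  .add 1 0,
  .scale ⟨0, 1400135548928, 0, 0⟩ 8,
  .add 1 0,
  .scale ⟨32078577336320, 0, 0, 0⟩ 7,
  .add 1 0,
  .const ⟨2830249492480, 0, 0, 0⟩,
  .add 1 0,
  .scale ⟨4398046511104, 0, 0, 0⟩ 27,
  .neg 0,
  .exp 0,
  .mul 26 26,
  .mul 23 4,
  .add 0 21,
  .mul 3 0,
  .scale ⟨1099511627776, 0, 0, 0⟩ 3,
  .add 0 24,
  .mul 32 0,
  .scale ⟨2199023255552, 0, 0, 0⟩ 0,
  .mul 11 8,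
  .sub 1 0,
  .mul 32 32,
  .mul 0 1,
  .add 8 31,
  .mul 45 47,
  .scale ⟨0, 0, 1099511627776, 0⟩ 0,
  .mul 0 2,
  .add 4 0,
  .mul 2 7,
  .add 5 0,
  .inv 0,
  .mul 3 0,
  .mul 43 43,
  .mul 54 54,
  .scale ⟨12837657247744, 0, 0, 0⟩ 0,
  .add 2 0,
  .mul 4 4,
  .sub 0 4,
  .inv 0,
  .mul 3 0,
  .lt 0 1099511627520]

set_option maxRecDepth 1000000 in
noncomputable def c_A2_1 {α : Type} (cst : Z → α) (add sub mul : α → α → α) (scale : Z → α → α)
    (neg inv exp log : α → α) (ok : α → Bool) (isPos : Nat → α → Bool) (isLt : α → Nat → Bool)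
    (ball : Nat → α → α) (rball : α → α → α) : List α → Bool
  | [x0, x1, x2, x3] =>
  let v0 := mul x0 x1; ok v0 && (
  let v1 := scale ⟨2199023255552, 0, 0, 0⟩ v0; ok v1 && (
  let v2 := exp v0; ok v2 && (
  let v3 := neg v0; ok v3 && (
  let v4 := exp v3; ok v4 && (
  let v5 := mul v4 v4; ok v5 && (
  let v6 := sub v2 v4; ok v6 && (
  let v7 := add v2 v4; ok v7 && (
  let v8 := mul v6 v7; ok v8 && (
  let v9 := scale ⟨549755813888, 0, 0, 0⟩ v8; ok v9 && (
  let v10 := inv x0; ok v10 && (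
  let v11 := mul v9 v10; ok v11 && (
  let v12 := cst ⟨1099511627776, 0, 0, 0⟩; ok v12 && (
  let v13 := cst ⟨247497490432, 0, 0, 0⟩; ok v13 && (
  let v14 := sub x0 v13; ok v14 && (
  let v15 := mul x1 x1; ok v15 && (
  let v16 := mul v15 x1; ok v16 && (
  let v17 := mul v14 x1; ok v17 && (
  let v18 := scale ⟨5175286890496, 0, 0, 0⟩ x1; ok v18 && (
  let v19 := scale ⟨0, 24777642999808, 0, 0⟩ v15; ok v19 && (
  let v20 := add v18 v19; ok v20 && (
  let v21 := scale ⟨125369318244352, 0, 0, 0⟩ v16; ok v21 && (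
  let v22 := add v20 v21; ok v22 && (
  let v23 := scale ⟨0, 1400135548928, 0, 0⟩ v14; ok v23 && (
  let v24 := add v22 v23; ok v24 && (
  let v25 := scale ⟨32078577336320, 0, 0, 0⟩ v17; ok v25 && (
  let v26 := add v24 v25; ok v26 && (
  let v27 := cst ⟨2830249492480, 0, 0, 0⟩; ok v27 && (
  let v28 := add v26 v27; ok v28 && (
  let v29 := scale ⟨4398046511104, 0, 0, 0⟩ v1; ok v29 && (
  let v30 := neg v29; ok v30 && (
  let v31 := exp v30; ok v31 && (
  let v32 := mul v5 v5; ok v32 && (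
  let v33 := mul v9 v28; ok v33 && (
  let v34 := add v33 v12; ok v34 && (
  let v35 := mul v31 v34; ok v35 && (
  let v36 := scale ⟨1099511627776, 0, 0, 0⟩ v32; ok v36 && (
  let v37 := add v36 v12; ok v37 && (
  let v38 := mul v5 v37; ok v38 && (
  let v39 := scale ⟨2199023255552, 0, 0, 0⟩ v38; ok v39 && (
  let v40 := mul v28 v31; ok v40 && (
  let v41 := sub v39 v40; ok v41 && (
  let v42 := mul v9 v9; ok v42 && (
  let v43 := mul v42 v41; ok v43 && (
  let v44 := add v35 v12; ok v44 && (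
  let v45 := mul x0 x2; ok v45 && (
  let v46 := scale ⟨0, 0, 1099511627776, 0⟩ v45; ok v46 && (
  let v47 := mul v46 v44; ok v47 && (
  let v48 := add v43 v47; ok v48 && (
  let v49 := mul v46 v41; ok v49 && (
  let v50 := add v44 v49; ok v50 && (
  let v51 := inv v50; ok v51 && (
  let v52 := mul v48 v51; ok v52 && (
  let v53 := mul v9 v9; ok v53 && (
  let v54 := mul x0 x0; ok v54 && (
  let v55 := scale ⟨12837657247744, 0, 0, 0⟩ v54; ok v55 && (
  let v56 := add v53 v55; ok v56 && (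
  let v57 := mul v52 v52; ok v57 && (
  let v58 := sub v57 v53; ok v58 && (
  let v59 := inv v58; ok v59 && (
  let v60 := mul v56 v59; ok v60 && (
  isLt v60 1099511627520 && (
  true))))))))))))))))))))))))))))))))))))))))))))))))))))))))))))))
  | _ => false

set_option maxRecDepth 1000000 in
theorem c_A2_1_eq (X : XOps) (m : List X.O.α)
    (h : c_A2_1 X.O.cst X.O.add X.O.sub X.O.mul X.O.scale X.O.neg X.O.inv X.O.exp X.O.log X.O.ok
      X.O.isPos X.O.isLt X.ball X.rball m = true) :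
    runX X 3 p_A2_1 m = true := by
  match m, h with
  | [x0, x1, x2, x3], h => exact h

def p_A2_2 : List Op := [
  .mul 0 1,
  .scale ⟨2199023255552, 0, 0, 0⟩ 0,
  .exp 1,
  .neg 2,
  .exp 0,
  .mul 0 0,
  .sub 3 1,
  .add 4 2,
  .mul 1 0,
  .scale ⟨549755813888, 0, 0, 0⟩ 0,
  .inv 10,
  .mul 1 0,
  .const ⟨1099511627776, 0, 0, 0⟩,
  .const ⟨247497490432, 0, 0, 0⟩,
  .sub 14 0,
  .mul 16 16,
  .mul 0 17,
  .mul 2 18,
  .scale ⟨5175286890496, 0, 0, 0⟩ 19,
  .scale ⟨0, 24777642999808, 0, 0⟩ 3,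
  .add 1 0,
  .scale ⟨125369318244352, 0, 0, 0⟩ 4,
  .add 1 0,
  .scale ⟨0, 1400135548928, 0, 0⟩ 8,
  .add 1 0,
  .scale ⟨32078577336320, 0, 0, 0⟩ 7,
  .add 1 0,
  .const ⟨2830249492480, 0, 0, 0⟩,
  .add 1 0,
  .scale ⟨4398046511104, 0, 0, 0⟩ 27,
  .neg 0,
  .exp 0,
  .mul 26 26,
  .mul 23 4,
  .add 0 21,
  .mul 3 0,
  .scale ⟨1099511627776, 0, 0, 0⟩ 3,
  .add 0 24,
  .mul 32 0,
  .scale ⟨2199023255552, 0, 0, 0⟩ 0,
  .mul 11 8,
  .sub 1 0,
  .mul 32 32,
  .mul 0 1,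
  .add 8 31,
  .mul 45 47,
  .scale ⟨0, 0, 1099511627776, 0⟩ 0,
  .mul 0 2,
  .add 4 0,
  .mul 2 7,
  .add 5 0,
  .inv 0,
  .mul 3 0,
  .inv 53,
  .mul 1 0,
  .scale ⟨8796093022208, 0, 0, 0⟩ 0,
  .lt 0 1099511627520]

set_option maxRecDepth 1000000 in
noncomputable def c_A2_2 {α : Type} (cst : Z → α) (add sub mul : α → α → α) (scale : Z → α → α)
    (neg inv exp log : α → α) (ok : α → Bool) (isPos : Nat → α → Bool) (isLt : α → Nat → Bool)
    (ball : Nat → α → α) (rball : α → α → α) : List α → Bool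
  | [x0, x1, x2, x3] =>
  let v0 := mul x0 x1; ok v0 && (
  let v1 := scale ⟨2199023255552, 0, 0, 0⟩ v0; ok v1 && (
  let v2 := exp v0; ok v2 && (
  let v3 := neg v0; ok v3 && (
  let v4 := exp v3; ok v4 && (
  let v5 := mul v4 v4; ok v5 && (
  let v6 := sub v2 v4; ok v6 && (
  let v7 := add v2 v4; ok v7 && (
  let v8 := mul v6 v7; ok v8 && (
  let v9 := scale ⟨549755813888, 0, 0, 0⟩ v8; ok v9 && (
  let v10 := inv x0; ok v10 && (
  let v11 := mul v9 v10; ok v11 && (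
  let v12 := cst ⟨1099511627776, 0, 0, 0⟩; ok v12 && (
  let v13 := cst ⟨247497490432, 0, 0, 0⟩; ok v13 && (
  let v14 := sub x0 v13; ok v14 && (
  let v15 := mul x1 x1; ok v15 && (
  let v16 := mul v15 x1; ok v16 && (
  let v17 := mul v14 x1; ok v17 && (
  let v18 := scale ⟨5175286890496, 0, 0, 0⟩ x1; ok v18 && (
  let v19 := scale ⟨0, 24777642999808, 0, 0⟩ v15; ok v19 && (
  let v20 := add v18 v19; ok v20 && (
  let v21 := scale ⟨125369318244352, 0, 0, 0⟩ v16; ok v21 && (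
  let v22 := add v20 v21; ok v22 && (
  let v23 := scale ⟨0, 1400135548928, 0, 0⟩ v14; ok v23 && (
  let v24 := add v22 v23; ok v24 && (
  let v25 := scale ⟨32078577336320, 0, 0, 0⟩ v17; ok v25 && (
  let v26 := add v24 v25; ok v26 && (
  let v27 := cst ⟨2830249492480, 0, 0, 0⟩; ok v27 && (
  let v28 := add v26 v27; ok v28 && (
  let v29 := scale ⟨4398046511104, 0, 0, 0⟩ v1; ok v29 && (
  let v30 := neg v29; ok v30 && (
  let v31 := exp v30; ok v31 && (
  let v32 := mul v5 v5; ok v32 && (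
  let v33 := mul v9 v28; ok v33 && (
  let v34 := add v33 v12; ok v34 && (
  let v35 := mul v31 v34; ok v35 && (
  let v36 := scale ⟨1099511627776, 0, 0, 0⟩ v32; ok v36 && (
  let v37 := add v36 v12; ok v37 && (
  let v38 := mul v5 v37; ok v38 && (
  let v39 := scale ⟨2199023255552, 0, 0, 0⟩ v38; ok v39 && (
  let v40 := mul v28 v31; ok v40 && (
  let v41 := sub v39 v40; ok v41 && (
  let v42 := mul v9 v9; ok v42 && (
  let v43 := mul v42 v41; ok v43 && (
  let v44 := add v35 v12; ok v44 && (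
  let v45 := mul x0 x2; ok v45 && (
  let v46 := scale ⟨0, 0, 1099511627776, 0⟩ v45; ok v46 && (
  let v47 := mul v46 v44; ok v47 && (
  let v48 := add v43 v47; ok v48 && (
  let v49 := mul v46 v41; ok v49 && (
  let v50 := add v44 v49; ok v50 && (
  let v51 := inv v50; ok v51 && (
  let v52 := mul v48 v51; ok v52 && (
  let v53 := inv x0; ok v53 && (
  let v54 := mul v52 v53; ok v54 && (
  let v55 := scale ⟨8796093022208, 0, 0, 0⟩ v54; ok v55 && (
  isLt v55 1099511627520 && (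
  true)))))))))))))))))))))))))))))))))))))))))))))))))))))))))
  | _ => false

set_option maxRecDepth 1000000 in
theorem c_A2_2_eq (X : XOps) (m : List X.O.α)
    (h : c_A2_2 X.O.cst X.O.add X.O.sub X.O.mul X.O.scale X.O.neg X.O.inv X.O.exp X.O.log X.O.ok
      X.O.isPos X.O.isLt X.ball X.rball m = true) :
    runX X 3 p_A2_2 m = true := by
  match m, h with
  | [x0, x1, x2, x3], h => exact h

abbrev gA2 : List (List Op) := [(p1_A2 ++ reloc [53, 54, 0, 56] 57 0 p2_2), p_A2_1, p_A2_2]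

noncomputable abbrev kA2 : List (List xE.O.α → Bool) := [c_A2_0 xE.O.cst xE.O.add xE.O.sub xE.O.mul xE.O.scale xE.O.neg xE.O.inv xE.O.exp xE.O.log xE.O.ok
      xE.O.isPos xE.O.isLt xE.ball xE.rball, c_A2_1 xE.O.cst xE.O.add xE.O.sub xE.O.mul xE.O.scale xE.O.neg xE.O.inv xE.O.exp xE.O.log xE.O.ok
      xE.O.isPos xE.O.isLt xE.ball xE.rball, c_A2_2 xE.O.cst xE.O.add xE.O.sub xE.O.mul xE.O.scale xE.O.neg xE.O.inv xE.O.exp xE.O.log xE.O.ok
      xE.O.isPos xE.O.isLt xE.ball xE.rball]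

theorem kA2_eq : List.Forall₂ (fun (ops : List Op) (chk : List xE.O.α → Bool) =>
    ∀ m, chk m = true → runX xE 3 ops m = true) gA2 kA2 :=
  List.Forall₂.cons (c_A2_0_eq xE) (List.Forall₂.cons (c_A2_1_eq xE) (List.Forall₂.cons (c_A2_2_eq xE) List.Forall₂.nil))

theorem gA2_eq : gA2 = [circ (chA tab 2) (P2m tab 2), altP (chA tab 2) (outCut tab 2), altP (chA tab 2) (outIn tab)] := by decide +kernel

def p1_B2 : List Op := [
  .mul 0 1,
  .scale ⟨2199023255552, 0, 0, 0⟩ 0,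
  .exp 1,
  .neg 2,
  .exp 0,
  .mul 0 0,
  .sub 3 1,
  .add 4 2,
  .mul 1 0,
  .scale ⟨549755813888, 0, 0, 0⟩ 0,
  .inv 10,
  .mul 1 0,
  .const ⟨1099511627776, 0, 0, 0⟩,
  .const ⟨247497490432, 0, 0, 0⟩,
  .sub 14 0,
  .mul 16 16,
  .mul 0 17,
  .mul 2 18,
  .scale ⟨5175286890496, 0, 0, 0⟩ 19,
  .scale ⟨0, 24777642999808, 0, 0⟩ 3,
  .add 1 0,
  .scale ⟨125369318244352, 0, 0, 0⟩ 4,
  .add 1 0,
  .scale ⟨0, 1400135548928, 0, 0⟩ 8,
  .add 1 0,
  .scale ⟨32078577336320, 0, 0, 0⟩ 7,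
  .add 1 0,
  .const ⟨2830249492480, 0, 0, 0⟩,
  .add 1 0,
  .scale ⟨4398046511104, 0, 0, 0⟩ 27,
  .neg 0,
  .exp 0,
  .mul 26 26,
  .mul 23 4,
  .add 0 21,
  .mul 3 0,
  .scale ⟨1099511627776, 0, 0, 0⟩ 3,
  .add 0 24,
  .mul 32 0,
  .scale ⟨2199023255552, 0, 0, 0⟩ 0,
  .mul 11 8,
  .sub 1 0,
  .mul 32 32,
  .mul 0 1,
  .add 8 31,
  .mul 1 47,
  .mul 46 1,
  .scale ⟨0, 0, 1099511627776, 0⟩ 0,
  .add 2 0,
  .mul 4 51,
  .mul 50 8,
  .scale ⟨0, 0, 1099511627776, 0⟩ 0,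
  .add 2 0,
  .inv 0,
  .mul 5 0]

set_option maxRecDepth 1000000 in
noncomputable def c_B2_0 {α : Type} (cst : Z → α) (add sub mul : α → α → α) (scale : Z → α → α)
    (neg inv exp log : α → α) (ok : α → Bool) (isPos : Nat → α → Bool) (isLt : α → Nat → Bool)
    (ball : Nat → α → α) (rball : α → α → α) : List α → Bool
  | [x0, x1, x2, x3] =>
  let v0 := mul x0 x1; ok v0 && (
  let v1 := scale ⟨2199023255552, 0, 0, 0⟩ v0; ok v1 && (
  let v2 := exp v0; ok v2 && (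
  let v3 := neg v0; ok v3 && (
  let v4 := exp v3; ok v4 && (
  let v5 := mul v4 v4; ok v5 && (
  let v6 := sub v2 v4; ok v6 && (
  let v7 := add v2 v4; ok v7 && (
  let v8 := mul v6 v7; ok v8 && (
  let v9 := scale ⟨549755813888, 0, 0, 0⟩ v8; ok v9 && (
  let v10 := inv x0; ok v10 && (
  let v11 := mul v9 v10; ok v11 && (
  let v12 := cst ⟨1099511627776, 0, 0, 0⟩; ok v12 && (
  let v13 := cst ⟨247497490432, 0, 0, 0⟩; ok v13 && (
  let v14 := sub x0 v13; ok v14 && (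
  let v15 := mul x1 x1; ok v15 && (
  let v16 := mul v15 x1; ok v16 && (
  let v17 := mul v14 x1; ok v17 && (
  let v18 := scale ⟨5175286890496, 0, 0, 0⟩ x1; ok v18 && (
  let v19 := scale ⟨0, 24777642999808, 0, 0⟩ v15; ok v19 && (
  let v20 := add v18 v19; ok v20 && (
  let v21 := scale ⟨125369318244352, 0, 0, 0⟩ v16; ok v21 && (
  let v22 := add v20 v21; ok v22 && (
  let v23 := scale ⟨0, 1400135548928, 0, 0⟩ v14; ok v23 && (
  let v24 := add v22 v23; ok v24 && (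
  let v25 := scale ⟨32078577336320, 0, 0, 0⟩ v17; ok v25 && (
  let v26 := add v24 v25; ok v26 && (
  let v27 := cst ⟨2830249492480, 0, 0, 0⟩; ok v27 && (
  let v28 := add v26 v27; ok v28 && (
  let v29 := scale ⟨4398046511104, 0, 0, 0⟩ v1; ok v29 && (
  let v30 := neg v29; ok v30 && (
  let v31 := exp v30; ok v31 && (
  let v32 := mul v5 v5; ok v32 && (
  let v33 := mul v9 v28; ok v33 && (
  let v34 := add v33 v12; ok v34 && (
  let v35 := mul v31 v34; ok v35 && (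
  let v36 := scale ⟨1099511627776, 0, 0, 0⟩ v32; ok v36 && (
  let v37 := add v36 v12; ok v37 && (
  let v38 := mul v5 v37; ok v38 && (
  let v39 := scale ⟨2199023255552, 0, 0, 0⟩ v38; ok v39 && (
  let v40 := mul v28 v31; ok v40 && (
  let v41 := sub v39 v40; ok v41 && (
  let v42 := mul v9 v9; ok v42 && (
  let v43 := mul v42 v41; ok v43 && (
  let v44 := add v35 v12; ok v44 && (
  let v45 := mul v43 x2; ok v45 && (
  let v46 := mul x0 v44; ok v46 && (
  let v47 := scale ⟨0, 0, 1099511627776, 0⟩ v46; ok v47 && (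
  let v48 := add v45 v47; ok v48 && (
  let v49 := mul v44 x2; ok v49 && (
  let v50 := mul x0 v41; ok v50 && (
  let v51 := scale ⟨0, 0, 1099511627776, 0⟩ v50; ok v51 && (
  let v52 := add v49 v51; ok v52 && (
  let v53 := inv v52; ok v53 && (
  let v54 := mul v48 v53; ok v54 && (
  c2_2 cst add sub mul scale neg inv exp log ok isPos isLt ball rball [x0, x1, v54, x3])))))))))))))))))))))))))))))))))))))))))))))))))))))))
  | _ => false

set_option maxRecDepth 1000000 in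
theorem c_B2_0_eq (X : XOps) (m : List X.O.α)
    (h : c_B2_0 X.O.cst X.O.add X.O.sub X.O.mul X.O.scale X.O.neg X.O.inv X.O.exp X.O.log X.O.ok
      X.O.isPos X.O.isLt X.ball X.rball m = true) :
    runX X 3 (p1_B2 ++ reloc [55, 56, 0, 58] 59 0 p2_2) m = true := by
  match m, h with
  | [x0, x1, x2, x3], h => exact share (c2_2_eq X) [x0, x1, x2, x3] (Nat.le_of_ble_eq_true rfl) h

def p_B2_1 : List Op := [
  .mul 0 1,
  .scale ⟨2199023255552, 0, 0, 0⟩ 0,
  .exp 1,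
  .neg 2,
  .exp 0,
  .mul 0 0,
  .sub 3 1,
  .add 4 2,
  .mul 1 0,
  .scale ⟨549755813888, 0, 0, 0⟩ 0,
  .inv 10,
  .mul 1 0,
  .const ⟨1099511627776, 0, 0, 0⟩,
  .const ⟨247497490432, 0, 0, 0⟩,
  .sub 14 0,
  .mul 16 16,
  .mul 0 17,
  .mul 2 18,
  .scale ⟨5175286890496, 0, 0, 0⟩ 19,
  .scale ⟨0, 24777642999808, 0, 0⟩ 3,
  .add 1 0,
  .scale ⟨125369318244352, 0, 0, 0⟩ 4,
  .add 1 0,
  .scale ⟨0, 1400135548928, 0, 0⟩ 8,
  .add 1 0,
  .scale ⟨32078577336320, 0, 0, 0⟩ 7,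
  .add 1 0,
  .const ⟨2830249492480, 0, 0, 0⟩,
  .add 1 0,
  .scale ⟨4398046511104, 0, 0, 0⟩ 27,
  .neg 0,
  .exp 0,
  .mul 26 26,
  .mul 23 4,
  .add 0 21,
  .mul 3 0,
  .scale ⟨1099511627776, 0, 0, 0⟩ 3,
  .add 0 24,
  .mul 32 0,
  .scale ⟨2199023255552, 0, 0, 0⟩ 0,
  .mul 11 8,
  .sub 1 0,
  .mul 32 32,
  .mul 0 1,
  .add 8 31,
  .mul 1 47,
  .mul 46 1,
  .scale ⟨0, 0, 1099511627776, 0⟩ 0,
  .add 2 0,
  .mul 4 51,
  .mul 50 8,
  .scale ⟨0, 0, 1099511627776, 0⟩ 0,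
  .add 2 0,
  .inv 0,
  .mul 5 0,
  .mul 45 45,
  .mul 56 56,
  .scale ⟨12837657247744, 0, 0, 0⟩ 0,
  .add 2 0,
  .mul 4 4,
  .sub 0 4,
  .inv 0,
  .mul 3 0,
  .lt 0 1099511627520]

set_option maxRecDepth 1000000 in
noncomputable def c_B2_1 {α : Type} (cst : Z → α) (add sub mul : α → α → α) (scale : Z → α → α)
    (neg inv exp log : α → α) (ok : α → Bool) (isPos : Nat → α → Bool) (isLt : α → Nat → Bool)
    (ball : Nat → α → α) (rball : α → α → α) : List α → Bool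
  | [x0, x1, x2, x3] =>
  let v0 := mul x0 x1; ok v0 && (
  let v1 := scale ⟨2199023255552, 0, 0, 0⟩ v0; ok v1 && (
  let v2 := exp v0; ok v2 && (
  let v3 := neg v0; ok v3 && (
  let v4 := exp v3; ok v4 && (
  let v5 := mul v4 v4; ok v5 && (
  let v6 := sub v2 v4; ok v6 && (
  let v7 := add v2 v4; ok v7 && (
  let v8 := mul v6 v7; ok v8 && (
  let v9 := scale ⟨549755813888, 0, 0, 0⟩ v8; ok v9 && (
  let v10 := inv x0; ok v10 && (
  let v11 := mul v9 v10; ok v11 && (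
  let v12 := cst ⟨1099511627776, 0, 0, 0⟩; ok v12 && (
  let v13 := cst ⟨247497490432, 0, 0, 0⟩; ok v13 && (
  let v14 := sub x0 v13; ok v14 && (
  let v15 := mul x1 x1; ok v15 && (
  let v16 := mul v15 x1; ok v16 && (
  let v17 := mul v14 x1; ok v17 && (
  let v18 := scale ⟨5175286890496, 0, 0, 0⟩ x1; ok v18 && (
  let v19 := scale ⟨0, 24777642999808, 0, 0⟩ v15; ok v19 && (
  let v20 := add v18 v19; ok v20 && (
  let v21 := scale ⟨125369318244352, 0, 0, 0⟩ v16; ok v21 && (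
  let v22 := add v20 v21; ok v22 && (
  let v23 := scale ⟨0, 1400135548928, 0, 0⟩ v14; ok v23 && (
  let v24 := add v22 v23; ok v24 && (
  let v25 := scale ⟨32078577336320, 0, 0, 0⟩ v17; ok v25 && (
  let v26 := add v24 v25; ok v26 && (
  let v27 := cst ⟨2830249492480, 0, 0, 0⟩; ok v27 && (
  let v28 := add v26 v27; ok v28 && (
  let v29 := scale ⟨4398046511104, 0, 0, 0⟩ v1; ok v29 && (
  let v30 := neg v29; ok v30 && (
  let v31 := exp v30; ok v31 && (
  let v32 := mul v5 v5; ok v32 && (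
  let v33 := mul v9 v28; ok v33 && (
  let v34 := add v33 v12; ok v34 && (
  let v35 := mul v31 v34; ok v35 && (
  let v36 := scale ⟨1099511627776, 0, 0, 0⟩ v32; ok v36 && (
  let v37 := add v36 v12; ok v37 && (
  let v38 := mul v5 v37; ok v38 && (
  let v39 := scale ⟨2199023255552, 0, 0, 0⟩ v38; ok v39 && (
  let v40 := mul v28 v31; ok v40 && (
  let v41 := sub v39 v40; ok v41 && (
  let v42 := mul v9 v9; ok v42 && (
  let v43 := mul v42 v41; ok v43 && (
  let v44 := add v35 v12; ok v44 && (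
  let v45 := mul v43 x2; ok v45 && (
  let v46 := mul x0 v44; ok v46 && (
  let v47 := scale ⟨0, 0, 1099511627776, 0⟩ v46; ok v47 && (
  let v48 := add v45 v47; ok v48 && (
  let v49 := mul v44 x2; ok v49 && (
  let v50 := mul x0 v41; ok v50 && (
  let v51 := scale ⟨0, 0, 1099511627776, 0⟩ v50; ok v51 && (
  let v52 := add v49 v51; ok v52 && (
  let v53 := inv v52; ok v53 && (
  let v54 := mul v48 v53; ok v54 && (
  let v55 := mul v9 v9; ok v55 && (
  let v56 := mul x0 x0; ok v56 && (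
  let v57 := scale ⟨12837657247744, 0, 0, 0⟩ v56; ok v57 && (
  let v58 := add v55 v57; ok v58 && (
  let v59 := mul v54 v54; ok v59 && (
  let v60 := sub v59 v55; ok v60 && (
  let v61 := inv v60; ok v61 && (
  let v62 := mul v58 v61; ok v62 && (
  isLt v62 1099511627520 && (
  true))))))))))))))))))))))))))))))))))))))))))))))))))))))))))))))))
  | _ => false

set_option maxRecDepth 1000000 in
theorem c_B2_1_eq (X : XOps) (m : List X.O.α)
    (h : c_B2_1 X.O.cst X.O.add X.O.sub X.O.mul X.O.scale X.O.neg X.O.inv X.O.exp X.O.log X.O.ok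
      X.O.isPos X.O.isLt X.ball X.rball m = true) :
    runX X 3 p_B2_1 m = true := by
  match m, h with
  | [x0, x1, x2, x3], h => exact h

abbrev gB2 : List (List Op) := [(p1_B2 ++ reloc [55, 56, 0, 58] 59 0 p2_2), p_B2_1]

noncomputable abbrev kB2 : List (List xE.O.α → Bool) := [c_B2_0 xE.O.cst xE.O.add xE.O.sub xE.O.mul xE.O.scale xE.O.neg xE.O.inv xE.O.exp xE.O.log xE.O.ok
      xE.O.isPos xE.O.isLt xE.ball xE.rball, c_B2_1 xE.O.cst xE.O.add xE.O.sub xE.O.mul xE.O.scale xE.O.neg xE.O.inv xE.O.exp xE.O.log xE.O.ok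
      xE.O.isPos xE.O.isLt xE.ball xE.rball]

theorem kB2_eq : List.Forall₂ (fun (ops : List Op) (chk : List xE.O.α → Bool) =>
    ∀ m, chk m = true → runX xE 3 ops m = true) gB2 kB2 :=
  List.Forall₂.cons (c_B2_0_eq xE) (List.Forall₂.cons (c_B2_1_eq xE) List.Forall₂.nil)

theorem gB2_eq : gB2 = [circ (chB tab 2) (P2m tab 2), altP (chB tab 2) (outCut tab 2)] := by decide +kernel

def p1_C2 : List Op := [
  .mul 0 1,
  .scale ⟨2199023255552, 0, 0, 0⟩ 0,
  .exp 1,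
  .neg 2,
  .exp 0,
  .mul 0 0,
  .sub 3 1,
  .add 4 2,
  .mul 1 0,
  .scale ⟨549755813888, 0, 0, 0⟩ 0,
  .inv 10,
  .mul 1 0,
  .const ⟨1099511627776, 0, 0, 0⟩,
  .scale ⟨0, 0, 1099511627776, 0⟩ 15,
  .scale ⟨137438953472, 0, 0, 0⟩ 14,
  .add 1 2,
  .sub 3 2,
  .inv 0,
  .mul 2 0,
  .mul 4 0]

set_option maxRecDepth 1000000 in
noncomputable def c_C2_0 {α : Type} (cst : Z → α) (add sub mul : α → α → α) (scale : Z → α → α)
    (neg inv exp log : α → α) (ok : α → Bool) (isPos : Nat → α → Bool) (isLt : α → Nat → Bool)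
    (ball : Nat → α → α) (rball : α → α → α) : List α → Bool
  | [x0, x1, x2, x3] =>
  let v0 := mul x0 x1; ok v0 && (
  let v1 := scale ⟨2199023255552, 0, 0, 0⟩ v0; ok v1 && (
  let v2 := exp v0; ok v2 && (
  let v3 := neg v0; ok v3 && (
  let v4 := exp v3; ok v4 && (
  let v5 := mul v4 v4; ok v5 && (
  let v6 := sub v2 v4; ok v6 && (
  let v7 := add v2 v4; ok v7 && (
  let v8 := mul v6 v7; ok v8 && (
  let v9 := scale ⟨549755813888, 0, 0, 0⟩ v8; ok v9 && (
  let v10 := inv x0; ok v10 && (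
  let v11 := mul v9 v10; ok v11 && (
  let v12 := cst ⟨1099511627776, 0, 0, 0⟩; ok v12 && (
  let v13 := scale ⟨0, 0, 1099511627776, 0⟩ x2; ok v13 && (
  let v14 := scale ⟨137438953472, 0, 0, 0⟩ x0; ok v14 && (
  let v15 := add v13 v12; ok v15 && (
  let v16 := sub v12 v13; ok v16 && (
  let v17 := inv v16; ok v17 && (
  let v18 := mul v15 v17; ok v18 && (
  let v19 := mul v14 v18; ok v19 && (
  c2_2 cst add sub mul scale neg inv exp log ok isPos isLt ball rball [x0, x1, v19, x3]))))))))))))))))))))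
  | _ => false

set_option maxRecDepth 1000000 in
theorem c_C2_0_eq (X : XOps) (m : List X.O.α)
    (h : c_C2_0 X.O.cst X.O.add X.O.sub X.O.mul X.O.scale X.O.neg X.O.inv X.O.exp X.O.log X.O.ok
      X.O.isPos X.O.isLt X.ball X.rball m = true) :
    runX X 3 (p1_C2 ++ reloc [20, 21, 0, 23] 24 0 p2_2) m = true := by
  match m, h with
  | [x0, x1, x2, x3], h => exact share (c2_2_eq X) [x0, x1, x2, x3] (Nat.le_of_ble_eq_true rfl) h

def p_C2_1 : List Op := [
  .mul 0 1,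
  .scale ⟨2199023255552, 0, 0, 0⟩ 0,
  .exp 1,
  .neg 2,
  .exp 0,
  .mul 0 0,
  .sub 3 1,
  .add 4 2,
  .mul 1 0,
  .scale ⟨549755813888, 0, 0, 0⟩ 0,
  .inv 10,
  .mul 1 0,
  .const ⟨1099511627776, 0, 0, 0⟩,
  .scale ⟨0, 0, 1099511627776, 0⟩ 15,
  .scale ⟨137438953472, 0, 0, 0⟩ 14,
  .add 1 2,
  .sub 3 2,
  .inv 0,
  .mul 2 0,
  .mul 4 0,
  .const ⟨247497490432, 0, 0, 0⟩,
  .sub 21 0,
  .mul 23 23,
  .mul 0 24,
  .mul 2 25,
  .scale ⟨5175286890496, 0, 0, 0⟩ 26,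
  .scale ⟨0, 24777642999808, 0, 0⟩ 3,
  .add 1 0,
  .scale ⟨125369318244352, 0, 0, 0⟩ 4,
  .add 1 0,
  .scale ⟨0, 1400135548928, 0, 0⟩ 8,
  .add 1 0,
  .scale ⟨32078577336320, 0, 0, 0⟩ 7,
  .add 1 0,
  .const ⟨2830249492480, 0, 0, 0⟩,
  .add 1 0,
  .scale ⟨4398046511104, 0, 0, 0⟩ 34,
  .neg 0,
  .exp 0,
  .mul 33 33,
  .mul 30 4,
  .add 0 28,
  .mul 3 0,
  .scale ⟨1099511627776, 0, 0, 0⟩ 3,
  .add 0 31,
  .mul 39 0,
  .scale ⟨2199023255552, 0, 0, 0⟩ 0,
  .mul 11 8,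
  .sub 1 0,
  .scale ⟨2199023255552, 0, 0, 0⟩ 6,
  .add 7 37,
  .mul 2 0,
  .mul 0 32,
  .mul 10 10,
  .add 0 41,
  .sub 2 0,
  .inv 0,
  .mul 7 0,
  .lt 0 1099511627520]

set_option maxRecDepth 1000000 in
noncomputable def c_C2_1 {α : Type} (cst : Z → α) (add sub mul : α → α → α) (scale : Z → α → α)
    (neg inv exp log : α → α) (ok : α → Bool) (isPos : Nat → α → Bool) (isLt : α → Nat → Bool)
    (ball : Nat → α → α) (rball : α → α → α) : List α → Bool
  | [x0, x1, x2, x3] =>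
  let v0 := mul x0 x1; ok v0 && (
  let v1 := scale ⟨2199023255552, 0, 0, 0⟩ v0; ok v1 && (
  let v2 := exp v0; ok v2 && (
  let v3 := neg v0; ok v3 && (
  let v4 := exp v3; ok v4 && (
  let v5 := mul v4 v4; ok v5 && (
  let v6 := sub v2 v4; ok v6 && (
  let v7 := add v2 v4; ok v7 && (
  let v8 := mul v6 v7; ok v8 && (
  let v9 := scale ⟨549755813888, 0, 0, 0⟩ v8; ok v9 && (
  let v10 := inv x0; ok v10 && (
  let v11 := mul v9 v10; ok v11 && (
  let v12 := cst ⟨1099511627776, 0, 0, 0⟩; ok v12 && (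
  let v13 := scale ⟨0, 0, 1099511627776, 0⟩ x2; ok v13 && (
  let v14 := scale ⟨137438953472, 0, 0, 0⟩ x0; ok v14 && (
  let v15 := add v13 v12; ok v15 && (
  let v16 := sub v12 v13; ok v16 && (
  let v17 := inv v16; ok v17 && (
  let v18 := mul v15 v17; ok v18 && (
  let v19 := mul v14 v18; ok v19 && (
  let v20 := cst ⟨247497490432, 0, 0, 0⟩; ok v20 && (
  let v21 := sub x0 v20; ok v21 && (
  let v22 := mul x1 x1; ok v22 && (
  let v23 := mul v22 x1; ok v23 && (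
  let v24 := mul v21 x1; ok v24 && (
  let v25 := scale ⟨5175286890496, 0, 0, 0⟩ x1; ok v25 && (
  let v26 := scale ⟨0, 24777642999808, 0, 0⟩ v22; ok v26 && (
  let v27 := add v25 v26; ok v27 && (
  let v28 := scale ⟨125369318244352, 0, 0, 0⟩ v23; ok v28 && (
  let v29 := add v27 v28; ok v29 && (
  let v30 := scale ⟨0, 1400135548928, 0, 0⟩ v21; ok v30 && (
  let v31 := add v29 v30; ok v31 && (
  let v32 := scale ⟨32078577336320, 0, 0, 0⟩ v24; ok v32 && (
  let v33 := add v31 v32; ok v33 && (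
  let v34 := cst ⟨2830249492480, 0, 0, 0⟩; ok v34 && (
  let v35 := add v33 v34; ok v35 && (
  let v36 := scale ⟨4398046511104, 0, 0, 0⟩ v1; ok v36 && (
  let v37 := neg v36; ok v37 && (
  let v38 := exp v37; ok v38 && (
  let v39 := mul v5 v5; ok v39 && (
  let v40 := mul v9 v35; ok v40 && (
  let v41 := add v40 v12; ok v41 && (
  let v42 := mul v38 v41; ok v42 && (
  let v43 := scale ⟨1099511627776, 0, 0, 0⟩ v39; ok v43 && (
  let v44 := add v43 v12; ok v44 && (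
  let v45 := mul v5 v44; ok v45 && (
  let v46 := scale ⟨2199023255552, 0, 0, 0⟩ v45; ok v46 && (
  let v47 := mul v35 v38; ok v47 && (
  let v48 := sub v46 v47; ok v48 && (
  let v49 := scale ⟨2199023255552, 0, 0, 0⟩ v42; ok v49 && (
  let v50 := add v42 v12; ok v50 && (
  let v51 := mul v48 v50; ok v51 && (
  let v52 := mul v51 v19; ok v52 && (
  let v53 := mul v42 v42; ok v53 && (
  let v54 := add v53 v12; ok v54 && (
  let v55 := sub v52 v54; ok v55 && (
  let v56 := inv v55; ok v56 && (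
  let v57 := mul v49 v56; ok v57 && (
  isLt v57 1099511627520 && (
  true)))))))))))))))))))))))))))))))))))))))))))))))))))))))))))
  | _ => false

set_option maxRecDepth 1000000 in
theorem c_C2_1_eq (X : XOps) (m : List X.O.α)
    (h : c_C2_1 X.O.cst X.O.add X.O.sub X.O.mul X.O.scale X.O.neg X.O.inv X.O.exp X.O.log X.O.ok
      X.O.isPos X.O.isLt X.ball X.rball m = true) :
    runX X 3 p_C2_1 m = true := by
  match m, h with
  | [x0, x1, x2, x3], h => exact h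

abbrev gC2 : List (List Op) := [(p1_C2 ++ reloc [20, 21, 0, 23] 24 0 p2_2), p_C2_1]

noncomputable abbrev kC2 : List (List xE.O.α → Bool) := [c_C2_0 xE.O.cst xE.O.add xE.O.sub xE.O.mul xE.O.scale xE.O.neg xE.O.inv xE.O.exp xE.O.log xE.O.ok
      xE.O.isPos xE.O.isLt xE.ball xE.rball, c_C2_1 xE.O.cst xE.O.add xE.O.sub xE.O.mul xE.O.scale xE.O.neg xE.O.inv xE.O.exp xE.O.log xE.O.ok
      xE.O.isPos xE.O.isLt xE.ball xE.rball]

theorem kC2_eq : List.Forall₂ (fun (ops : List Op) (chk : List xE.O.α → Bool) =>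
    ∀ m, chk m = true → runX xE 3 ops m = true) gC2 kC2 :=
  List.Forall₂.cons (c_C2_0_eq xE) (List.Forall₂.cons (c_C2_1_eq xE) List.Forall₂.nil)

theorem gC2_eq : gC2 = [circ (chC tab) (P2m tab 2), altP (chC tab) (outDisc tab 2)] := by decide +kernel

def p1_D2 : List Op := [
  .mul 0 1,
  .scale ⟨2199023255552, 0, 0, 0⟩ 0,
  .exp 1,
  .neg 2,
  .exp 0,
  .mul 0 0,
  .sub 3 1,
  .add 4 2,
  .mul 1 0,
  .scale ⟨549755813888, 0, 0, 0⟩ 0,
  .inv 10,
  .mul 1 0,
  .const ⟨1099511627776, 0, 0, 0⟩,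
  .mul 1 1,
  .const ⟨12837657247744, 0, 0, 0⟩,
  .add 1 0,
  .scale ⟨0, 0, 1099511627776, 0⟩ 18,
  .exp 0,
  .mul 2 0,
  .add 5 0,
  .log 0,
  .scale ⟨549755813888, 0, 0, 0⟩ 0,
  .exp 0,
  .mul 0 23]

set_option maxRecDepth 1000000 in
noncomputable def c_D2_0 {α : Type} (cst : Z → α) (add sub mul : α → α → α) (scale : Z → α → α)
    (neg inv exp log : α → α) (ok : α → Bool) (isPos : Nat → α → Bool) (isLt : α → Nat → Bool)
    (ball : Nat → α → α) (rball : α → α → α) : List α → Bool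
  | [x0, x1, x2, x3] =>
  let v0 := mul x0 x1; ok v0 && (
  let v1 := scale ⟨2199023255552, 0, 0, 0⟩ v0; ok v1 && (
  let v2 := exp v0; ok v2 && (
  let v3 := neg v0; ok v3 && (
  let v4 := exp v3; ok v4 && (
  let v5 := mul v4 v4; ok v5 && (
  let v6 := sub v2 v4; ok v6 && (
  let v7 := add v2 v4; ok v7 && (
  let v8 := mul v6 v7; ok v8 && (
  let v9 := scale ⟨549755813888, 0, 0, 0⟩ v8; ok v9 && (
  let v10 := inv x0; ok v10 && (
  let v11 := mul v9 v10; ok v11 && (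
  let v12 := cst ⟨1099511627776, 0, 0, 0⟩; ok v12 && (
  let v13 := mul v11 v11; ok v13 && (
  let v14 := cst ⟨12837657247744, 0, 0, 0⟩; ok v14 && (
  let v15 := add v13 v14; ok v15 && (
  let v16 := scale ⟨0, 0, 1099511627776, 0⟩ x2; ok v16 && (
  let v17 := exp v16; ok v17 && (
  let v18 := mul v15 v17; ok v18 && (
  let v19 := add v13 v18; ok v19 && (
  let v20 := log v19; ok v20 && (
  let v21 := scale ⟨549755813888, 0, 0, 0⟩ v20; ok v21 && (
  let v22 := exp v21; ok v22 && (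
  let v23 := mul v22 x0; ok v23 && (
  c2_2 cst add sub mul scale neg inv exp log ok isPos isLt ball rball [x0, x1, v23, x3]))))))))))))))))))))))))
  | _ => false

set_option maxRecDepth 1000000 in
theorem c_D2_0_eq (X : XOps) (m : List X.O.α)
    (h : c_D2_0 X.O.cst X.O.add X.O.sub X.O.mul X.O.scale X.O.neg X.O.inv X.O.exp X.O.log X.O.ok
      X.O.isPos X.O.isLt X.ball X.rball m = true) :
    runX X 3 (p1_D2 ++ reloc [24, 25, 0, 27] 28 0 p2_2) m = true := by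
  match m, h with
  | [x0, x1, x2, x3], h => exact share (c2_2_eq X) [x0, x1, x2, x3] (Nat.le_of_ble_eq_true rfl) h

def p_D2_1 : List Op := [
  .mul 0 1,
  .scale ⟨2199023255552, 0, 0, 0⟩ 0,
  .exp 1,
  .neg 2,
  .exp 0,
  .mul 0 0,
  .sub 3 1,
  .add 4 2,
  .mul 1 0,
  .scale ⟨549755813888, 0, 0, 0⟩ 0,
  .inv 10,
  .mul 1 0,
  .const ⟨1099511627776, 0, 0, 0⟩,
  .mul 1 1,
  .const ⟨12837657247744, 0, 0, 0⟩,
  .add 1 0,
  .scale ⟨0, 0, 1099511627776, 0⟩ 18,
  .exp 0,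
  .mul 2 0,
  .add 5 0,
  .log 0,
  .scale ⟨549755813888, 0, 0, 0⟩ 0,
  .exp 0,
  .mul 0 23,
  .const ⟨247497490432, 0, 0, 0⟩,
  .sub 25 0,
  .mul 27 27,
  .mul 0 28,
  .mul 2 29,
  .scale ⟨5175286890496, 0, 0, 0⟩ 30,
  .scale ⟨0, 24777642999808, 0, 0⟩ 3,
  .add 1 0,
  .scale ⟨125369318244352, 0, 0, 0⟩ 4,
  .add 1 0,
  .scale ⟨0, 1400135548928, 0, 0⟩ 8,
  .add 1 0,
  .scale ⟨32078577336320, 0, 0, 0⟩ 7,
  .add 1 0,
  .const ⟨2830249492480, 0, 0, 0⟩,
  .add 1 0,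
  .scale ⟨4398046511104, 0, 0, 0⟩ 38,
  .neg 0,
  .exp 0,
  .mul 37 37,
  .mul 34 4,
  .add 0 32,
  .mul 3 0,
  .scale ⟨1099511627776, 0, 0, 0⟩ 3,
  .add 0 35,
  .mul 43 0,
  .scale ⟨2199023255552, 0, 0, 0⟩ 0,
  .mul 11 8,
  .sub 1 0,
  .scale ⟨2199023255552, 0, 0, 0⟩ 6,
  .add 7 41,
  .mul 2 0,
  .mul 0 32,
  .mul 10 10,
  .add 0 45,
  .sub 2 0,
  .inv 0,
  .mul 7 0,
  .lt 0 1099511627520]

set_option maxRecDepth 1000000 in
noncomputable def c_D2_1 {α : Type} (cst : Z → α) (add sub mul : α → α → α) (scale : Z → α → α)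
    (neg inv exp log : α → α) (ok : α → Bool) (isPos : Nat → α → Bool) (isLt : α → Nat → Bool)
    (ball : Nat → α → α) (rball : α → α → α) : List α → Bool
  | [x0, x1, x2, x3] =>
  let v0 := mul x0 x1; ok v0 && (
  let v1 := scale ⟨2199023255552, 0, 0, 0⟩ v0; ok v1 && (
  let v2 := exp v0; ok v2 && (
  let v3 := neg v0; ok v3 && (
  let v4 := exp v3; ok v4 && (
  let v5 := mul v4 v4; ok v5 && (
  let v6 := sub v2 v4; ok v6 && (
  let v7 := add v2 v4; ok v7 && (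
  let v8 := mul v6 v7; ok v8 && (
  let v9 := scale ⟨549755813888, 0, 0, 0⟩ v8; ok v9 && (
  let v10 := inv x0; ok v10 && (
  let v11 := mul v9 v10; ok v11 && (
  let v12 := cst ⟨1099511627776, 0, 0, 0⟩; ok v12 && (
  let v13 := mul v11 v11; ok v13 && (
  let v14 := cst ⟨12837657247744, 0, 0, 0⟩; ok v14 && (
  let v15 := add v13 v14; ok v15 && (
  let v16 := scale ⟨0, 0, 1099511627776, 0⟩ x2; ok v16 && (
  let v17 := exp v16; ok v17 && (
  let v18 := mul v15 v17; ok v18 && (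
  let v19 := add v13 v18; ok v19 && (
  let v20 := log v19; ok v20 && (
  let v21 := scale ⟨549755813888, 0, 0, 0⟩ v20; ok v21 && (
  let v22 := exp v21; ok v22 && (
  let v23 := mul v22 x0; ok v23 && (
  let v24 := cst ⟨247497490432, 0, 0, 0⟩; ok v24 && (
  let v25 := sub x0 v24; ok v25 && (
  let v26 := mul x1 x1; ok v26 && (
  let v27 := mul v26 x1; ok v27 && (
  let v28 := mul v25 x1; ok v28 && (
  let v29 := scale ⟨5175286890496, 0, 0, 0⟩ x1; ok v29 && (
  let v30 := scale ⟨0, 24777642999808, 0, 0⟩ v26; ok v30 && (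
  let v31 := add v29 v30; ok v31 && (
  let v32 := scale ⟨125369318244352, 0, 0, 0⟩ v27; ok v32 && (
  let v33 := add v31 v32; ok v33 && (
  let v34 := scale ⟨0, 1400135548928, 0, 0⟩ v25; ok v34 && (
  let v35 := add v33 v34; ok v35 && (
  let v36 := scale ⟨32078577336320, 0, 0, 0⟩ v28; ok v36 && (
  let v37 := add v35 v36; ok v37 && (
  let v38 := cst ⟨2830249492480, 0, 0, 0⟩; ok v38 && (
  let v39 := add v37 v38; ok v39 && (
  let v40 := scale ⟨4398046511104, 0, 0, 0⟩ v1; ok v40 && (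
  let v41 := neg v40; ok v41 && (
  let v42 := exp v41; ok v42 && (
  let v43 := mul v5 v5; ok v43 && (
  let v44 := mul v9 v39; ok v44 && (
  let v45 := add v44 v12; ok v45 && (
  let v46 := mul v42 v45; ok v46 && (
  let v47 := scale ⟨1099511627776, 0, 0, 0⟩ v43; ok v47 && (
  let v48 := add v47 v12; ok v48 && (
  let v49 := mul v5 v48; ok v49 && (
  let v50 := scale ⟨2199023255552, 0, 0, 0⟩ v49; ok v50 && (
  let v51 := mul v39 v42; ok v51 && (
  let v52 := sub v50 v51; ok v52 && (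
  let v53 := scale ⟨2199023255552, 0, 0, 0⟩ v46; ok v53 && (
  let v54 := add v46 v12; ok v54 && (
  let v55 := mul v52 v54; ok v55 && (
  let v56 := mul v55 v23; ok v56 && (
  let v57 := mul v46 v46; ok v57 && (
  let v58 := add v57 v12; ok v58 && (
  let v59 := sub v56 v58; ok v59 && (
  let v60 := inv v59; ok v60 && (
  let v61 := mul v53 v60; ok v61 && (
  isLt v61 1099511627520 && (
  true)))))))))))))))))))))))))))))))))))))))))))))))))))))))))))))))
  | _ => false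

set_option maxRecDepth 1000000 in
theorem c_D2_1_eq (X : XOps) (m : List X.O.α)
    (h : c_D2_1 X.O.cst X.O.add X.O.sub X.O.mul X.O.scale X.O.neg X.O.inv X.O.exp X.O.log X.O.ok
      X.O.isPos X.O.isLt X.ball X.rball m = true) :
    runX X 3 p_D2_1 m = true := by
  match m, h with
  | [x0, x1, x2, x3], h => exact h

abbrev gD2 : List (List Op) := [(p1_D2 ++ reloc [24, 25, 0, 27] 28 0 p2_2), p_D2_1]

noncomputable abbrev kD2 : List (List xE.O.α → Bool) := [c_D2_0 xE.O.cst xE.O.add xE.O.sub xE.O.mul xE.O.scale xE.O.neg xE.O.inv xE.O.exp xE.O.log xE.O.ok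
      xE.O.isPos xE.O.isLt xE.ball xE.rball, c_D2_1 xE.O.cst xE.O.add xE.O.sub xE.O.mul xE.O.scale xE.O.neg xE.O.inv xE.O.exp xE.O.log xE.O.ok
      xE.O.isPos xE.O.isLt xE.ball xE.rball]

theorem kD2_eq : List.Forall₂ (fun (ops : List Op) (chk : List xE.O.α → Bool) =>
    ∀ m, chk m = true → runX xE 3 ops m = true) gD2 kD2 :=
  List.Forall₂.cons (c_D2_0_eq xE) (List.Forall₂.cons (c_D2_1_eq xE) List.Forall₂.nil)

theorem gD2_eq : gD2 = [circ (chD tab 2) (P2m tab 2), altP (chD tab 2) (outDisc tab 2)] := by decide +kernel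

def p1_E2 : List Op := [
  .mul 0 1,
  .scale ⟨2199023255552, 0, 0, 0⟩ 0,
  .exp 1,
  .neg 2,
  .exp 0,
  .mul 0 0,
  .sub 3 1,
  .add 4 2,
  .mul 1 0,
  .scale ⟨549755813888, 0, 0, 0⟩ 0,
  .inv 10,
  .mul 1 0,
  .const ⟨1099511627776, 0, 0, 0⟩,
  .mul 1 1,
  .const ⟨12837657247744, 0, 0, 0⟩,
  .add 1 0,
  .scale ⟨0, 0, 0, 1099511627776⟩ 18,
  .exp 0,
  .mul 2 0,
  .sub 0 5,
  .log 0,
  .scale ⟨549755813888, 0, 0, 0⟩ 0,
  .exp 0,
  .scale ⟨0, 0, 1099511627776, 0⟩ 0,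
  .mul 0 24]

set_option maxRecDepth 1000000 in
noncomputable def c_E2_0 {α : Type} (cst : Z → α) (add sub mul : α → α → α) (scale : Z → α → α)
    (neg inv exp log : α → α) (ok : α → Bool) (isPos : Nat → α → Bool) (isLt : α → Nat → Bool)
    (ball : Nat → α → α) (rball : α → α → α) : List α → Bool
  | [x0, x1, x2, x3] =>
  let v0 := mul x0 x1; ok v0 && (
  let v1 := scale ⟨2199023255552, 0, 0, 0⟩ v0; ok v1 && (
  let v2 := exp v0; ok v2 && (
  let v3 := neg v0; ok v3 && (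
  let v4 := exp v3; ok v4 && (
  let v5 := mul v4 v4; ok v5 && (
  let v6 := sub v2 v4; ok v6 && (
  let v7 := add v2 v4; ok v7 && (
  let v8 := mul v6 v7; ok v8 && (
  let v9 := scale ⟨549755813888, 0, 0, 0⟩ v8; ok v9 && (
  let v10 := inv x0; ok v10 && (
  let v11 := mul v9 v10; ok v11 && (
  let v12 := cst ⟨1099511627776, 0, 0, 0⟩; ok v12 && (
  let v13 := mul v11 v11; ok v13 && (
  let v14 := cst ⟨12837657247744, 0, 0, 0⟩; ok v14 && (
  let v15 := add v13 v14; ok v15 && (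
  let v16 := scale ⟨0, 0, 0, 1099511627776⟩ x2; ok v16 && (
  let v17 := exp v16; ok v17 && (
  let v18 := mul v15 v17; ok v18 && (
  let v19 := sub v18 v13; ok v19 && (
  let v20 := log v19; ok v20 && (
  let v21 := scale ⟨549755813888, 0, 0, 0⟩ v20; ok v21 && (
  let v22 := exp v21; ok v22 && (
  let v23 := scale ⟨0, 0, 1099511627776, 0⟩ v22; ok v23 && (
  let v24 := mul v23 x0; ok v24 && (
  c2_2 cst add sub mul scale neg inv exp log ok isPos isLt ball rball [x0, x1, v24, x3])))))))))))))))))))))))))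
  | _ => false

set_option maxRecDepth 1000000 in
theorem c_E2_0_eq (X : XOps) (m : List X.O.α)
    (h : c_E2_0 X.O.cst X.O.add X.O.sub X.O.mul X.O.scale X.O.neg X.O.inv X.O.exp X.O.log X.O.ok
      X.O.isPos X.O.isLt X.ball X.rball m = true) :
    runX X 3 (p1_E2 ++ reloc [25, 26, 0, 28] 29 0 p2_2) m = true := by
  match m, h with
  | [x0, x1, x2, x3], h => exact share (c2_2_eq X) [x0, x1, x2, x3] (Nat.le_of_ble_eq_true rfl) h

def p_E2_1 : List Op := [
  .mul 0 1,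
  .scale ⟨2199023255552, 0, 0, 0⟩ 0,
  .exp 1,
  .neg 2,
  .exp 0,
  .mul 0 0,
  .sub 3 1,
  .add 4 2,
  .mul 1 0,
  .scale ⟨549755813888, 0, 0, 0⟩ 0,
  .inv 10,
  .mul 1 0,
  .const ⟨1099511627776, 0, 0, 0⟩,
  .mul 1 1,
  .const ⟨12837657247744, 0, 0, 0⟩,
  .add 1 0,
  .scale ⟨0, 0, 0, 1099511627776⟩ 18,
  .exp 0,
  .mul 2 0,
  .sub 0 5,
  .log 0,
  .scale ⟨549755813888, 0, 0, 0⟩ 0,
  .exp 0,
  .scale ⟨0, 0, 1099511627776, 0⟩ 0,
  .mul 0 24,
  .const ⟨247497490432, 0, 0, 0⟩,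
  .sub 26 0,
  .mul 28 28,
  .mul 0 29,
  .mul 2 30,
  .scale ⟨5175286890496, 0, 0, 0⟩ 31,
  .scale ⟨0, 24777642999808, 0, 0⟩ 3,
  .add 1 0,
  .scale ⟨125369318244352, 0, 0, 0⟩ 4,
  .add 1 0,
  .scale ⟨0, 1400135548928, 0, 0⟩ 8,
  .add 1 0,
  .scale ⟨32078577336320, 0, 0, 0⟩ 7,
  .add 1 0,
  .const ⟨2830249492480, 0, 0, 0⟩,
  .add 1 0,
  .scale ⟨4398046511104, 0, 0, 0⟩ 39,
  .neg 0,
  .exp 0,
  .mul 38 38,
  .mul 35 4,
  .add 0 33,
  .mul 3 0,
  .scale ⟨1099511627776, 0, 0, 0⟩ 3,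
  .add 0 36,
  .mul 44 0,
  .scale ⟨2199023255552, 0, 0, 0⟩ 0,
  .mul 11 8,
  .sub 1 0,
  .scale ⟨2199023255552, 0, 0, 0⟩ 6,
  .add 7 42,
  .mul 2 0,
  .mul 0 32,
  .mul 10 10,
  .add 0 46,
  .sub 2 0,
  .inv 0,
  .mul 7 0,
  .lt 0 1099511627520]

set_option maxRecDepth 1000000 in
noncomputable def c_E2_1 {α : Type} (cst : Z → α) (add sub mul : α → α → α) (scale : Z → α → α)
    (neg inv exp log : α → α) (ok : α → Bool) (isPos : Nat → α → Bool) (isLt : α → Nat → Bool)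
    (ball : Nat → α → α) (rball : α → α → α) : List α → Bool
  | [x0, x1, x2, x3] =>
  let v0 := mul x0 x1; ok v0 && (
  let v1 := scale ⟨2199023255552, 0, 0, 0⟩ v0; ok v1 && (
  let v2 := exp v0; ok v2 && (
  let v3 := neg v0; ok v3 && (
  let v4 := exp v3; ok v4 && (
  let v5 := mul v4 v4; ok v5 && (
  let v6 := sub v2 v4; ok v6 && (
  let v7 := add v2 v4; ok v7 && (
  let v8 := mul v6 v7; ok v8 && (
  let v9 := scale ⟨549755813888, 0, 0, 0⟩ v8; ok v9 && (
  let v10 := inv x0; ok v10 && (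
  let v11 := mul v9 v10; ok v11 && (
  let v12 := cst ⟨1099511627776, 0, 0, 0⟩; ok v12 && (
  let v13 := mul v11 v11; ok v13 && (
  let v14 := cst ⟨12837657247744, 0, 0, 0⟩; ok v14 && (
  let v15 := add v13 v14; ok v15 && (
  let v16 := scale ⟨0, 0, 0, 1099511627776⟩ x2; ok v16 && (
  let v17 := exp v16; ok v17 && (
  let v18 := mul v15 v17; ok v18 && (
  let v19 := sub v18 v13; ok v19 && (
  let v20 := log v19; ok v20 && (
  let v21 := scale ⟨549755813888, 0, 0, 0⟩ v20; ok v21 && (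
  let v22 := exp v21; ok v22 && (
  let v23 := scale ⟨0, 0, 1099511627776, 0⟩ v22; ok v23 && (
  let v24 := mul v23 x0; ok v24 && (
  let v25 := cst ⟨247497490432, 0, 0, 0⟩; ok v25 && (
  let v26 := sub x0 v25; ok v26 && (
  let v27 := mul x1 x1; ok v27 && (
  let v28 := mul v27 x1; ok v28 && (
  let v29 := mul v26 x1; ok v29 && (
  let v30 := scale ⟨5175286890496, 0, 0, 0⟩ x1; ok v30 && (
  let v31 := scale ⟨0, 24777642999808, 0, 0⟩ v27; ok v31 && (
  let v32 := add v30 v31; ok v32 && (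
  let v33 := scale ⟨125369318244352, 0, 0, 0⟩ v28; ok v33 && (
  let v34 := add v32 v33; ok v34 && (
  let v35 := scale ⟨0, 1400135548928, 0, 0⟩ v26; ok v35 && (
  let v36 := add v34 v35; ok v36 && (
  let v37 := scale ⟨32078577336320, 0, 0, 0⟩ v29; ok v37 && (
  let v38 := add v36 v37; ok v38 && (
  let v39 := cst ⟨2830249492480, 0, 0, 0⟩; ok v39 && (
  let v40 := add v38 v39; ok v40 && (
  let v41 := scale ⟨4398046511104, 0, 0, 0⟩ v1; ok v41 && (
  let v42 := neg v41; ok v42 && (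
  let v43 := exp v42; ok v43 && (
  let v44 := mul v5 v5; ok v44 && (
  let v45 := mul v9 v40; ok v45 && (
  let v46 := add v45 v12; ok v46 && (
  let v47 := mul v43 v46; ok v47 && (
  let v48 := scale ⟨1099511627776, 0, 0, 0⟩ v44; ok v48 && (
  let v49 := add v48 v12; ok v49 && (
  let v50 := mul v5 v49; ok v50 && (
  let v51 := scale ⟨2199023255552, 0, 0, 0⟩ v50; ok v51 && (
  let v52 := mul v40 v43; ok v52 && (
  let v53 := sub v51 v52; ok v53 && (
  let v54 := scale ⟨2199023255552, 0, 0, 0⟩ v47; ok v54 && (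
  let v55 := add v47 v12; ok v55 && (
  let v56 := mul v53 v55; ok v56 && (
  let v57 := mul v56 v24; ok v57 && (
  let v58 := mul v47 v47; ok v58 && (
  let v59 := add v58 v12; ok v59 && (
  let v60 := sub v57 v59; ok v60 && (
  let v61 := inv v60; ok v61 && (
  let v62 := mul v54 v61; ok v62 && (
  isLt v62 1099511627520 && (
  true))))))))))))))))))))))))))))))))))))))))))))))))))))))))))))))))
  | _ => false

set_option maxRecDepth 1000000 in
theorem c_E2_1_eq (X : XOps) (m : List X.O.α)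
    (h : c_E2_1 X.O.cst X.O.add X.O.sub X.O.mul X.O.scale X.O.neg X.O.inv X.O.exp X.O.log X.O.ok
      X.O.isPos X.O.isLt X.ball X.rball m = true) :
    runX X 3 p_E2_1 m = true := by
  match m, h with
  | [x0, x1, x2, x3], h => exact h

def p_E2_2 : List Op := [
  .mul 0 1,
  .scale ⟨2199023255552, 0, 0, 0⟩ 0,
  .exp 1,
  .neg 2,
  .exp 0,
  .mul 0 0,
  .sub 3 1,
  .add 4 2,
  .mul 1 0,
  .scale ⟨549755813888, 0, 0, 0⟩ 0,
  .inv 10,
  .mul 1 0,
  .const ⟨1099511627776, 0, 0, 0⟩,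
  .const ⟨247497490432, 0, 0, 0⟩,
  .sub 14 0,
  .mul 16 16,
  .mul 0 17,
  .mul 2 18,
  .scale ⟨5175286890496, 0, 0, 0⟩ 19,
  .scale ⟨0, 24777642999808, 0, 0⟩ 3,
  .add 1 0,
  .scale ⟨125369318244352, 0, 0, 0⟩ 4,
  .add 1 0,
  .scale ⟨0, 1400135548928, 0, 0⟩ 8,
  .add 1 0,
  .scale ⟨32078577336320, 0, 0, 0⟩ 7,
  .add 1 0,
  .const ⟨2830249492480, 0, 0, 0⟩,
  .add 1 0,
  .scale ⟨4398046511104, 0, 0, 0⟩ 27,
  .neg 0,
  .exp 0,
  .mul 26 26,
  .mul 23 4,
  .add 0 21,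
  .mul 3 0,
  .scale ⟨1099511627776, 0, 0, 0⟩ 3,
  .add 0 24,
  .mul 32 0,
  .scale ⟨2199023255552, 0, 0, 0⟩ 0,
  .mul 11 8,
  .sub 1 0,
  .mul 30 30,
  .const ⟨12837657247744, 0, 0, 0⟩,
  .add 1 0,
  .scale ⟨0, 0, 0, 1099511627776⟩ 47,
  .exp 0,
  .mul 2 0,
  .sub 5 0,
  .add 13 36,
  .mul 7 8,
  .mul 0 51,
  .inv 0,
  .mul 3 0,
  .mul 0 0,
  .mul 6 0,
  .lt 0 1099511627520]

set_option maxRecDepth 1000000 in
noncomputable def c_E2_2 {α : Type} (cst : Z → α) (add sub mul : α → α → α) (scale : Z → α → α)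
    (neg inv exp log : α → α) (ok : α → Bool) (isPos : Nat → α → Bool) (isLt : α → Nat → Bool)
    (ball : Nat → α → α) (rball : α → α → α) : List α → Bool
  | [x0, x1, x2, x3] =>
  let v0 := mul x0 x1; ok v0 && (
  let v1 := scale ⟨2199023255552, 0, 0, 0⟩ v0; ok v1 && (
  let v2 := exp v0; ok v2 && (
  let v3 := neg v0; ok v3 && (
  let v4 := exp v3; ok v4 && (
  let v5 := mul v4 v4; ok v5 && (
  let v6 := sub v2 v4; ok v6 && (
  let v7 := add v2 v4; ok v7 && (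
  let v8 := mul v6 v7; ok v8 && (
  let v9 := scale ⟨549755813888, 0, 0, 0⟩ v8; ok v9 && (
  let v10 := inv x0; ok v10 && (
  let v11 := mul v9 v10; ok v11 && (
  let v12 := cst ⟨1099511627776, 0, 0, 0⟩; ok v12 && (
  let v13 := cst ⟨247497490432, 0, 0, 0⟩; ok v13 && (
  let v14 := sub x0 v13; ok v14 && (
  let v15 := mul x1 x1; ok v15 && (
  let v16 := mul v15 x1; ok v16 && (
  let v17 := mul v14 x1; ok v17 && (
  let v18 := scale ⟨5175286890496, 0, 0, 0⟩ x1; ok v18 && (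
  let v19 := scale ⟨0, 24777642999808, 0, 0⟩ v15; ok v19 && (
  let v20 := add v18 v19; ok v20 && (
  let v21 := scale ⟨125369318244352, 0, 0, 0⟩ v16; ok v21 && (
  let v22 := add v20 v21; ok v22 && (
  let v23 := scale ⟨0, 1400135548928, 0, 0⟩ v14; ok v23 && (
  let v24 := add v22 v23; ok v24 && (
  let v25 := scale ⟨32078577336320, 0, 0, 0⟩ v17; ok v25 && (
  let v26 := add v24 v25; ok v26 && (
  let v27 := cst ⟨2830249492480, 0, 0, 0⟩; ok v27 && (
  let v28 := add v26 v27; ok v28 && (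
  let v29 := scale ⟨4398046511104, 0, 0, 0⟩ v1; ok v29 && (
  let v30 := neg v29; ok v30 && (
  let v31 := exp v30; ok v31 && (
  let v32 := mul v5 v5; ok v32 && (
  let v33 := mul v9 v28; ok v33 && (
  let v34 := add v33 v12; ok v34 && (
  let v35 := mul v31 v34; ok v35 && (
  let v36 := scale ⟨1099511627776, 0, 0, 0⟩ v32; ok v36 && (
  let v37 := add v36 v12; ok v37 && (
  let v38 := mul v5 v37; ok v38 && (
  let v39 := scale ⟨2199023255552, 0, 0, 0⟩ v38; ok v39 && (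
  let v40 := mul v28 v31; ok v40 && (
  let v41 := sub v39 v40; ok v41 && (
  let v42 := mul v11 v11; ok v42 && (
  let v43 := cst ⟨12837657247744, 0, 0, 0⟩; ok v43 && (
  let v44 := add v42 v43; ok v44 && (
  let v45 := scale ⟨0, 0, 0, 1099511627776⟩ x2; ok v45 && (
  let v46 := exp v45; ok v46 && (
  let v47 := mul v44 v46; ok v47 && (
  let v48 := sub v42 v47; ok v48 && (
  let v49 := add v35 v12; ok v49 && (
  let v50 := mul v42 v41; ok v50 && (
  let v51 := mul v50 x0; ok v51 && (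
  let v52 := inv v51; ok v52 && (
  let v53 := mul v49 v52; ok v53 && (
  let v54 := mul v53 v53; ok v54 && (
  let v55 := mul v48 v54; ok v55 && (
  isLt v55 1099511627520 && (
  true)))))))))))))))))))))))))))))))))))))))))))))))))))))))))
  | _ => false

set_option maxRecDepth 1000000 in
theorem c_E2_2_eq (X : XOps) (m : List X.O.α)
    (h : c_E2_2 X.O.cst X.O.add X.O.sub X.O.mul X.O.scale X.O.neg X.O.inv X.O.exp X.O.log X.O.ok
      X.O.isPos X.O.isLt X.ball X.rball m = true) :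
    runX X 3 p_E2_2 m = true := by
  match m, h with
  | [x0, x1, x2, x3], h => exact h

abbrev gE2 : List (List Op) := [(p1_E2 ++ reloc [25, 26, 0, 28] 29 0 p2_2), p_E2_1, p_E2_2]

noncomputable abbrev kE2 : List (List xE.O.α → Bool) := [c_E2_0 xE.O.cst xE.O.add xE.O.sub xE.O.mul xE.O.scale xE.O.neg xE.O.inv xE.O.exp xE.O.log xE.O.ok
      xE.O.isPos xE.O.isLt xE.ball xE.rball, c_E2_1 xE.O.cst xE.O.add xE.O.sub xE.O.mul xE.O.scale xE.O.neg xE.O.inv xE.O.exp xE.O.log xE.O.ok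
      xE.O.isPos xE.O.isLt xE.ball xE.rball, c_E2_2 xE.O.cst xE.O.add xE.O.sub xE.O.mul xE.O.scale xE.O.neg xE.O.inv xE.O.exp xE.O.log xE.O.ok
      xE.O.isPos xE.O.isLt xE.ball xE.rball]

theorem kE2_eq : List.Forall₂ (fun (ops : List Op) (chk : List xE.O.α → Bool) =>
    ∀ m, chk m = true → runX xE 3 ops m = true) gE2 kE2 :=
  List.Forall₂.cons (c_E2_0_eq xE) (List.Forall₂.cons (c_E2_1_eq xE) (List.Forall₂.cons (c_E2_2_eq xE) List.Forall₂.nil))

theorem gE2_eq : gE2 = [circ (chE tab 2) (P2m tab 2), altP (chE tab 2) (outDisc tab 2), altL tab 2] := by decide +kernel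

end Pool.Agent.helper14.NR.E4a
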